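import Pool.Agent.TH129.EM.Pts

/-!
# Second order terms: numbers of points of a variety and of its Albanese variety
-/

set_option autoImplicit false

namespace Pool.Agent.TH129.EM

open Filter Topology Set Polynomial

theorem log_one_sub_two {a : ℂ} (h : ‖a‖ ≤ 1 / 2) :
    1 - a ≠ 0 ∧ |Real.log ‖1 - a‖ + a.re + (a ^ 2).re / 2| ≤ ‖a‖ ^ 3 := by
  refine ⟨(log_one_sub h).1, ?_⟩
  have h1 : ‖-a‖ < 1 := by rw [norm_neg]; linarith
  have h2 := Complex.norm_log_sub_logTaylor_le 2 h1
  rw [norm_neg] at h2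
  have h3 : Complex.logTaylor (2 + 1) (-a) = -a - a ^ 2 / 2 := by
    simp only [Complex.logTaylor_succ, Complex.logTaylor_zero, Pi.add_apply]
    push_cast
    ring
  rw [h3] at h2
  have h4 : (Complex.log (1 + -a) - (-a - a ^ 2 / 2)).re =
      Real.log ‖1 - a‖ + a.re + (a ^ 2).re / 2 := by
    rw [Complex.sub_re, Complex.log_re, ← sub_eq_add_neg, Complex.sub_re, Complex.neg_re]
    have : (a ^ 2 / 2 : ℂ).re = (a ^ 2).re / 2 := by
      rw [show (2 : ℂ) = ((2 : ℝ) : ℂ) by norm_num, Complex.div_ofReal_re]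
    rw [this]
    ring
  rw [← h4]
  refine (Complex.abs_re_le_norm _).trans (h2.trans ?_)
  have h5 : (1 - ‖a‖)⁻¹ ≤ 2 := by
    rw [inv_le_comm₀ (by linarith) (by norm_num)]
    linarith
  have h6 : 0 ≤ ‖a‖ ^ 3 := by positivity
  norm_num
  nlinarith

theorem ms_log_two (s : Multiset ℂ) {r : ℝ} (hr2 : r ≤ 1 / 2) (h : ∀ w ∈ s, ‖w‖ ≤ r) :
    (s.map (fun w => 1 - w)).prod ≠ 0 ∧
      |Real.log ‖(s.map (fun w => 1 - w)).prod‖ + s.sum.re + (s.map fun w => w ^ 2).sum.re / 2| ≤
        s.card * r ^ 3 := by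
  induction s using Multiset.induction_on with
  | empty => simp
  | cons a t ih =>
    obtain ⟨h1, h2⟩ := ih fun w hw => h w (Multiset.mem_cons_of_mem hw)
    have ha := h a (Multiset.mem_cons_self a t)
    obtain ⟨h3, h4⟩ := log_one_sub_two (ha.trans hr2)
    rw [Multiset.map_cons, Multiset.prod_cons, Multiset.sum_cons, Multiset.card_cons,
      Multiset.map_cons, Multiset.sum_cons]
    refine ⟨mul_ne_zero h3 h1, ?_⟩
    rw [norm_mul, Real.log_mul (norm_ne_zero_iff.mpr h3) (norm_ne_zero_iff.mpr h1),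
      Complex.add_re, Complex.add_re]
    have h5 : ‖a‖ ^ 3 ≤ r ^ 3 := pow_le_pow_left₀ (norm_nonneg _) ha 3
    push_cast
    have e : Real.log ‖1 - a‖ + Real.log ‖(Multiset.map (fun w => 1 - w) t).prod‖ +
        (a.re + t.sum.re) + ((a ^ 2).re + (t.map fun w => w ^ 2).sum.re) / 2 =
        (Real.log ‖1 - a‖ + a.re + (a ^ 2).re / 2) +
        (Real.log ‖(Multiset.map (fun w => 1 - w) t).prod‖ + t.sum.re +
          (t.map fun w => w ^ 2).sum.re / 2) := by ring
    rw [e]
    refine (abs_add_le _ _).trans ?_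
    linarith

theorem real_log_two {y : ℝ} (h : |y| ≤ 1 / 2) :
    |Real.log (1 + y) - y + y ^ 2 / 2| ≤ |y| ^ 3 := by
  have h1 := (log_one_sub_two (a := ((-y : ℝ) : ℂ)) (by
    rw [Complex.norm_real, Real.norm_eq_abs, abs_neg]; exact h)).2
  rw [Complex.norm_real, Complex.ofReal_re, Real.norm_eq_abs, abs_neg] at h1
  have h2 : ‖(1 : ℂ) - ((-y : ℝ) : ℂ)‖ = 1 + y := by
    rw [← Complex.ofReal_one, ← Complex.ofReal_sub, Complex.norm_real, Real.norm_eq_abs]
    have := (abs_le.mp h).1
    rw [sub_neg_eq_add, abs_of_nonneg (by linarith)]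
  have h3 : ((((-y : ℝ) : ℂ)) ^ 2).re = y ^ 2 := by
    rw [← Complex.ofReal_pow, Complex.ofReal_re]
    ring
  rw [h2, h3] at h1
  refine le_trans (le_of_eq ?_) h1
  congr 1

/-- the sum over the pairs -/
noncomputable def pairs (s : Multiset ℂ) : Multiset ℂ := (s.powersetCard 2).map Multiset.prod

theorem pairs_cons (a : ℂ) (s : Multiset ℂ) : pairs (a ::ₘ s) = pairs s + s.map (fun b => a * b) := by
  unfold pairs
  rw [Multiset.powersetCard_cons, Multiset.map_add, Multiset.powersetCard_one, Multiset.map_map,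
    Multiset.map_map]
  congr 1
  refine Multiset.map_congr rfl fun b _ => ?_
  simp

theorem newton_two (s : Multiset ℂ) :
    s.sum ^ 2 - (s.map fun w => w ^ 2).sum = 2 * (pairs s).sum := by
  induction s using Multiset.induction_on with
  | empty => simp [pairs]
  | cons a t ih =>
    rw [pairs_cons, Multiset.sum_cons, Multiset.map_cons, Multiset.sum_cons, Multiset.sum_add,
      Multiset.sum_map_mul_left, Multiset.map_id']
    linear_combination ih

theorem pairs_card (s : Multiset ℂ) : (pairs s).card ≤ s.card ^ 2 := by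
  unfold pairs
  rw [Multiset.card_map, Multiset.card_powersetCard]
  exact Nat.choose_le_pow _ _

theorem pairs_norm {s : Multiset ℂ} {r : ℝ} (h : ∀ w ∈ s, ‖w‖ = r) : ∀ w ∈ pairs s, ‖w‖ = r ^ 2 := by
  induction s using Multiset.induction_on with
  | empty => simp [pairs]
  | cons a t ih =>
    intro w hw
    rw [pairs_cons, Multiset.mem_add] at hw
    rcases hw with hw | hw
    · exact ih (fun w hw => h w (Multiset.mem_cons_of_mem hw)) w hw
    · obtain ⟨b, hb, rfl⟩ := Multiset.mem_map.mp hw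
      rw [norm_mul, h a (Multiset.mem_cons_self a t), h b (Multiset.mem_cons_of_mem hb)]
      ring

theorem pairs_map_mul (s : Multiset ℂ) (t : ℂ) :
    (pairs (s.map fun α => t * α)).sum = t ^ 2 * (pairs s).sum := by
  induction s using Multiset.induction_on with
  | empty => simp [pairs]
  | cons a u ih =>
    rw [Multiset.map_cons, pairs_cons, pairs_cons, Multiset.sum_add, Multiset.sum_add, ih,
      Multiset.map_map, Multiset.sum_map_mul_left, Multiset.map_id']
    have : ((fun b => t * a * b) ∘ fun α => t * α) = fun α => t ^ 2 * a * α := by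
      funext α
      simp only [Function.comp_apply]
      ring
    rw [this, Multiset.sum_map_mul_left, Multiset.map_id']
    ring

theorem pairs_map_conj (s : Multiset ℂ) :
    (pairs (s.map (starRingEnd ℂ))).sum = starRingEnd ℂ (pairs s).sum := by
  induction s using Multiset.induction_on with
  | empty => simp [pairs]
  | cons a u ih =>
    rw [Multiset.map_cons, pairs_cons, pairs_cons, Multiset.sum_add, Multiset.sum_add, ih,
      Multiset.map_map, Multiset.sum_map_mul_left, Multiset.map_id', map_add, map_mul]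
    have : ((fun b => (starRingEnd ℂ) a * b) ∘ (starRingEnd ℂ)) =
        fun α => (starRingEnd ℂ) a * (starRingEnd ℂ) α := by
      funext α
      rfl
    rw [this, Multiset.sum_map_mul_left, map_multiset_sum (starRingEnd ℂ) u]

section
variable {I : Type*} {q : I → ℕ} {f f' : I → ℝ → ℝ} {c c' : I → ℝ}

/-- products exist -/
theorem SEdge.multipliable (h : SEdge I q f c) :
    ∀ᶠ ε : ℝ in 𝓝[>] 0, Multipliable fun i => f i ε := by
  obtain ⟨σ, -, h1, -⟩ := h.signs
  filter_upwards [h1, h.hasProd_abs] with ε h2 h3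
  exact (h2 _ h3).multipliable

/-- the quotient of two Euler products -/
theorem SEdge.div (h : SEdge I q f c) (h' : SEdge I q f' c') :
    SEdge I q (fun i ε => f i ε / f' i ε) (fun i => c i - c' i) where
  places := h.places
  bound := by
    obtain ⟨M, hM⟩ := h.bound
    obtain ⟨M', hM'⟩ := h'.bound
    refine ⟨M + M', fun n => ?_⟩
    refine (Finset.sum_le_sum fun i _ => abs_sub (c i) (c' i)).trans ?_
    rw [Finset.sum_add_distrib, add_mul]
    exact add_le_add (hM n) (hM' n)
  rest := by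
    obtain ⟨D, hD, hr⟩ := h.rest
    obtain ⟨D', hD', hr'⟩ := h'.rest
    refine ⟨fun i => D i + D' i, hD.add hD', ?_⟩
    filter_upwards [hr, hr'] with ε h1 h2 i
    refine ⟨div_ne_zero (h1 i).1 (h2 i).1, ?_⟩
    rw [abs_div, Real.log_div (abs_pos.mpr (h1 i).1).ne' (abs_pos.mpr (h2 i).1).ne']
    have e : Real.log |f i ε| - Real.log |f' i ε| - (c i - c' i) * (q i : ℝ) ^ (-ε) =
        (Real.log |f i ε| - c i * (q i : ℝ) ^ (-ε)) -
        (Real.log |f' i ε| - c' i * (q i : ℝ) ^ (-ε)) := by ring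
    rw [e]
    exact (abs_sub _ _).trans (add_le_add (h1 i).2 (h2 i).2)
  ne := fun i => div_ne_zero (h.ne i) (h'.ne i)
  cont := fun i => (h.cont i).div (h'.cont i) (h'.ne i)
  sign := by
    classical
    obtain ⟨S, h1, h2⟩ := h.sign
    obtain ⟨S', h1', h2'⟩ := h'.sign
    refine ⟨S ∪ S', fun i hi => ?_, ?_⟩
    · rw [Finset.notMem_union] at hi
      exact div_pos (h1 i hi.1) (h1' i hi.2)
    · filter_upwards [h2, h2'] with ε e1 e2 i hi
      rw [Finset.notMem_union] at hi
      exact div_pos (e1 i hi.1) (e2 i hi.2)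

theorem SEdge.tprod_div (h : SEdge I q f c) (h' : SEdge I q f' c') :
    ∀ᶠ ε : ℝ in 𝓝[>] 0, ∏' i, f i ε / f' i ε = (∏' i, f i ε) / ∏' i, f' i ε := by
  filter_upwards [h.multipliable, h'.multipliable, h'.ne_zero] with ε h1 h2 h3
  exact (h1.hasProd.div₀ h2.hasProd h3).tprod_eq

end

end Pool.Agent.TH129.EM
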