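import Pool.Agent.TH129.EM.Fin

/-!
# Logarithmic averages
-/

set_option autoImplicit false

namespace Pool.Agent.TH129.EM

open Filter Topology Set MeasureTheory
open Pool.Agent.W263.BSD

variable {c : ℕ → ℝ} {M : ℝ}

/-- the coefficients times `log n` -/
noncomputable def clog (c : ℕ → ℝ) (n : ℕ) : ℝ := c n * Real.log n

theorem step_int (x a b : ℝ) :
    IntervalIntegrable (fun t => if x ≤ t then (1 : ℝ) else 0) volume a b := by
  refine Monotone.intervalIntegrable fun s t hst => ?_
  by_cases h1 : x ≤ s
  · rw [if_pos h1, if_pos (h1.trans hst)]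
  · rw [if_neg h1]
    split_ifs <;> norm_num

/-- partial summation -/
theorem stp_clog (h0 : c 0 = 0) {u : ℝ} (hu : 0 ≤ u) :
    stp (clog c) u = u * stp c u - ∫ t in (0 : ℝ)..u, stp c t := by
  have h1 : ∀ t ∈ Set.uIcc (0 : ℝ) u, stp c t =
      ∑ n ∈ Finset.range (⌊Real.exp u⌋₊ + 1), c n * (if Real.log n ≤ t then (1 : ℝ) else 0) := by
    intro t ht
    rw [Set.uIcc_of_le hu] at ht
    unfold stp
    have hsub : Finset.range (⌊Real.exp t⌋₊ + 1) ⊆ Finset.range (⌊Real.exp u⌋₊ + 1) := by
      refine Finset.range_subset_range.mpr ?_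
      have : ⌊Real.exp t⌋₊ ≤ ⌊Real.exp u⌋₊ := Nat.floor_mono (Real.exp_le_exp.mpr ht.2)
      omega
    rw [← Finset.sum_subset hsub (f := fun n => c n * (if Real.log n ≤ t then (1 : ℝ) else 0))]
    · refine Finset.sum_congr rfl fun n hn => ?_
      rcases Nat.eq_zero_or_pos n with rfl | hn0
      · rw [h0, zero_mul]
      · rw [if_pos ((stp_mem (by omega) t).mp hn), mul_one]
    · intro n _ hn
      rcases Nat.eq_zero_or_pos n with rfl | hn0
      · rw [h0, zero_mul]
      · rw [if_neg (fun h => hn ((stp_mem (by omega) t).mpr h)), mul_zero]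
  rw [intervalIntegral.integral_congr h1, intervalIntegral.integral_finsetSum]
  · unfold stp clog
    rw [Finset.mul_sum, ← Finset.sum_sub_distrib]
    refine Finset.sum_congr rfl fun n hn => ?_
    rcases Nat.eq_zero_or_pos n with rfl | hn0
    · rw [h0]; simp
    · have hlog : 0 ≤ Real.log n := Real.log_nonneg (by exact_mod_cast hn0)
      have hlu : Real.log n ≤ u := (stp_mem (by omega) u).mp hn
      rw [intervalIntegral.integral_const_mul]
      have h2 : ∫ t in (0 : ℝ)..u, (if Real.log n ≤ t then (1 : ℝ) else 0) = u - Real.log n := by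
        have h3 : ∀ a b : ℝ, IntervalIntegrable (fun t => if Real.log n ≤ t then (1 : ℝ) else 0)
            volume a b := fun a b => step_int _ a b
        rw [← intervalIntegral.integral_add_adjacent_intervals (h3 0 (Real.log n)) (h3 (Real.log n) u)]
        have h5 : ∫ t in (0 : ℝ)..(Real.log n), (if Real.log n ≤ t then (1 : ℝ) else 0) = 0 := by
          rw [intervalIntegral.integral_of_le hlog]
          have h6 : ∀ᵐ t ∂(volume.restrict (Ioc (0 : ℝ) (Real.log n))),
              (if Real.log n ≤ t then (1 : ℝ) else 0) = 0 := by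
            rw [ae_restrict_iff' measurableSet_Ioc]
            have h7 : ∀ᵐ t : ℝ, t ≠ Real.log n := by
              have := Measure.ae_ne volume (Real.log n)
              exact this
            filter_upwards [h7] with t ht hmem
            rw [if_neg]
            intro hle
            exact ht (le_antisymm hmem.2 hle)
          rw [integral_congr_ae h6, integral_zero]
        have h8 : ∫ t in (Real.log n)..u, (if Real.log n ≤ t then (1 : ℝ) else 0) = u - Real.log n := by
          have h9 : ∀ t ∈ Set.uIcc (Real.log n) u,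
              (if Real.log n ≤ t then (1 : ℝ) else 0) = 1 := by
            intro t ht
            rw [Set.uIcc_of_le hlu] at ht
            rw [if_pos ht.1]
          rw [intervalIntegral.integral_congr h9, intervalIntegral.integral_const, smul_eq_mul,
            mul_one]
        rw [h5, h8, zero_add]
      rw [h2]
      ring
  · intro n _
    exact (step_int _ 0 u).const_mul _

/-- Cesàro means of a function with a limit -/
theorem cesaro_tendsto {h : ℝ → ℝ} {A : ℝ} (hint : ∀ a b : ℝ, 0 ≤ a → 0 ≤ b →
    IntervalIntegrable h volume a b) (hA : Tendsto h atTop (𝓝 A)) :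
    Tendsto (fun u : ℝ => (∫ t in (0 : ℝ)..u, h t) / u) atTop (𝓝 A) := by
  rw [Metric.tendsto_nhds]
  intro ε hε
  obtain ⟨U0, hU0⟩ := eventually_atTop.mp (Metric.tendsto_nhds.mp hA (ε / 2) (half_pos hε))
  set U := max U0 1 with hU
  have hUpos : 0 < U := lt_of_lt_of_le one_pos (le_max_right _ _)
  set J : ℝ := |∫ t in (0 : ℝ)..U, (h t - A)| with hJ
  filter_upwards [eventually_gt_atTop (max U (2 * J / ε + 1))] with u hu
  have huU : U < u := lt_of_le_of_lt (le_max_left _ _) hu
  have huJ : 2 * J / ε + 1 < u := lt_of_le_of_lt (le_max_right _ _) hu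
  have hu0 : 0 < u := hUpos.trans huU
  rw [Real.dist_eq]
  have e1 : (∫ t in (0 : ℝ)..u, h t) / u - A = (∫ t in (0 : ℝ)..u, (h t - A)) / u := by
    rw [intervalIntegral.integral_sub (hint 0 u le_rfl hu0.le) intervalIntegrable_const,
      intervalIntegral.integral_const, smul_eq_mul, sub_zero]
    field_simp
  have hi : ∀ a b : ℝ, 0 ≤ a → 0 ≤ b → IntervalIntegrable (fun t => h t - A) volume a b :=
    fun a b ha hb => (hint a b ha hb).sub intervalIntegrable_const
  have e2 : ∫ t in (0 : ℝ)..u, (h t - A) = (∫ t in (0 : ℝ)..U, (h t - A)) +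
      ∫ t in U..u, (h t - A) :=
    (intervalIntegral.integral_add_adjacent_intervals (hi 0 U le_rfl hUpos.le)
      (hi U u hUpos.le hu0.le)).symm
  have e3 : |∫ t in U..u, (h t - A)| ≤ ε / 2 * (u - U) := by
    have := intervalIntegral.norm_integral_le_of_norm_le_const (a := U) (b := u) (C := ε / 2)
      (f := fun t => h t - A) (fun t ht => by
        rw [uIoc_of_le huU.le] at ht
        have h1 := hU0 t ((le_max_left _ _).trans ht.1.le)
        rw [Real.dist_eq] at h1
        exact h1.le)
    rwa [Real.norm_eq_abs, abs_of_pos (by linarith : 0 < u - U)] at this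
  rw [e1, e2, abs_div, abs_of_pos hu0, div_lt_iff₀ hu0]
  refine lt_of_le_of_lt (abs_add_le _ _) ?_
  have e4 : J < ε / 2 * (u - 1) := by
    have : 2 * J / ε < u - 1 := by linarith
    rw [div_lt_iff₀ hε] at this
    linarith
  have e5 : ε / 2 * (u - U) ≤ ε / 2 * u := by nlinarith
  rw [← hJ]
  nlinarith

theorem ell_mean : Tendsto (fun u : ℝ => ell u - (∫ t in (0 : ℝ)..u, ell t) / u) atTop (𝓝 1) := by
  have hE := Real.exp_pos 1
  have h1 : ∀ u : ℝ, 0 ≤ u → ∫ t in (0 : ℝ)..u, ell t =
      (u + Real.exp 1) * ell u - u - Real.exp 1 := by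
    intro u hu
    have h2 : ∀ t ∈ Set.uIcc (0 : ℝ) u, HasDerivAt
        (fun t => (t + Real.exp 1) * Real.log (t + Real.exp 1) - t) (ell t) t := by
      intro t ht
      rw [Set.uIcc_of_le hu] at ht
      have ht0 : t + Real.exp 1 ≠ 0 := by linarith [ht.1]
      have h3 : HasDerivAt (fun t : ℝ => t + Real.exp 1) 1 t := (hasDerivAt_id t).add_const _
      have h4 := (h3.mul (h3.log ht0)).sub (hasDerivAt_id t)
      refine h4.congr_deriv ?_
      unfold ell
      field_simp
      ring
    have h5 : IntervalIntegrable ell volume 0 u := by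
      refine ContinuousOn.intervalIntegrable ?_
      unfold ell
      refine ContinuousOn.log (by fun_prop) fun t ht => ?_
      rw [Set.uIcc_of_le hu] at ht
      linarith [ht.1]
    rw [intervalIntegral.integral_eq_sub_of_hasDerivAt h2 h5]
    unfold ell
    rw [zero_add, Real.log_exp]
    ring
  have h2 : Tendsto (fun u : ℝ => ell u / u) atTop (𝓝 0) := by
    have h3 : Tendsto (fun u : ℝ => Real.log u / u) atTop (𝓝 0) := by
      have := Real.isLittleO_log_id_atTop.tendsto_div_nhds_zero
      exact this
    have h4 := (ell_sub_log.div_atTop (tendsto_id (α := ℝ) (x := atTop))).add h3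
    rw [add_zero] at h4
    refine h4.congr' ?_
    filter_upwards [eventually_gt_atTop 0] with u hu
    simp only [id]
    field_simp
    ring
  have h3 : Tendsto (fun u : ℝ => 1 + Real.exp 1 / u - Real.exp 1 * (ell u / u)) atTop
      (𝓝 (1 + 0 - Real.exp 1 * 0)) :=
    (tendsto_const_nhds.add (tendsto_const_nhds.div_atTop tendsto_id)).sub (h2.const_mul _)
  rw [mul_zero, sub_zero, add_zero] at h3
  refine h3.congr' ?_
  filter_upwards [eventually_gt_atTop 0] with u hu
  rw [h1 u hu.le]
  field_simp
  ring

/-- **Logarithmic averages.**  If `∑_{n ≤ e^u} c_n = m log u + A + o(1)`, then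
`∑_{n ≤ e^u} c_n log n = m u + o(u)`. -/
theorem stp_log_avg (hc : ∀ n, |c n| ≤ M * bst n) {m A : ℝ}
    (h : Tendsto (fun u : ℝ => stp c u - m * Real.log u) atTop (𝓝 A)) :
    Tendsto (fun u : ℝ => stp (clog c) u / u) atTop (𝓝 m) := by
  have hg : Tendsto (gg c m) atTop (𝓝 A) := by
    have h2 := ell_sub_log.const_mul m
    rw [mul_zero] at h2
    have h3 := h.sub h2
    rw [sub_zero] at h3
    refine h3.congr fun u => ?_
    unfold gg; ring
  have hint : ∀ a b : ℝ, 0 ≤ a → 0 ≤ b → IntervalIntegrable (gg c m) volume a b := by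
    intro a b ha hb
    obtain ⟨B, hB⟩ := gg_loc hc m (max a b)
    rw [intervalIntegrable_iff]
    refine Measure.integrableOn_of_bounded (M := B) ?_ (gg_meas m).aestronglyMeasurable ?_
    · exact (measure_mono uIoc_subset_uIcc).trans_lt isCompact_uIcc.measure_lt_top |>.ne
    · rw [ae_restrict_iff' measurableSet_uIoc]
      refine Eventually.of_forall fun t ht => ?_
      rw [Real.norm_eq_abs]
      rw [Set.mem_uIoc] at ht
      refine hB t ?_ ?_
      · rcases ht with ht | ht <;> linarith [ht.1]
      · rcases ht with ht | ht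
        · exact ht.2.trans (le_max_right _ _)
        · exact ht.2.trans (le_max_left _ _)
  have hint2 : ∀ a b : ℝ, 0 ≤ a → 0 ≤ b → IntervalIntegrable ell volume a b := by
    intro a b ha hb
    refine ContinuousOn.intervalIntegrable ?_
    unfold ell
    refine ContinuousOn.log (by fun_prop) fun t ht => ?_
    have h1 : min a b ≤ t := ht.1
    have h2 : 0 ≤ min a b := le_min ha hb
    have := Real.exp_pos 1
    linarith
  have h1 := (hg.sub (cesaro_tendsto hint hg)).add (ell_mean.const_mul m)
  rw [sub_self, zero_add, mul_one] at h1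
  refine h1.congr' ?_
  filter_upwards [eventually_gt_atTop 0] with u hu
  rw [stp_clog (c_zero hc) hu.le]
  have e1 : ∫ t in (0 : ℝ)..u, stp c t = (∫ t in (0 : ℝ)..u, gg c m t) +
      m * ∫ t in (0 : ℝ)..u, ell t := by
    rw [← intervalIntegral.integral_const_mul, ← intervalIntegral.integral_add
      (hint 0 u le_rfl hu.le) ((hint2 0 u le_rfl hu.le).const_mul m)]
    refine intervalIntegral.integral_congr fun t _ => ?_
    unfold gg
    ring
  rw [e1]
  have e2 : gg c m u = stp c u - m * ell u := rfl
  rw [e2]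
  field_simp
  ring

end Pool.Agent.TH129.EM
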