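import Pool.Agent.TH129.EM.Avg

/-!
# Logarithmic and natural averages over places
-/

set_option autoImplicit false

namespace Pool.Agent.TH129.EM

open Filter Topology Set MeasureTheory
open Pool.Agent.W263.BSD (stp stp_mem stp_meas)

/-- partial summation with weights `1 / n` -/
theorem stp_div {a : ℕ → ℝ} (h0 : a 0 = 0) {u : ℝ} (hu : 0 ≤ u) :
    stp (fun n => a n / n) u = Real.exp (-u) * stp a u + ∫ t in (0 : ℝ)..u, Real.exp (-t) * stp a t := by
  have h1 : ∀ t ∈ Set.uIcc (0 : ℝ) u, Real.exp (-t) * stp a t =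
      ∑ n ∈ Finset.range (⌊Real.exp u⌋₊ + 1),
        a n * (Real.exp (-t) * (if Real.log n ≤ t then (1 : ℝ) else 0)) := by
    intro t ht
    rw [Set.uIcc_of_le hu] at ht
    unfold stp
    have hsub : Finset.range (⌊Real.exp t⌋₊ + 1) ⊆ Finset.range (⌊Real.exp u⌋₊ + 1) := by
      refine Finset.range_subset_range.mpr ?_
      have : ⌊Real.exp t⌋₊ ≤ ⌊Real.exp u⌋₊ := Nat.floor_mono (Real.exp_le_exp.mpr ht.2)
      omega
    rw [← Finset.sum_subset hsub (f := fun n =>
      a n * (Real.exp (-t) * (if Real.log n ≤ t then (1 : ℝ) else 0))), Finset.mul_sum]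
    · refine Finset.sum_congr rfl fun n hn => ?_
      rcases Nat.eq_zero_or_pos n with rfl | hn0
      · rw [h0, zero_mul, mul_zero]
      · rw [if_pos ((stp_mem (by omega) t).mp hn), mul_one, mul_comm]
    · intro n _ hn
      rcases Nat.eq_zero_or_pos n with rfl | hn0
      · rw [h0, zero_mul]
      · rw [if_neg (fun h => hn ((stp_mem (by omega) t).mpr h)), mul_zero, mul_zero]
  have hcont : Continuous fun t : ℝ => Real.exp (-t) := by fun_prop
  have hi : ∀ x b d : ℝ, IntervalIntegrable (fun t : ℝ =>
      Real.exp (-t) * (if x ≤ t then (1 : ℝ) else 0)) volume b d := fun x b d =>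
    (step_int x b d).continuousOn_mul hcont.continuousOn
  rw [intervalIntegral.integral_congr h1, intervalIntegral.integral_finsetSum]
  · unfold stp
    rw [Finset.mul_sum, ← Finset.sum_add_distrib]
    refine Finset.sum_congr rfl fun n hn => ?_
    rcases Nat.eq_zero_or_pos n with rfl | hn0
    · rw [h0]; simp
    · have hn' : (0 : ℝ) < n := by exact_mod_cast hn0
      have hlog : 0 ≤ Real.log n := Real.log_nonneg (by exact_mod_cast hn0)
      have hlu : Real.log n ≤ u := (stp_mem (by omega) u).mp hn
      rw [intervalIntegral.integral_const_mul]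
      have h2 : ∫ t in (0 : ℝ)..u, Real.exp (-t) * (if Real.log n ≤ t then (1 : ℝ) else 0) =
          1 / n - Real.exp (-u) := by
        rw [← intervalIntegral.integral_add_adjacent_intervals (hi _ 0 (Real.log n))
          (hi _ (Real.log n) u)]
        have h5 : ∫ t in (0 : ℝ)..(Real.log n),
            Real.exp (-t) * (if Real.log n ≤ t then (1 : ℝ) else 0) = 0 := by
          rw [intervalIntegral.integral_of_le hlog]
          have h6 : ∀ᵐ t ∂(volume.restrict (Ioc (0 : ℝ) (Real.log n))),
              Real.exp (-t) * (if Real.log n ≤ t then (1 : ℝ) else 0) = 0 := by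
            rw [ae_restrict_iff' measurableSet_Ioc]
            filter_upwards [Measure.ae_ne volume (Real.log n)] with t ht hmem
            rw [if_neg, mul_zero]
            intro hle
            exact ht (le_antisymm hmem.2 hle)
          rw [integral_congr_ae h6, integral_zero]
        have h8 : ∫ t in (Real.log n)..u,
            Real.exp (-t) * (if Real.log n ≤ t then (1 : ℝ) else 0) = 1 / n - Real.exp (-u) := by
          have h9 : ∀ t ∈ Set.uIcc (Real.log n) u,
              Real.exp (-t) * (if Real.log n ≤ t then (1 : ℝ) else 0) = Real.exp (-t) := by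
            intro t ht
            rw [Set.uIcc_of_le hlu] at ht
            rw [if_pos ht.1, mul_one]
          rw [intervalIntegral.integral_congr h9]
          have h10 : ∀ t ∈ Set.uIcc (Real.log n) u,
              HasDerivAt (fun t : ℝ => -Real.exp (-t)) (Real.exp (-t)) t := by
            intro t _
            have h11 : HasDerivAt (fun t : ℝ => Real.exp (-t)) (Real.exp (-t) * (-1)) t :=
              (hasDerivAt_neg t).exp
            exact h11.fun_neg.congr_deriv (by ring)
          rw [intervalIntegral.integral_eq_sub_of_hasDerivAt h10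
            (hcont.intervalIntegrable _ _), Real.exp_neg, Real.exp_neg, Real.exp_log hn']
          rw [one_div]
          ring
        rw [h5, h8, zero_add]
      rw [h2]
      ring
  · intro n _
    exact (hi _ 0 u).const_mul _

/-- **Natural averages give logarithmic averages.** -/
theorem nat_log_avg {a : ℕ → ℝ} (h0 : a 0 = 0) {ρ : ℝ}
    (h : Tendsto (fun u : ℝ => Real.exp (-u) * stp a u) atTop (𝓝 ρ)) :
    Tendsto (fun u : ℝ => stp (fun n => a n / n) u / u) atTop (𝓝 ρ) := by
  have hint : ∀ b d : ℝ, 0 ≤ b → 0 ≤ d →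
      IntervalIntegrable (fun t => Real.exp (-t) * stp a t) volume b d := by
    intro b d hb hd
    have hs : IntervalIntegrable (stp a) volume b d := by
      rw [intervalIntegrable_iff]
      refine Measure.integrableOn_of_bounded
        (M := ∑ n ∈ Finset.range (⌊Real.exp (max b d)⌋₊ + 1), |a n|) ?_
        (stp_meas a).aestronglyMeasurable ?_
      · exact (measure_mono uIoc_subset_uIcc).trans_lt isCompact_uIcc.measure_lt_top |>.ne
      · rw [ae_restrict_iff' measurableSet_uIoc]
        refine Eventually.of_forall fun t ht => ?_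
        rw [Real.norm_eq_abs]
        unfold stp
        refine (Finset.abs_sum_le_sum_abs _ _).trans ?_
        refine Finset.sum_le_sum_of_subset_of_nonneg (Finset.range_subset_range.mpr ?_)
          fun _ _ _ => abs_nonneg _
        have h1 : t ≤ max b d := by
          rw [Set.mem_uIoc] at ht
          rcases ht with ht | ht
          · exact ht.2.trans (le_max_right _ _)
          · exact ht.2.trans (le_max_left _ _)
        have : ⌊Real.exp t⌋₊ ≤ ⌊Real.exp (max b d)⌋₊ := Nat.floor_mono (Real.exp_le_exp.mpr h1)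
        omega
    exact hs.continuousOn_mul (by fun_prop)
  have h1 := cesaro_tendsto hint h
  have h2 : Tendsto (fun u : ℝ => Real.exp (-u) * stp a u / u) atTop (𝓝 0) :=
    h.div_atTop tendsto_id
  have h3 := h2.add h1
  rw [zero_add] at h3
  refine h3.congr' ?_
  filter_upwards [eventually_gt_atTop 0] with u hu
  rw [stp_div h0 hu.le, add_div]

section
variable {I : Type*} {q : I → ℕ} (hq : Places I q)

theorem Places.push_log (c : I → ℝ) (u : ℝ) :
    stp (clog (hq.push c)) u = ∑ i ∈ hq.upTo u, c i * Real.log (q i) := by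
  rw [← hq.push_stp]
  unfold stp
  refine Finset.sum_congr rfl fun n _ => ?_
  unfold clog Places.push
  rw [Finset.sum_mul]
  refine Finset.sum_congr rfl fun i hi => ?_
  have h2 : q i = n := by simpa using hi
  beta_reduce
  rw [h2]

theorem Places.push_div (c : I → ℝ) (u : ℝ) :
    stp (fun n => hq.push c n / n) u = ∑ i ∈ hq.upTo u, c i / q i := by
  rw [← hq.push_stp]
  unfold stp
  refine Finset.sum_congr rfl fun n _ => ?_
  unfold Places.push
  beta_reduce
  rw [Finset.sum_div]
  refine Finset.sum_congr rfl fun i hi => ?_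
  have h2 : q i = n := by simpa using hi
  rw [h2]

/-- sums which agree at almost all places differ by a constant -/
theorem Places.sum_congr_almost {c c' : I → ℝ} (h : ∀ᶠ i in cofinite, c i = c' i) :
    ∃ D : ℝ, ∀ᶠ u : ℝ in atTop, ∑ i ∈ hq.upTo u, c' i = (∑ i ∈ hq.upTo u, c i) + D := by
  classical
  have hfin : {i | ¬ c i = c' i}.Finite := Filter.eventually_cofinite.mp h
  refine ⟨∑ i ∈ hfin.toFinset, (c' i - c i), ?_⟩
  set S := hfin.toFinset with hS
  set u0 : ℝ := Real.log (∑ i ∈ S, (q i : ℝ) + 1) with hu0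
  filter_upwards [eventually_ge_atTop u0] with u hu
  have hsub : S ⊆ hq.upTo u := by
    intro i hi
    rw [hq.mem_upTo]
    have h1 : (q i : ℝ) ≤ ∑ i ∈ S, (q i : ℝ) :=
      Finset.single_le_sum (f := fun i => (q i : ℝ)) (fun _ _ => Nat.cast_nonneg _) hi
    have h2 : 0 < ∑ i ∈ S, (q i : ℝ) + 1 := by
      have : 0 ≤ ∑ i ∈ S, (q i : ℝ) := Finset.sum_nonneg fun _ _ => Nat.cast_nonneg _
      linarith
    have h3 : ∑ i ∈ S, (q i : ℝ) + 1 ≤ Real.exp u := by
      rw [← Real.log_le_iff_le_exp h2]
      exact hu
    linarith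
  have h1 : ∑ i ∈ S, (c' i - c i) = ∑ i ∈ hq.upTo u, (c' i - c i) := by
    refine Finset.sum_subset hsub fun i _ hi => ?_
    have : c i = c' i := by
      by_contra h2
      exact hi (by rw [hS]; simpa using h2)
    rw [this, sub_self]
  rw [h1, Finset.sum_sub_distrib]
  ring

/-- the averages do not change if finitely many terms are changed -/
theorem Places.avg_congr {c c' : I → ℝ} (h : ∀ᶠ i in cofinite, c i = c' i) {ρ : ℝ}
    (h1 : Tendsto (fun u : ℝ => (∑ i ∈ hq.upTo u, c i) / u) atTop (𝓝 ρ)) :
    Tendsto (fun u : ℝ => (∑ i ∈ hq.upTo u, c' i) / u) atTop (𝓝 ρ) := by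
  obtain ⟨D, hD⟩ := hq.sum_congr_almost h
  have h2 := h1.add ((tendsto_const_nhds (x := D)).div_atTop (tendsto_id (α := ℝ) (x := atTop)))
  rw [add_zero] at h2
  refine h2.congr' ?_
  filter_upwards [hD] with u hu
  rw [hu, add_div]
  rfl

end

section
variable {I : Type*} {q : I → ℕ} {f : I → ℝ → ℝ} {c : I → ℝ}

/-- **Logarithmic averages from the order at the edge.** -/
theorem SEdge.log_avg (h : SEdge I q f c) {m A : ℝ} (hA : A ≠ 0)
    (hlim : Tendsto (fun ε : ℝ => ε ^ m * ∏' i, f i ε) (𝓝[>] 0) (𝓝 A)) :
    Tendsto (fun u : ℝ => (∑ i ∈ h.places.upTo u, c i * Real.log (q i)) / u) atTop (𝓝 m) := by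
  obtain ⟨M', hM'⟩ := h.edge.push_bound
  have h1 : Tendsto (fun ε : ℝ => Real.log |∏' i, f i ε| + m * Real.log ε) (𝓝[>] 0)
      (𝓝 (Real.log |A|)) := by
    refine ((hlim.abs).log (abs_pos.mpr hA).ne').congr' ?_
    filter_upwards [self_mem_nhdsWithin, h.ne_zero] with ε hε hL
    have hε0 : (0 : ℝ) < ε := hε
    have h3 : 0 < ε ^ m := Real.rpow_pos_of_pos hε0 m
    rw [abs_mul, abs_of_pos h3, Real.log_mul h3.ne' (abs_pos.mpr hL).ne', Real.log_rpow hε0]
    ring
  have h2 := (h.edge.log_iff m (Real.log |A|)).mp h1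
  have h3 := h.edge.remainder_sum
  have h4 := h2.sub h3
  have h5 : Tendsto (fun u : ℝ => stp (h.places.push c) u - m * Real.log u) atTop
      (𝓝 (Real.log |A| + m * Real.eulerMascheroniConstant - ∑' i, (Real.log |f i 0| - c i))) := by
    refine h4.congr fun u => ?_
    rw [h.places.push_stp, Finset.sum_sub_distrib]
    ring
  have h6 := stp_log_avg hM' h5
  refine h6.congr fun u => ?_
  rw [h.places.push_log]

end

end Pool.Agent.TH129.EM
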