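import Mathlib

/-!
# Varieties over number fields: numbers of points, Frobenius eigenvalues, Euler factors
-/

set_option autoImplicit false

namespace Pool.Agent.TH129.EM

open Filter Topology NumberField IsDedekindDomain Polynomial
open scoped LinearAlgebra.Projectivization

/-- The set `X` of homogeneous polynomials over a ring `R` in `n` variables defines a projective
scheme over `R`.  For a field `κ` and a homomorphism `R → κ` this is the number of the points of `X`
with coordinates in `κ`: the number of the points of the projective space over `κ` at which the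
polynomials vanish. -/
noncomputable def points {n : ℕ} {R : Type} [CommRing R] (X : Set (MvPolynomial (Fin n) R))
    {κ : Type} [Field κ] (φ : R →+* κ) : ℕ :=
  Nat.card {P : ℙ κ (Fin n → κ) // ∀ f ∈ X, MvPolynomial.eval₂ φ P.rep f = 0}

variable {n : ℕ} {K : Type} [Field K] [NumberField K]

/-- the norm `q_v` of the prime `v` -/
noncomputable def norm (v : HeightOneSpectrum (𝓞 K)) : ℝ := (Ideal.absNorm v.asIdeal : ℝ)

/-- `β_k` is the multiset of the eigenvalues of the geometric Frobenius at the prime `v` of `K` on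
`H^k(X)`, `k = 0, …, 2d`, for a smooth projective variety `X` of dimension `d`: the `β_k` are finite
multisets of complex numbers of absolute value `q_v^{k/2}`, and for every finite extension `κ` of the
residue field of `v`, of degree `e`, the number of the points of `X` with coordinates in `κ` is
`∑ (-1)^k ∑_{z ∈ β_k} z^e`.  By the theorem of Deligne such `β_k` exist at almost all primes; for
`k ≤ 2d` they are unique. -/
def IsFrobenius (X : Set (MvPolynomial (Fin n) (𝓞 K))) (d : ℕ)
    (v : HeightOneSpectrum (𝓞 K)) (β : ℕ → Multiset ℂ) : Prop :=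
  (∀ k, ∀ z ∈ β k, ‖z‖ = norm v ^ ((k : ℝ) / 2)) ∧
    ∀ (κ : Type) [Field κ] [Finite κ] (φ : 𝓞 K →+* κ) (e : ℕ), RingHom.ker φ = v.asIdeal →
      Nat.card κ = Ideal.absNorm v.asIdeal ^ e →
      (points X φ : ℂ) = ∑ k ∈ Finset.range (2 * d + 1), (-1 : ℂ) ^ k *
        ((β k).map (fun z => z ^ e)).sum

/-- The real polynomials `B v` are the Euler factors of `L(H^i(X), s)`, where `N` is the `i`-th Betti
number of `X`: for almost all primes `v` of `K`, `B_v(z) = ∏ (1 - α z)` for the eigenvalues `α` of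
Frobenius on `H^i(X)`; at the other primes `B v` is an arbitrary real polynomial; and no factor
`1 / B_v(q_v^{-s})` has a pole at the edge `s = i/2 + 1`. -/
structure IsEulerSystem (X : Set (MvPolynomial (Fin n) (𝓞 K))) (d i N : ℕ)
    (B : HeightOneSpectrum (𝓞 K) → ℝ[X]) : Prop where
  good : ∀ᶠ v in cofinite, ∃ β : ℕ → Multiset ℂ, IsFrobenius X d v β ∧ (β i).card = N ∧
    ∀ z : ℂ, ((B v).map (algebraMap ℝ ℂ)).eval z = ((β i).map fun α => 1 - α * z).prod
  edge : ∀ v, (B v).eval (norm v ^ (-((i : ℝ) / 2 + 1))) ≠ 0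

/-- `L(s) = ∏_v B_v(q_v^{-s})⁻¹` for real `s`. -/
noncomputable def LFun (B : HeightOneSpectrum (𝓞 K) → ℝ[X]) (s : ℝ) : ℝ :=
  ∏' v, ((B v).eval (norm v ^ (-s)))⁻¹

/-- The finite product of the factors with `q_v ≤ x`, at the point `s`. -/
noncomputable def partialProduct (B : HeightOneSpectrum (𝓞 K) → ℝ[X]) (s x : ℝ) : ℝ :=
  ∏ᶠ v ∈ {v : HeightOneSpectrum (𝓞 K) | norm v ≤ x}, ((B v).eval (norm v ^ (-s)))⁻¹

/-- The number `#X(k_v)` of the points of `X` over the residue field of `v`. -/
noncomputable def residuePoints (X : Set (MvPolynomial (Fin n) (𝓞 K)))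
    (v : HeightOneSpectrum (𝓞 K)) : ℕ :=
  letI : Field (𝓞 K ⧸ v.asIdeal) := Ideal.Quotient.field v.asIdeal
  points X (Ideal.Quotient.mk v.asIdeal)

/-- `β_k` is the multiset of the eigenvalues of the geometric Frobenius at `v` on `H^k(X)`, for a
smooth, projective and geometrically connected variety `X` of dimension `d` with Betti numbers at most
`N`: `β_0 = {1}`, and `β_{2d-k} = q_v^d / β_k` (Poincaré duality). -/
def IsConnectedFrobenius (X : Set (MvPolynomial (Fin n) (𝓞 K))) (d N : ℕ)
    (v : HeightOneSpectrum (𝓞 K)) (β : ℕ → Multiset ℂ) : Prop :=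
  IsFrobenius X d v β ∧ β 0 = {1} ∧ (∀ k, (β k).card ≤ N) ∧
    ∀ k ≤ 2 * d, β (2 * d - k) = (β k).map fun z => ((norm v ^ d : ℝ) : ℂ) / z

/-- `X` is a smooth, projective and geometrically connected variety of dimension `d`, with Betti
numbers at most `N` and `b_1(X) = 0`, and `B v` are the Euler factors of `L(H^2(X), s)`: for almost
all primes `v`, `B_v(z) = ∏ (1 - α z)` for the eigenvalues `α` of Frobenius on `H^2(X)`; at the other
primes `B v` is an arbitrary real polynomial without zero at `q_v^{-2}`. -/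
structure IsRegularSystem (X : Set (MvPolynomial (Fin n) (𝓞 K))) (d N : ℕ)
    (B : HeightOneSpectrum (𝓞 K) → ℝ[X]) : Prop where
  good : ∀ᶠ v in cofinite, ∃ β : ℕ → Multiset ℂ, IsConnectedFrobenius X d N v β ∧ β 1 = 0 ∧
    ∀ z : ℂ, ((B v).map (algebraMap ℝ ℂ)).eval z = ((β 2).map fun α => 1 - α * z).prod
  edge : ∀ v, (B v).eval (norm v ^ (-2 : ℝ)) ≠ 0

/-- `X` is a smooth, projective and geometrically connected variety of dimension `d`, with Betti
numbers at most `N`, `Y` is its Albanese variety, of dimension `g`, and `B v`, `B' v` are the Euler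
factors of `L(H^2(X), s)` and `L(H^2(Y), s)`.  For almost all primes `v`: `β_1` has `2g` elements and
`∏_{α ∈ β_1} (1 - α z)` is real; `#Y(k_v) = ∏_{α ∈ β_1} (1 - α)`, as `H^1(Y) = H^1(X)`;
`B_v(z) = ∏_{α ∈ β_2} (1 - α z)`; `B'_v(z) = ∏ (1 - α α' z)` over the pairs `{α, α'}` in `β_1`, as
`H^2(Y)` is the exterior square of `H^1(Y)`.  At the other primes `B v`, `B' v` are arbitrary real
polynomials without zero at `q_v^{-2}`. -/
structure IsAlbaneseSystem {n' : ℕ} (X : Set (MvPolynomial (Fin n) (𝓞 K)))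
    (Y : Set (MvPolynomial (Fin n') (𝓞 K))) (d g N : ℕ)
    (B B' : HeightOneSpectrum (𝓞 K) → ℝ[X]) : Prop where
  good : ∀ᶠ v in cofinite, ∃ β : ℕ → Multiset ℂ, IsConnectedFrobenius X d N v β ∧
    (β 1).card = 2 * g ∧
    (∃ P : ℝ[X], ∀ z : ℂ, (P.map (algebraMap ℝ ℂ)).eval z = ((β 1).map fun α => 1 - α * z).prod) ∧
    (residuePoints Y v : ℂ) = ((β 1).map fun α => 1 - α).prod ∧
    (∀ z : ℂ, ((B v).map (algebraMap ℝ ℂ)).eval z = ((β 2).map fun α => 1 - α * z).prod) ∧
    ∀ z : ℂ, ((B' v).map (algebraMap ℝ ℂ)).eval z =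
      (((β 1).powersetCard 2).map fun p => 1 - p.prod * z).prod
  edge : ∀ v, (B v).eval (norm v ^ (-2 : ℝ)) ≠ 0 ∧ (B' v).eval (norm v ^ (-2 : ℝ)) ≠ 0

/-- `∏ #X(k_v) / q_v^d` over the primes with `q_v ≤ x` and `X(k_v)` not empty. -/
noncomputable def pointProduct (X : Set (MvPolynomial (Fin n) (𝓞 K))) (d : ℕ) (x : ℝ) : ℝ :=
  ∏ᶠ v ∈ {v : HeightOneSpectrum (𝓞 K) | norm v ≤ x ∧ residuePoints X v ≠ 0},
    (residuePoints X v : ℝ) / norm v ^ d

end Pool.Agent.TH129.EM
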