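import Pool.Agent.TH129.EM.DivDefs

/-!
# Artin induction for the functions which are constant on divisions
-/

set_option autoImplicit false

namespace Pool.Agent.TH129.EM

section
variable {Q : Type*} [Group Q]

/-- the number of the cosets of `C` fixed by `x` -/
noncomputable def pcf (C : Subgroup Q) (x : Q) : ℝ := Nat.card {y : Q ⧸ C // x • y = y}

theorem zpowers_conj (g x : Q) : Subgroup.zpowers (g * x * g⁻¹) =
    (Subgroup.zpowers x).map (MulAut.conj g).toMonoidHom := by
  rw [MonoidHom.map_zpowers]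
  rfl

theorem SameDivision.refl (x : Q) : SameDivision x x := ⟨1, by simp⟩

theorem SameDivision.symm {x y : Q} (h : SameDivision x y) : SameDivision y x := by
  obtain ⟨g, hg⟩ := h
  refine ⟨g⁻¹, ?_⟩
  rw [zpowers_conj, ← hg, zpowers_conj, Subgroup.map_map]
  have h1 : (MulAut.conj g⁻¹).toMonoidHom.comp (MulAut.conj g).toMonoidHom = MonoidHom.id Q := by
    ext z
    simp [MulAut.conj_apply, mul_assoc]
  rw [h1, Subgroup.map_id]

theorem SameDivision.trans {x y z : Q} (h : SameDivision x y) (h' : SameDivision y z) :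
    SameDivision x z := by
  obtain ⟨g, hg⟩ := h
  obtain ⟨g', hg'⟩ := h'
  refine ⟨g' * g, ?_⟩
  rw [← hg', zpowers_conj g' y, ← hg, zpowers_conj g x, zpowers_conj, Subgroup.map_map]
  congr 1
  ext w
  simp [MulAut.conj_apply, mul_assoc]

/-- the divisions -/
def divSetoid (Q : Type*) [Group Q] : Setoid Q where
  r := SameDivision
  iseqv := ⟨SameDivision.refl, SameDivision.symm, SameDivision.trans⟩

theorem pcf_div (C : Subgroup Q) {x y : Q} (h : SameDivision x y) : pcf C x = pcf C y := by
  obtain ⟨g, hg⟩ := h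
  unfold pcf
  have hx : g * x * g⁻¹ ∈ Subgroup.zpowers y := by
    rw [← hg]; exact Subgroup.mem_zpowers _
  have hy : y ∈ Subgroup.zpowers (g * x * g⁻¹) := by
    rw [hg]; exact Subgroup.mem_zpowers _
  congr 1
  refine Nat.card_congr (Equiv.subtypeEquiv (MulAction.toPerm g) fun z => ?_)
  rw [MulAction.toPerm_apply]
  have h1 : x • z = z ↔ (g * x * g⁻¹) • g • z = g • z := by
    rw [smul_smul, inv_mul_cancel_right, mul_smul]
    exact (smul_left_cancel_iff g).symm
  have hz : ∀ a b : Q, a ∈ Subgroup.zpowers b → ∀ w : Q ⧸ C, b • w = w → a • w = w := by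
    intro a b ha w hw
    have h2 : b ∈ MulAction.stabilizer Q w := hw
    exact (Subgroup.zpowers_le.mpr h2) ha
  rw [h1]
  exact ⟨hz _ _ hy _, hz _ _ hx _⟩

theorem exists_of_pcf_ne {C : Subgroup Q} {x : Q} (h : pcf C x ≠ 0) : ∃ g : Q, g⁻¹ * x * g ∈ C := by
  unfold pcf at h
  have h1 : Nat.card {y : Q ⧸ C // x • y = y} ≠ 0 := by exact_mod_cast h
  have h2 : Nonempty {y : Q ⧸ C // x • y = y} := by
    by_contra h3
    rw [not_nonempty_iff] at h3
    exact h1 Nat.card_of_isEmpty
  obtain ⟨y, hy⟩ := h2
  obtain ⟨g, rfl⟩ := QuotientGroup.mk_surjective y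
  refine ⟨g, ?_⟩
  have h4 : (QuotientGroup.mk (x * g) : Q ⧸ C) = QuotientGroup.mk g := hy
  have h5 := QuotientGroup.eq.mp h4.symm
  rwa [← mul_assoc] at h5

theorem pcf_self [Finite Q] (x : Q) : pcf (Subgroup.zpowers x) x ≠ 0 := by
  unfold pcf
  have h1 : Nonempty {y : Q ⧸ Subgroup.zpowers x // x • y = y} := by
    refine ⟨⟨QuotientGroup.mk 1, ?_⟩⟩
    change (QuotientGroup.mk (x * 1) : Q ⧸ Subgroup.zpowers x) = QuotientGroup.mk 1
    rw [mul_one, eq_comm, QuotientGroup.eq, inv_one, one_mul]
    exact Subgroup.mem_zpowers x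
  have h2 : Nat.card {y : Q ⧸ Subgroup.zpowers x // x • y = y} ≠ 0 := Nat.card_ne_zero.mpr
    ⟨h1, inferInstance⟩
  exact_mod_cast h2

theorem order_of_pcf_ne [Finite Q] {c x : Q} (h : pcf (Subgroup.zpowers c) x ≠ 0) :
    orderOf x ≤ orderOf c ∧ (orderOf x = orderOf c → SameDivision x c) := by
  obtain ⟨g, hg⟩ := exists_of_pcf_ne h
  have h1 : Subgroup.zpowers (g⁻¹ * x * g) ≤ Subgroup.zpowers c := Subgroup.zpowers_le.mpr hg
  have h2 : Nat.card (Subgroup.zpowers (g⁻¹ * x * g)) = orderOf x := by
    have h3 := zpowers_conj g⁻¹ x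
    rw [inv_inv] at h3
    rw [h3, Nat.card_congr ((Subgroup.zpowers x).equivMapOfInjective _
      (MulAut.conj g⁻¹).injective).toEquiv.symm, Nat.card_zpowers]
  have h4 : Nat.card (Subgroup.zpowers c) = orderOf c := Nat.card_zpowers c
  refine ⟨?_, fun h5 => ⟨g⁻¹, ?_⟩⟩
  · rw [← h2, ← h4]
    exact Nat.card_le_card_of_injective _ (Subgroup.inclusion_injective h1)
  · rw [inv_inv]
    refine Subgroup.eq_of_le_of_card_ge h1 ?_
    rw [h2, h4, h5]

/-- **Artin induction.** A real function on a finite group which is constant on divisions is a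
linear combination of the characters of the permutations of the cosets of cyclic subgroups. -/
theorem artin_induction [Fintype Q] {f : Q → ℝ} (hf : IsDivisionFunction f) :
    ∃ a : Q → ℝ, ∀ x, f x = ∑ c : Q, a c * pcf (Subgroup.zpowers c) x := by
  classical
  suffices h : ∀ n : ℕ, ∀ f : Q → ℝ, (∀ x y, SameDivision x y → f x = f y) →
      (∀ x, n ≤ orderOf x → f x = 0) →
      ∃ a : Q → ℝ, ∀ x, f x = ∑ c : Q, a c * pcf (Subgroup.zpowers c) x by
    refine h (Fintype.card Q + 1) f hf fun x hx => ?_
    have h1 : orderOf x ≤ Fintype.card Q := orderOf_le_card_univ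
    omega
  intro n
  induction n with
  | zero =>
    intro f _ h0
    refine ⟨fun _ => 0, fun x => ?_⟩
    rw [h0 x (Nat.zero_le _)]
    simp
  | succ n ih =>
    intro f hf h0
    let _ : Setoid Q := divSetoid Q
    set rep : Q → Q := fun x => (Quotient.mk (divSetoid Q) x).out with hrep
    have hr : ∀ x, SameDivision (rep x) x := fun x => Quotient.mk_out (s := divSetoid Q) x
    have hr2 : ∀ x y, SameDivision x y → rep x = rep y := by
      intro x y hxy
      have h1 : Quotient.mk (divSetoid Q) x = Quotient.mk (divSetoid Q) y := Quotient.sound hxy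
      simp only [hrep]
      rw [h1]
    set a0 : Q → ℝ := fun c => if orderOf c = n ∧ rep c = c then
      f c / pcf (Subgroup.zpowers c) c else 0 with ha0
    set g : Q → ℝ := fun x => ∑ c : Q, a0 c * pcf (Subgroup.zpowers c) x with hg
    have hord : ∀ x y : Q, SameDivision x y → orderOf x = orderOf y := by
      rintro x y ⟨u, hu⟩
      rw [← Nat.card_zpowers x, ← Nat.card_zpowers y, ← hu, zpowers_conj,
        Nat.card_congr ((Subgroup.zpowers x).equivMapOfInjective _
          (MulAut.conj u).injective).toEquiv.symm]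
    have hgx : ∀ x, n ≤ orderOf x → f x = g x := by
      intro x hx
      rcases Nat.lt_or_ge n (orderOf x) with h1 | h1
      · rw [h0 x (by omega), hg]
        refine (Finset.sum_eq_zero fun c _ => ?_).symm
        by_cases h2 : pcf (Subgroup.zpowers c) x = 0
        · rw [h2, mul_zero]
        · have h3 := (order_of_pcf_ne h2).1
          simp only [ha0]
          rw [if_neg (by rintro ⟨h4, -⟩; omega), zero_mul]
      · have hx' : orderOf x = n := le_antisymm h1 hx
        have h2 : g x = a0 (rep x) * pcf (Subgroup.zpowers (rep x)) x := by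
          rw [hg]
          refine Finset.sum_eq_single (rep x) (fun c _ hc => ?_) fun h => absurd (Finset.mem_univ _) h
          by_cases h3 : pcf (Subgroup.zpowers c) x = 0
          · rw [h3, mul_zero]
          · simp only [ha0]
            rw [if_neg, zero_mul]
            rintro ⟨h4, h5⟩
            have h6 := (order_of_pcf_ne h3).2 (by rw [h4, hx'])
            exact hc (by rw [← h5, hr2 _ _ h6])
        have h3 : a0 (rep x) = f x / pcf (Subgroup.zpowers (rep x)) x := by
          simp only [ha0]
          rw [if_pos ⟨by rw [hord _ _ (hr x), hx'], hr2 _ _ (hr x)⟩, hf _ _ (hr x),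
            pcf_div _ (hr x)]
        have h4 : pcf (Subgroup.zpowers (rep x)) x ≠ 0 := by
          rw [← pcf_div _ (hr x)]
          exact pcf_self _
        rw [h2, h3, div_mul_cancel₀ _ h4]
    obtain ⟨a1, ha1⟩ := ih (fun x => f x - g x) (fun x y hxy => by
      have h1 : g x = g y := by
        simp only [hg]
        exact Finset.sum_congr rfl fun c _ => by rw [pcf_div _ hxy]
      rw [hf x y hxy, h1]) fun x hx => by
        rw [hgx x hx, sub_self]
    refine ⟨fun c => a0 c + a1 c, fun x => ?_⟩
    have h1 := ha1 x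
    have h2 : ∑ c : Q, (a0 c + a1 c) * pcf (Subgroup.zpowers c) x =
        g x + ∑ c : Q, a1 c * pcf (Subgroup.zpowers c) x := by
      rw [hg]
      rw [← Finset.sum_add_distrib]
      exact Finset.sum_congr rfl fun c _ => by ring
    rw [h2, ← h1]
    ring

end

end Pool.Agent.TH129.EM
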