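import Pool.Agent.TH129.EM.Div1
import Pool.Agent.W353.SP.NMain
import Pool.Agent.W353.TD.Rep

/-!
# Subfields of a finite Galois extension and fixed embeddings
-/

set_option autoImplicit false

namespace Pool.Agent.TH129.EM

open NumberField
open Pool.Agent.W401.Cheb (GK)
open Pool.Agent.W353.NF (act act_apply act_trans fixn)

section
variable {K : Type} [Field K]

/-- every subgroup belongs to a field -/
theorem exists_field (M : IntermediateField K (AlgebraicClosure K)) [FiniteDimensional K M]
    (H : Subgroup (M ≃ₐ[K] M)) : ∃ F : IntermediateField K (AlgebraicClosure K), F ≤ M ∧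
      galSub M F = H := by
  refine ⟨IntermediateField.lift (IntermediateField.fixedField H), IntermediateField.lift_le _, ?_⟩
  ext g
  have h1 : g ∈ H ↔ g ∈ (IntermediateField.fixedField H).fixingSubgroup := by
    rw [IntermediateField.fixingSubgroup_fixedField]
  rw [h1, IntermediateField.mem_fixingSubgroup_iff]
  constructor
  · intro h x hx
    exact h x ((IntermediateField.mem_lift x).mpr hx)
  · intro h x hx
    exact h x ((IntermediateField.mem_lift x).mp hx)

variable [NumberField K]

/-- the embedding given by an element of the Galois group -/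
noncomputable def embOf (M F : IntermediateField K (AlgebraicClosure K)) (h : F ≤ M)
    (g : M ≃ₐ[K] M) : F →ₐ[K] AlgebraicClosure K :=
  (M.val.comp (g : M →ₐ[K] M)).comp (IntermediateField.inclusion h)

theorem embOf_apply {M F : IntermediateField K (AlgebraicClosure K)} (h : F ≤ M)
    (g : M ≃ₐ[K] M) (x : F) : embOf M F h g x = (g ⟨x, h x.2⟩ : M) := rfl

theorem embOf_eq_iff {M F : IntermediateField K (AlgebraicClosure K)} (h : F ≤ M)
    (g g' : M ≃ₐ[K] M) : embOf M F h g = embOf M F h g' ↔ g⁻¹ * g' ∈ galSub M F := by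
  constructor
  · intro h1 x hx
    have h2 := DFunLike.congr_fun h1 (⟨x, hx⟩ : F)
    rw [embOf_apply, embOf_apply] at h2
    have h3 : g x = g' x := Subtype.ext h2
    rw [AlgEquiv.mul_apply, ← h3]
    exact g.symm_apply_apply x
  · intro h1
    refine AlgHom.ext fun x => ?_
    rw [embOf_apply, embOf_apply]
    have h2 : (g⁻¹ * g') ⟨x, h x.2⟩ = (⟨x, h x.2⟩ : M) := h1 _ x.2
    congr 1
    rw [AlgEquiv.mul_apply] at h2
    have h3 := congrArg g h2
    have h4 : g (g⁻¹ (g' ⟨x, h x.2⟩)) = g' ⟨x, h x.2⟩ := g.apply_symm_apply _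
    rw [h4] at h3
    exact h3.symm

theorem embOf_res {M F : IntermediateField K (AlgebraicClosure K)} (h : F ≤ M) [Normal K M]
    (σ : GK K) (g : M ≃ₐ[K] M) :
    embOf M F h (AlgEquiv.restrictNormal σ M * g) =
      (σ : AlgebraicClosure K →ₐ[K] AlgebraicClosure K).comp (embOf M F h g) := by
  refine AlgHom.ext fun x => ?_
  rw [embOf_apply, AlgEquiv.mul_apply]
  exact AlgEquiv.restrictNormal_commutes σ M _

theorem embOf_surj {M F : IntermediateField K (AlgebraicClosure K)} (h : F ≤ M) [Normal K M]
    [NumberField F] (i : F →ₐ[K] AlgebraicClosure K) : ∃ g, embOf M F h g = i := by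
  obtain ⟨σ, hσ⟩ := act_trans K F F.val i
  refine ⟨AlgEquiv.restrictNormal σ M * 1, ?_⟩
  rw [embOf_res, ← hσ, act_apply]
  rfl

/-- **Fixed embeddings and fixed cosets.** -/
theorem fixn_eq_pcf {M F : IntermediateField K (AlgebraicClosure K)} (h : F ≤ M) [Normal K M]
    [NumberField F] (σ : GK K) :
    (fixn K F σ : ℝ) = pcf (galSub M F) (AlgEquiv.restrictNormal σ M) := by
  unfold fixn pcf
  congr 1
  set H := galSub M F with hH
  set φ : (M ≃ₐ[K] M) ⧸ H → (F →ₐ[K] AlgebraicClosure K) :=
    Quotient.lift (embOf M F h) (fun a b hab => by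
      rw [embOf_eq_iff]
      exact QuotientGroup.leftRel_apply.mp hab) with hφ
  have hφm : ∀ g, φ (QuotientGroup.mk g) = embOf M F h g := fun g => rfl
  have hbij : Function.Bijective φ := by
    constructor
    · intro a b hab
      obtain ⟨a, rfl⟩ := QuotientGroup.mk_surjective a
      obtain ⟨b, rfl⟩ := QuotientGroup.mk_surjective b
      rw [hφm, hφm, embOf_eq_iff] at hab
      exact QuotientGroup.eq.mpr hab
    · intro i
      obtain ⟨g, hg⟩ := embOf_surj h i
      exact ⟨QuotientGroup.mk g, hg⟩
  have heq : ∀ y, φ (AlgEquiv.restrictNormal σ M • y) =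
      (σ : AlgebraicClosure K →ₐ[K] AlgebraicClosure K).comp (φ y) := by
    intro y
    obtain ⟨g, rfl⟩ := QuotientGroup.mk_surjective y
    exact embOf_res h σ g
  refine (Nat.card_congr (Equiv.subtypeEquiv (Equiv.ofBijective φ hbij) fun y => ?_)).symm
  rw [Equiv.ofBijective_apply, act_apply, ← heq]
  exact hbij.1.eq_iff.symm

end

end Pool.Agent.TH129.EM
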