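import Pool.Agent.TH129.EM.Nag3
import Pool.Agent.W353.SP.NMain

/-!
# The Euler product of a variety over an extension field at the edge
-/

set_option autoImplicit false

namespace Pool.Agent.TH129.EM

open Filter Topology Set Polynomial NumberField IsDedekindDomain
open Pool.Agent.W263.BSD (stp)
open Pool.Agent.W353.EF (HasOrder)
open Pool.Agent.W353.PV (tF Eig alp pick_spec)
open Pool.Agent.W353.L1 (tr_eq abs_tr_le)

section
variable {I : Type*} {q : I → ℕ} {E : I → ℝ → ℝ} {L : ℝ → ℝ} {c : I → ℝ}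

/-- logarithmic averages from the order at the edge -/
theorem Edge.log_avg (h : Edge I q E L c) {m A : ℝ}
    (h1 : Tendsto (fun ε : ℝ => Real.log (L ε) + m * Real.log ε) (𝓝[>] 0) (𝓝 A)) :
    Tendsto (fun u : ℝ => (∑ i ∈ h.places.upTo u, c i * Real.log (q i)) / u) atTop (𝓝 m) := by
  obtain ⟨M', hM'⟩ := h.push_bound
  have h2 := (h.log_iff m A).mp h1
  have h3 := h.remainder_sum
  have h4 := h2.sub h3
  have h5 : Tendsto (fun u : ℝ => stp (h.places.push c) u - m * Real.log u) atTop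
      (𝓝 (A + m * Real.eulerMascheroniConstant - ∑' i, (Real.log (E i 0) - c i))) := by
    refine h4.congr fun u => ?_
    rw [h.places.push_stp, Finset.sum_sub_distrib]
    ring
  have h6 := stp_log_avg hM' h5
  refine h6.congr fun u => ?_
  rw [h.places.push_log]

end

/-- the local factor at a good place -/
theorem loc_complex {q : ℕ} (hq : 2 ≤ q) {N : ℕ} {α : Fin N → ℂ} {w : ℝ}
    (hα : ∀ j, ‖α j‖ = (q : ℝ) ^ w) {t : ℝ} (ht : (t : ℂ) = (∑ j, α j) * (q : ℂ) ^ (-(w : ℂ)))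
    {ε : ℝ} (hε : 0 ≤ ε) :
    (∀ j, ‖α j * (q : ℂ) ^ (-((w : ℂ) + 1 + ε))‖ = (q : ℝ) ^ (-(1 + ε))) ∧
    ∏ j, (1 - α j * (q : ℂ) ^ (-((w : ℂ) + 1 + ε))) ≠ 0 ∧
    |Real.log ‖∏ j, (1 - α j * (q : ℂ) ^ (-((w : ℂ) + 1 + ε)))‖⁻¹ - t / q * (q : ℝ) ^ (-ε)| ≤
      N * (q : ℝ) ^ (-2 : ℝ) := by
  have hq2 : (2 : ℝ) ≤ q := by exact_mod_cast hq
  have hq0 : (0 : ℝ) < q := by linarith
  have hqC : (q : ℂ) ≠ 0 := by
    have : (q : ℝ) ≠ 0 := hq0.ne'
    exact_mod_cast this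
  set z : ℂ := (q : ℂ) ^ (-((w : ℂ) + 1 + ε)) with hz
  have hzn : ‖z‖ = (q : ℝ) ^ (-(w + 1 + ε)) := by
    rw [hz, Complex.norm_natCast_cpow_of_pos (by omega)]
    simp
  have h1 : ∀ j, ‖α j * z‖ = (q : ℝ) ^ (-(1 + ε)) := by
    intro j
    rw [norm_mul, hα, hzn, ← Real.rpow_add hq0]
    congr 1
    ring
  have hle : (q : ℝ) ^ (-(1 + ε)) ≤ (q : ℝ) ^ (-1 : ℝ) :=
    Real.rpow_le_rpow_of_exponent_le (by linarith) (by linarith)
  have hr : (q : ℝ) ^ (-1 : ℝ) ≤ 1 / 2 := by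
    rw [Real.rpow_neg_one, one_div]
    exact inv_anti₀ (by norm_num) hq2
  set s : Multiset ℂ := Finset.univ.val.map (fun j => α j * z) with hs
  obtain ⟨h2, h3⟩ := ms_log s hr (fun x hx => by
    obtain ⟨j, -, rfl⟩ := Multiset.mem_map.mp hx
    rw [h1 j]
    exact hle)
  have h4 : (s.map fun x => 1 - x).prod = ∏ j, (1 - α j * z) := by
    rw [hs, Multiset.map_map]
    rfl
  have h5 : s.sum = ((t / q * (q : ℝ) ^ (-ε) : ℝ) : ℂ) := by
    have e1 : s.sum = (∑ j, α j) * z := by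
      rw [hs, Finset.sum_mul]
      rfl
    have e2 : z = (q : ℂ) ^ (-(w : ℂ)) * ((q : ℂ) ^ (-(1 : ℂ)) * (q : ℂ) ^ (-(ε : ℂ))) := by
      rw [hz, ← Complex.cpow_add _ _ hqC, ← Complex.cpow_add _ _ hqC]
      congr 1
      ring
    rw [e1, e2, ← mul_assoc, ← ht, Complex.cpow_neg, Complex.cpow_one]
    push_cast
    rw [Complex.ofReal_cpow hq0.le]
    push_cast
    rw [div_eq_mul_inv, mul_assoc]
  have h6 : s.card = N := by
    rw [hs, Multiset.card_map]
    exact Finset.card_fin N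
  have h7 : ((q : ℝ) ^ (-1 : ℝ)) ^ 2 = (q : ℝ) ^ (-2 : ℝ) := by
    rw [← Real.rpow_natCast, ← Real.rpow_mul hq0.le]
    norm_num
  rw [h4, h5, Complex.ofReal_re, h6, h7] at h3
  rw [h4] at h2
  refine ⟨h1, h2, ?_⟩
  rw [Real.log_inv]
  exact h3

/-- the local factors are close to `1` -/
theorem inv_prod_sub_one {N : ℕ} {w : Fin N → ℂ} {r : ℝ} (hr2 : r ≤ 1 / 2) (h : ∀ j, ‖w j‖ = r) :
    ‖(∏ j, (1 - w j))⁻¹ - 1‖ ≤ 2 * N * Real.exp (2 * N) * r := by
  rcases isEmpty_or_nonempty (Fin N) with h0 | ⟨⟨j0⟩⟩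
  · have : N = 0 := by
      by_contra hN
      exact h0.false ⟨0, Nat.pos_of_ne_zero hN⟩
    subst this
    simp
  have hr0 : 0 ≤ r := by rw [← h j0]; exact norm_nonneg _
  have h1 : ∀ j, ‖(1 - w j)⁻¹ - 1‖ ≤ 2 * r := by
    intro j
    have hne : 1 / 2 ≤ ‖1 - w j‖ := by
      have h2 := norm_sub_norm_le (1 : ℂ) (w j)
      rw [norm_one, h j] at h2
      linarith
    have hne0 : (1 - w j) ≠ 0 := by
      intro h3
      rw [h3, norm_zero] at hne
      norm_num at hne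
    have e : (1 - w j)⁻¹ - 1 = w j / (1 - w j) := by
      field_simp
      ring
    rw [e, norm_div, h j, div_le_iff₀ (by linarith)]
    nlinarith
  have h2 := Finset.norm_prod_one_add_sub_one_le (Finset.univ : Finset (Fin N))
    (fun j => (1 - w j)⁻¹ - 1)
  have e : ∏ j, (1 + ((1 - w j)⁻¹ - 1)) = (∏ j, (1 - w j))⁻¹ := by
    rw [← Finset.prod_inv_distrib]
    exact Finset.prod_congr rfl fun j _ => by ring
  rw [e] at h2
  refine h2.trans ?_
  set x : ℝ := ∑ j, ‖(1 - w j)⁻¹ - 1‖ with hx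
  have hx1 : x ≤ 2 * N * r := by
    have : x ≤ ∑ _j : Fin N, 2 * r := Finset.sum_le_sum fun j _ => h1 j
    rw [Finset.sum_const, Finset.card_univ, Fintype.card_fin, nsmul_eq_mul] at this
    linarith
  have hx0 : 0 ≤ x := Finset.sum_nonneg fun j _ => norm_nonneg _
  have hN0 : (0 : ℝ) ≤ N := Nat.cast_nonneg N
  have hx2 : x ≤ 2 * N := hx1.trans (by nlinarith)
  have h3 : Real.exp x - 1 ≤ x * Real.exp x := by
    have h4 := Real.add_one_le_exp (-x)
    have h5 := Real.exp_pos x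
    have h6 : Real.exp (-x) * Real.exp x = 1 := by rw [← Real.exp_add]; simp
    nlinarith
  calc Real.exp x - 1 ≤ x * Real.exp x := h3
    _ ≤ (2 * N * r) * Real.exp (2 * N) := by
        refine mul_le_mul hx1 (Real.exp_le_exp.mpr hx2) (Real.exp_pos _).le (by positivity)
    _ = _ := by ring

section
variable {K : Type} [Field K] [NumberField K] {n : ℕ} {X : Set (MvPolynomial (Fin n) (𝓞 K))}
  {d i N : ℕ} {F : Type} [Field F] [NumberField F] [Algebra K F]

theorem good_alp (hi : i ≤ 2 * d) {B : HeightOneSpectrum (𝓞 F) → ℂ[X]}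
    (h : Pool.Agent.W353.EF.IsEulerSystem X d i N B) : ∀ᶠ v in cofinite, (∀ j, ‖alp X d i N F v j‖ =
      (nq v : ℝ) ^ ((i : ℝ) / 2)) ∧ ((tF X d i N F v : ℝ) : ℂ) = (∑ j, alp X d i N F v j) *
      ((nq v : ℕ) : ℂ) ^ (-(((i : ℝ) / 2 : ℝ) : ℂ)) ∧
      ∀ z : ℂ, (B v).eval z = ∏ j, (1 - alp X d i N F v j * z) := by
  refine h.1.mono fun v hv => ?_
  obtain ⟨α, h1, h2⟩ := hv
  have h1' : Eig X d i v α := h1
  have h3 : Eig X d i v (alp X d i N F v) := pick_spec ⟨α, h1'⟩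
  refine ⟨fun j => h3.norm j, tr_eq (w := (i : ℝ) / 2) (α := alp X d i N F)
    (fun j => h3.norm j) (h3.im hi), fun z => ?_⟩
  rw [h2]
  have h4 := congrArg (fun s : Multiset ℂ => (s.map fun a => 1 - a * z).prod)
    (h1'.unique' hi h3)
  simp only [Multiset.map_map] at h4
  exact h4

/-- **The Euler product at the edge.** -/
theorem euler_edge (hi : i ≤ 2 * d) {B : HeightOneSpectrum (𝓞 F) → ℂ[X]}
    (h : Pool.Agent.W353.EF.IsEulerSystem X d i N B) :
    Edge (HeightOneSpectrum (𝓞 F)) nq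
      (fun v ε => ‖(B v).eval ((Ideal.absNorm v.asIdeal : ℂ) ^ (-((i : ℂ) / 2 + 1 + ε)))‖⁻¹)
      (fun ε => ‖Pool.Agent.W353.EF.LFun B ((i : ℂ) / 2 + 1 + ε)‖) (fun v => tF X d i N F v / nq v) := by
  classical
  set G : HeightOneSpectrum (𝓞 F) → Prop := fun v => (∀ j, ‖alp X d i N F v j‖ =
      (nq v : ℝ) ^ ((i : ℝ) / 2)) ∧ ((tF X d i N F v : ℝ) : ℂ) = (∑ j, alp X d i N F v j) *
      ((nq v : ℕ) : ℂ) ^ (-(((i : ℝ) / 2 : ℝ) : ℂ)) ∧
      ∀ z : ℂ, (B v).eval z = ∏ j, (1 - alp X d i N F v j * z) with hG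
  have hgood : ∀ᶠ v in cofinite, G v := good_alp hi h
  have hbad : {v | ¬ G v}.Finite := Filter.eventually_cofinite.mp hgood
  set E : HeightOneSpectrum (𝓞 F) → ℝ → ℝ := fun v ε =>
    ‖(B v).eval ((Ideal.absNorm v.asIdeal : ℂ) ^ (-((i : ℂ) / 2 + 1 + ε)))‖⁻¹ with hE
  set c : HeightOneSpectrum (𝓞 F) → ℝ := fun v => tF X d i N F v / nq v with hc
  have hq2 : ∀ v : HeightOneSpectrum (𝓞 F), 2 ≤ nq v := fun v => nq_places.two_le v
  have ew : ((((i : ℝ) / 2 : ℝ)) : ℂ) = (i : ℂ) / 2 := by push_cast; ring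
  have hloc : ∀ v, G v → ∀ ε : ℝ, 0 ≤ ε →
      (∀ j, ‖alp X d i N F v j * (nq v : ℂ) ^ (-((i : ℂ) / 2 + 1 + ε))‖ =
        (nq v : ℝ) ^ (-(1 + ε))) ∧ 0 < E v ε ∧
      |Real.log (E v ε) - c v * (nq v : ℝ) ^ (-ε)| ≤ N * (nq v : ℝ) ^ (-2 : ℝ) := by
    intro v hv ε hε
    have h1 := loc_complex (hq2 v) hv.1 hv.2.1 hε
    rw [ew] at h1
    obtain ⟨h2, h3, h4⟩ := h1
    have h5 : E v ε = ‖∏ j, (1 - alp X d i N F v j * (nq v : ℂ) ^ (-((i : ℂ) / 2 + 1 + ε)))‖⁻¹ := by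
      simp only [hE]
      rw [hv.2.2]
      rfl
    refine ⟨h2, ?_, ?_⟩
    · rw [h5]
      exact inv_pos.mpr (norm_pos_iff.mpr h3)
    · rw [h5]
      exact h4
  have hne0 : ∀ v, (B v).eval ((Ideal.absNorm v.asIdeal : ℂ) ^ (-((i : ℂ) / 2 + 1 + (0 : ℝ)))) ≠
      0 := by
    intro v
    have := h.2 v
    rw [Complex.ofReal_zero, add_zero]
    exact this
  have hpos : ∀ v, 0 < E v 0 := fun v => inv_pos.mpr (norm_pos_iff.mpr (hne0 v))
  have hcont : ∀ v, Tendsto (E v) (𝓝[>] 0) (𝓝 (E v 0)) := by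
    intro v
    have hqC : (Ideal.absNorm v.asIdeal : ℂ) ≠ 0 := by
      have h1 := hq2 v
      have h2 : Ideal.absNorm v.asIdeal ≠ 0 := by
        have : nq v ≠ 0 := by omega
        exact this
      exact_mod_cast h2
    have h1 : ContinuousAt (E v) 0 := by
      simp only [hE]
      refine ContinuousAt.inv₀ ?_ (norm_ne_zero_iff.mpr (hne0 v))
      refine ContinuousAt.norm ?_
      refine (B v).continuous.continuousAt.comp ?_
      refine ContinuousAt.const_cpow ?_ (Or.inl hqC)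
      fun_prop
    exact tendsto_nhdsWithin_of_tendsto_nhds h1
  have htb : ∀ v, |tF X d i N F v| ≤ (N : ℝ) := fun v => abs_tr_le _ _ _
  have hsum2 : Summable fun v : HeightOneSpectrum (𝓞 F) => (nq v : ℝ) ^ (-2 : ℝ) :=
    (nq_places (K := F)).summable (fun n => nq_fiber n) (by norm_num)
  set D : HeightOneSpectrum (𝓞 F) → ℝ := fun v => N * (nq v : ℝ) ^ (-2 : ℝ) +
    (if v ∈ hbad.toFinset then |Real.log (E v 0)| + 1 + |c v| else 0) with hD
  have hDs : Summable D := by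
    refine (hsum2.mul_left (N : ℝ)).add ?_
    exact summable_of_ne_finset_zero (s := hbad.toFinset) fun i hi => if_neg hi
  have hN2 : ∀ v : HeightOneSpectrum (𝓞 F), 0 ≤ (N : ℝ) * (nq v : ℝ) ^ (-2 : ℝ) := fun v => by
    positivity
  have hbadev : ∀ᶠ ε : ℝ in 𝓝[>] 0, ∀ v ∈ hbad.toFinset, 0 < E v ε ∧
      |Real.log (E v ε) - c v * (nq v : ℝ) ^ (-ε)| ≤ D v := by
    rw [Filter.eventually_all_finset]
    intro v hv
    have h1 := ((hcont v).log (hpos v).ne').abs.eventually (gt_mem_nhds (lt_add_one _))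
    filter_upwards [(hcont v).eventually (lt_mem_nhds (hpos v)), h1, self_mem_nhdsWithin]
      with ε h2 h3 hε
    have hε0 : (0 : ℝ) < ε := hε
    refine ⟨h2, ?_⟩
    have h4 : |c v * (nq v : ℝ) ^ (-ε)| ≤ |c v| := by
      have h5 : (nq v : ℝ) ^ (-ε) ≤ 1 :=
        Real.rpow_le_one_of_one_le_of_nonpos (by exact_mod_cast (by have := hq2 v; omega : 1 ≤ nq v))
          (by linarith)
      rw [abs_mul, abs_of_nonneg (Real.rpow_nonneg (Nat.cast_nonneg _) _)]
      exact mul_le_of_le_one_right (abs_nonneg _) h5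
    have h6 := abs_sub (Real.log (E v ε)) (c v * (nq v : ℝ) ^ (-ε))
    simp only [hD]
    rw [if_pos hv]
    have h7 := hN2 v
    linarith
  refine ⟨nq_places, ?_, ⟨D, hDs, ?_⟩, hpos, hcont, ?_⟩
  · refine ⟨_, (nq_places (K := F)).fiber_bound (M := N) (Nat.cast_nonneg N) nq_pp nq_fiber
      fun v => ?_⟩
    simp only [hc]
    rw [abs_div, abs_of_pos (nq_cast_pos v)]
    exact div_le_div_of_nonneg_right (htb v) (nq_cast_pos v).le
  · filter_upwards [hbadev, self_mem_nhdsWithin] with ε h1 hε v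
    have hε0 : (0 : ℝ) < ε := hε
    by_cases hv : v ∈ hbad.toFinset
    · exact h1 v hv
    · have hv' : G v := by simpa using hv
      obtain ⟨-, h2, h3⟩ := hloc v hv' ε hε0.le
      refine ⟨h2, h3.trans ?_⟩
      simp only [hD]
      rw [if_neg hv, add_zero]
  · filter_upwards [self_mem_nhdsWithin] with ε hε
    have hε0 : (0 : ℝ) < ε := hε
    set f : HeightOneSpectrum (𝓞 F) → ℂ := fun v =>
      ((B v).eval ((Ideal.absNorm v.asIdeal : ℂ) ^ (-((i : ℂ) / 2 + 1 + ε))))⁻¹ with hf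
    have h1 : Summable fun v => ‖f v - 1‖ := by
      have h2 : Summable fun v : HeightOneSpectrum (𝓞 F) =>
          2 * N * Real.exp (2 * N) * (nq v : ℝ) ^ (-(1 + ε)) :=
        ((nq_places (K := F)).summable (fun n => nq_fiber n)
          (show 1 < 1 + ε by linarith)).mul_left _
      refine Summable.of_norm_bounded_eventually h2 ?_
      filter_upwards [hgood] with v hv
      rw [norm_norm]
      have h3 := (hloc v hv ε hε0.le).1
      have h4 : (nq v : ℝ) ^ (-(1 + ε)) ≤ 1 / 2 := by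
        have hq : (2 : ℝ) ≤ nq v := by exact_mod_cast hq2 v
        have h5 : (nq v : ℝ) ^ (-(1 + ε)) ≤ (nq v : ℝ) ^ (-1 : ℝ) :=
          Real.rpow_le_rpow_of_exponent_le (by linarith) (by linarith)
        refine h5.trans ?_
        rw [Real.rpow_neg_one, one_div]
        exact inv_anti₀ (by norm_num) hq
      have h5 := inv_prod_sub_one h4 h3
      have h6 : f v = (∏ j, (1 - alp X d i N F v j *
          (nq v : ℂ) ^ (-((i : ℂ) / 2 + 1 + ε))))⁻¹ := by
        simp only [hf]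
        rw [hv.2.2]
        rfl
      rw [h6]
      exact h5
    have h2 : Multipliable f := by
      have h3 := multipliable_one_add_of_summable h1
      refine h3.congr fun v => ?_
      ring
    have h3 := h2.hasProd.norm
    have h4 : (fun v => ‖f v‖) = fun v => E v ε := by
      funext v
      simp only [hf, hE]
      rw [norm_inv]
    rw [h4] at h3
    exact h3

/-- **The order at the edge as a logarithmic average.** -/
theorem order_avg (hi : i ≤ 2 * d) {B : HeightOneSpectrum (𝓞 F) → ℂ[X]}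
    (h : Pool.Agent.W353.EF.IsEulerSystem X d i N B) {m : ℤ} (hm : HasOrder i B m) :
    Tendsto (fun x : ℝ => sumUpTo (fun v => tF X d i N F v *
      Real.log (Ideal.absNorm v.asIdeal : ℝ) / (Ideal.absNorm v.asIdeal : ℝ)) x / Real.log x)
      atTop (𝓝 (-(m : ℝ))) := by
  have hedge := euler_edge hi h
  obtain ⟨Λ, hΛ, he, hord⟩ := hm
  set s₀ : ℂ := (i : ℂ) / 2 + 1 with hs₀
  obtain ⟨g, hg1, hg2, hg3⟩ := (meromorphicOrderAt_eq_int_iff hΛ).mp hord
  have hpath : Tendsto (fun ε : ℝ => s₀ + ε) (𝓝[>] 0) (𝓝[≠] s₀) := by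
    rw [tendsto_nhdsWithin_iff]
    constructor
    · have h1 : Continuous fun ε : ℝ => s₀ + ε := by fun_prop
      have h2 := h1.tendsto 0
      simp only [Complex.ofReal_zero, add_zero] at h2
      exact tendsto_nhdsWithin_of_tendsto_nhds h2
    · filter_upwards [self_mem_nhdsWithin] with ε hε
      have hε0 : (0 : ℝ) < ε := hε
      rw [Set.mem_compl_iff, Set.mem_singleton_iff]
      intro h
      have : (ε : ℂ) = 0 := by simpa using h
      exact hε0.ne' (by exact_mod_cast this)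
  have hlim : Tendsto (fun ε : ℝ => Real.log ‖Pool.Agent.W353.EF.LFun B (s₀ + ε)‖ + (-(m : ℝ)) * Real.log ε)
      (𝓝[>] 0) (𝓝 (Real.log ‖g s₀‖)) := by
    have h1 : Tendsto (fun ε : ℝ => Real.log ‖g (s₀ + ε)‖) (𝓝[>] 0) (𝓝 (Real.log ‖g s₀‖)) :=
      ((hg1.continuousAt.tendsto.comp (tendsto_nhds_of_tendsto_nhdsWithin hpath)).norm).log
        (norm_ne_zero_iff.mpr hg2)
    refine h1.congr' ?_
    have hgne : ∀ᶠ ε : ℝ in 𝓝[>] 0, g (s₀ + ε) ≠ 0 :=
      (hg1.continuousAt.tendsto.comp (tendsto_nhds_of_tendsto_nhdsWithin hpath)).eventually_ne hg2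
    filter_upwards [hpath.eventually hg3, (tendsto_nhds_of_tendsto_nhdsWithin hpath).eventually he,
      self_mem_nhdsWithin, hgne] with ε h2 h3 hε h4
    have hε0 : (0 : ℝ) < ε := hε
    have h5 : Λ (s₀ + ε) = Pool.Agent.W353.EF.LFun B (s₀ + ε) := by
      refine h3 ?_
      have e1 : s₀.re = (i : ℝ) / 2 + 1 := by
        rw [hs₀]
        simp
      rw [Complex.add_re, Complex.ofReal_re, e1]
      linarith
    rw [← h5, h2, add_sub_cancel_left, norm_smul, norm_zpow, Complex.norm_real,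
      Real.norm_of_nonneg hε0.le, Real.log_mul (zpow_ne_zero _ hε0.ne') (norm_ne_zero_iff.mpr h4),
      Real.log_zpow]
    ring
  have h1 := (hedge.log_avg hlim).comp Real.tendsto_log_atTop
  refine h1.congr' ?_
  filter_upwards [eventually_gt_atTop 0] with x hx
  rw [Function.comp_apply, sumUpTo_eq _ hx]
  congr 1
  refine Finset.sum_congr rfl fun v _ => ?_
  have h2 : (Ideal.absNorm v.asIdeal : ℝ) = (nq v : ℝ) := rfl
  rw [h2]
  ring

end

end Pool.Agent.TH129.EM
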