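import Pool.Agent.TH129.EM.Div2
import Pool.Agent.TH129.EM.Div3
import Pool.Agent.W353.FB.Abel

/-!
# Averages over the primes with Frobenius in a division
-/

set_option autoImplicit false

namespace Pool.Agent.TH129.EM

open Filter Topology Set NumberField IsDedekindDomain
open Pool.Agent.W401.Cheb (GK IsFrob)
open Pool.Agent.W353.SP (Bd Mn Hs EN mnN EN_F trace_tF bd_fixn)
open Pool.Agent.W353.FB (EA mnA LA_EN' DS_diff BdOff term_empty)
open Pool.Agent.H126V.Taub (LA)
open Pool.Agent.H126V.FC (DS)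
open Pool.Agent.W353.NF (fixn)
open Pool.Agent.W353.PV (tF Eig)
open Pool.Agent.W353.L1 (abs_tr_le)
open Pool.Agent.W353.TD (inv inv_eq sum_char_fix)
open Pool.Agent.W353.EF (OrderOver)

section rep
variable {Q : Type*} [Group Q] {W : Type} [AddCommGroup W] [Module ℚ W]

theorem traceMean_eq [Fintype Q] (ρ : Representation ℚ Q W) (f : Q → ℝ) :
    traceMean ρ f = (Fintype.card Q : ℝ)⁻¹ * ∑ x : Q, f x * ((ρ.character x : ℚ) : ℝ) := by
  unfold traceMean
  rw [finsum_eq_sum_of_fintype, Nat.card_eq_fintype_card]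

theorem traceMean_sum [Fintype Q] (ρ : Representation ℚ Q W) {κ : Type*} (S : Finset κ)
    (a : κ → ℝ) (g : κ → Q → ℝ) {f : Q → ℝ} (hf : ∀ x, f x = ∑ k ∈ S, a k * g k x) :
    traceMean ρ f = ∑ k ∈ S, a k * traceMean ρ (g k) := by
  simp only [traceMean_eq, hf]
  have h1 : ∑ x : Q, (∑ k ∈ S, a k * g k x) * ((ρ.character x : ℚ) : ℝ) =
      ∑ k ∈ S, a k * ∑ x : Q, g k x * ((ρ.character x : ℚ) : ℝ) := by
    simp only [Finset.sum_mul, Finset.mul_sum]
    rw [Finset.sum_comm]
    exact Finset.sum_congr rfl fun k _ => Finset.sum_congr rfl fun x _ => by ring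
  rw [h1, Finset.mul_sum]
  exact Finset.sum_congr rfl fun k _ => by ring

theorem traceMean_pcf [Fintype Q] [FiniteDimensional ℚ W] (ρ : Representation ℚ Q W)
    (C : Subgroup Q) : traceMean ρ (pcf C) = fixedDim ρ C := by
  classical
  have h1 := sum_char_fix ρ (MulAction.toPermHom Q (Q ⧸ C)) (fun x y => by
      obtain ⟨g, hg⟩ := MulAction.exists_smul_eq Q x y
      exact ⟨g, hg⟩) (QuotientGroup.mk 1) C (fun g => by
      rw [MulAction.toPermHom_apply, MulAction.toPerm_apply]
      change g ∈ C ↔ (QuotientGroup.mk (g * 1) : Q ⧸ C) = QuotientGroup.mk 1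
      rw [mul_one, eq_comm, QuotientGroup.eq, inv_one, one_mul])
  rw [traceMean_eq]
  have h2 : ∑ x : Q, pcf C x * ((ρ.character x : ℚ) : ℝ) =
      ((Fintype.card Q * Module.finrank ℚ (inv ρ C) : ℚ) : ℝ) := by
    rw [← h1]
    push_cast
    refine Finset.sum_congr rfl fun x _ => ?_
    unfold pcf
    rw [mul_comm]
    rfl
  rw [h2, inv_eq]
  push_cast
  rw [inv_mul_cancel_left₀]
  · rfl
  · exact_mod_cast Fintype.card_ne_zero

end rep

section avgs
variable {F : Type} [Field F] [NumberField F]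

theorem avg_eq_sumUpTo (m : ℕ) (b : HeightOneSpectrum (𝓞 F) → ℝ) (T : ℝ) : avg m b T =
    sumUpTo (fun v => b v / (Ideal.absNorm v.asIdeal : ℝ) ^ m *
      Real.log (Ideal.absNorm v.asIdeal : ℝ)) T / T := by
  unfold avg sumUpTo
  congr 1
  refine finsum_mem_congr rfl fun v _ => ?_
  ring

theorem logAvg_eq_sumUpTo (m : ℕ) (b : HeightOneSpectrum (𝓞 F) → ℝ) (T : ℝ) : logAvg m b T =
    sumUpTo (fun v => b v / (Ideal.absNorm v.asIdeal : ℝ) ^ m *
      Real.log (Ideal.absNorm v.asIdeal : ℝ) / (Ideal.absNorm v.asIdeal : ℝ)) T / Real.log T := by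
  unfold logAvg sumUpTo
  congr 1
  refine finsum_mem_congr rfl fun v _ => ?_
  have h0 : (Ideal.absNorm v.asIdeal : ℝ) ≠ 0 := (nq_cast_pos v).ne'
  rw [pow_succ]
  field_simp

theorem LA_empty (φ : HeightOneSpectrum (𝓞 F) → ℝ) {N : ℕ} (hN : 0 < N) : LA ∅ N φ =
    sumUpTo (fun v => φ v * Real.log (Ideal.absNorm v.asIdeal : ℝ)) N / N := by
  classical
  have hN' : (0 : ℝ) < N := by exact_mod_cast hN
  unfold LA
  rw [sumUpTo_eq _ hN']
  congr 1
  refine Finset.sum_congr ?_ fun v _ => rfl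
  ext v
  unfold Pool.Agent.H126U.ST.VS
  rw [Finset.mem_filter, Pool.Agent.H126U.mem_VX, (nq_places (K := F)).mem_upTo,
    Real.exp_log hN']
  constructor
  · intro h
    exact_mod_cast h.1
  · intro h
    exact ⟨by exact_mod_cast h, Finset.notMem_empty v⟩

/-- natural averages -/
theorem avg_iff {m : ℕ} {b a : HeightOneSpectrum (𝓞 F) → ℝ} (ha : Bd a)
    (hab : ∀ᶠ v in cofinite, b v / (Ideal.absNorm v.asIdeal : ℝ) ^ m = a v) (r : ℝ) :
    Tendsto (avg m b) atTop (𝓝 r) ↔ Tendsto (fun n : ℕ => EN F n a) atTop (𝓝 r) := by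
  set φ : HeightOneSpectrum (𝓞 F) → ℝ := fun v => b v / (Ideal.absNorm v.asIdeal : ℝ) ^ m with hφ
  have h0 := LA_EN' (∅ : Finset (HeightOneSpectrum (𝓞 F))) (φ := φ) ha (hab.mono fun v hv _ => hv)
  have h1 : Tendsto (fun n : ℕ => EN F n a) atTop (𝓝 r) ↔
      Tendsto (fun n : ℕ => LA ∅ n φ) atTop (𝓝 r) := by
    constructor
    · intro h
      have := h0.add h
      rw [zero_add] at this
      refine this.congr fun n => ?_
      ring
    · intro h
      have := h.sub h0
      rw [sub_zero] at this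
      refine this.congr fun n => ?_
      ring
  have hnat : ∀ n : ℕ, 0 < n → avg m b n = LA ∅ n φ := fun n hn => by
    rw [avg_eq_sumUpTo, LA_empty φ hn]
  rw [h1]
  constructor
  · intro h
    refine (h.comp tendsto_natCast_atTop_atTop).congr' ?_
    filter_upwards [eventually_gt_atTop 0] with n hn
    exact hnat n hn
  · intro h
    have h2 : Tendsto (fun T : ℝ => LA ∅ ⌊T⌋₊ φ * ((⌊T⌋₊ : ℝ) / T)) atTop (𝓝 (r * 1)) :=
      (h.comp tendsto_nat_floor_atTop).mul tendsto_nat_floor_div_atTop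
    rw [mul_one] at h2
    refine h2.congr' ?_
    filter_upwards [eventually_ge_atTop 1] with T hT
    have hT0 : 0 < T := by linarith
    have hn : 0 < ⌊T⌋₊ := Nat.floor_pos.mpr hT
    have hn' : (⌊T⌋₊ : ℝ) ≠ 0 := by exact_mod_cast hn.ne'
    rw [LA_empty φ hn, avg_eq_sumUpTo]
    have h3 : sumUpTo (fun v => φ v * Real.log (Ideal.absNorm v.asIdeal : ℝ)) (⌊T⌋₊ : ℝ) =
        sumUpTo (fun v : HeightOneSpectrum (𝓞 F) => φ v *
          Real.log (Ideal.absNorm v.asIdeal : ℝ)) T := by
      unfold sumUpTo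
      have h4 : {v : HeightOneSpectrum (𝓞 F) | (Ideal.absNorm v.asIdeal : ℝ) ≤ (⌊T⌋₊ : ℝ)} =
          {v : HeightOneSpectrum (𝓞 F) | (Ideal.absNorm v.asIdeal : ℝ) ≤ T} := by
        ext v
        rw [Set.mem_setOf_eq, Set.mem_setOf_eq, Nat.cast_le, Nat.le_floor_iff hT0.le]
      rw [h4]
    rw [h3, div_mul_div_comm, mul_comm (⌊T⌋₊ : ℝ) T, mul_div_mul_right _ _ hn']

theorem EA_logDirichlet (a : HeightOneSpectrum (𝓞 F) → ℝ) (s : ℝ) :
    EA F s a = (s - 1) * logDirichlet a s := by
  unfold EA DS logDirichlet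
  congr 1

/-- logarithmic averages -/
theorem logAvg_iff {m : ℕ} {b a : HeightOneSpectrum (𝓞 F) → ℝ} (ha : Bd a)
    (hab : ∀ᶠ v in cofinite, b v / (Ideal.absNorm v.asIdeal : ℝ) ^ m = a v) (r : ℝ) :
    Tendsto (logAvg m b) atTop (𝓝 r) ↔ Tendsto (fun s => EA F s a) (𝓝[>] 1) (𝓝 r) := by
  obtain ⟨C, hC⟩ := ha
  have h1 := bounded_residue_iff hC r
  simp only [EA_logDirichlet]
  rw [h1]
  have hlog : ∀ g : HeightOneSpectrum (𝓞 F) → ℝ,
      Tendsto (fun x : ℝ => sumUpTo g x / Real.log x) atTop (𝓝 r) ↔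
      Tendsto (fun u : ℝ => (∑ v ∈ (nq_places (K := F)).upTo u, g v) / u) atTop (𝓝 r) := by
    intro g
    constructor
    · intro h
      refine (h.comp Real.tendsto_exp_atTop).congr fun u => ?_
      rw [Function.comp_apply, sumUpTo_eq _ (Real.exp_pos u), Real.log_exp]
    · intro h
      refine (h.comp Real.tendsto_log_atTop).congr' ?_
      filter_upwards [eventually_gt_atTop 0] with x hx
      rw [Function.comp_apply, sumUpTo_eq _ hx]
  have e1 : logAvg m b = fun T => sumUpTo (fun v => b v / (Ideal.absNorm v.asIdeal : ℝ) ^ m *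
      Real.log (Ideal.absNorm v.asIdeal : ℝ) / (Ideal.absNorm v.asIdeal : ℝ)) T / Real.log T := by
    funext T
    exact logAvg_eq_sumUpTo m b T
  rw [e1, hlog, hlog]
  constructor
  · intro h
    refine (nq_places (K := F)).avg_congr (hab.mono fun v hv => ?_) h
    rw [hv]
  · intro h
    refine (nq_places (K := F)).avg_congr (hab.mono fun v hv => ?_) h
    rw [hv]

end avgs

section
variable {K : Type} [Field K] [NumberField K] {n : ℕ} {X : Set (MvPolynomial (Fin n) (𝓞 K))}
  {d m N : ℕ}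

theorem trace_norm (hm : m ≤ d) {F : Type} [Field F] [NumberField F] [Algebra K F]
    {b : HeightOneSpectrum (𝓞 F) → ℝ} (hb : IsTraceOn X d m N b) :
    ∀ᶠ v in cofinite, b v / (Ideal.absNorm v.asIdeal : ℝ) ^ m = tF X d (2 * m) N F v := by
  refine hb.mono fun v hv => ?_
  obtain ⟨α, hα, hbv⟩ := hv
  have hα' : Eig X d (2 * m) v α := hα
  have hq : (0 : ℝ) < (Ideal.absNorm v.asIdeal : ℝ) := nq_cast_pos v
  have hq0 : (0 : ℝ) < (Ideal.absNorm v.asIdeal : ℝ) ^ m := by positivity
  rw [trace_tF (by omega) hα'] at hbv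
  have h1 : b v = (Ideal.absNorm v.asIdeal : ℝ) ^ m * tF X d (2 * m) N F v := by
    exact_mod_cast hbv
  rw [h1, mul_div_cancel_left₀ _ hq0.ne']

theorem bd_tF (X : Set (MvPolynomial (Fin n) (𝓞 K))) (d i N : ℕ) (F : Type) [Field F]
    [NumberField F] [Algebra K F] : Bd (tF X d i N F) := ⟨N, fun v => abs_tr_le _ _ _⟩

variable {σ : HeightOneSpectrum (𝓞 K) → GK K}

/-- from `F` to `K`, natural averages -/
theorem EN_field_iff (hσ : ∀ v, IsFrob v (σ v)) {F : Type} [Field F] [NumberField F]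
    [Algebra K F] (i : ℕ) (r : ℝ) :
    Tendsto (fun Y : ℕ => EN F Y (tF X d i N F)) atTop (𝓝 r) ↔
      Tendsto (fun Y : ℕ => EN K Y (fun v => tF X d i N K v * fixn K F (σ v))) atTop (𝓝 r) := by
  have h0 := EN_F (K := K) (F := F) (X := X) (d := d) (i := i) (N := N) σ hσ
  constructor
  · intro h
    have := h.sub h0
    rw [sub_zero] at this
    refine this.congr fun n => ?_
    ring
  · intro h
    have := h0.add h
    rw [zero_add] at this
    refine this.congr fun n => ?_
    ring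

/-- from `F` to `K`, analytic averages -/
theorem EA_field_iff (hσ : ∀ v, IsFrob v (σ v)) {F : Type} [Field F] [NumberField F]
    [Algebra K F] (i : ℕ) (r : ℝ) :
    Tendsto (fun s : ℝ => EA F s (tF X d i N F)) (𝓝[>] 1) (𝓝 r) ↔
      Tendsto (fun s : ℝ => EA K s (fun v => tF X d i N K v * fixn K F (σ v))) (𝓝[>] 1) (𝓝 r) := by
  have h0 := DS_diff (K := K) (F := F) (S := ∅) (φ := tF X d i N F) (a := tF X d i N F)
    (g := fun v => tF X d i N K v * fixn K F (σ v)) (BdOff.of_bd (bd_tF X d i N F) ∅)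
    (bd_tF X d i N F) ((bd_tF X d i N K).mul (bd_fixn σ)) (Eventually.of_forall fun v _ => rfl)
    (EN_F (K := K) (F := F) (X := X) (d := d) (i := i) (N := N) σ hσ)
  constructor
  · intro h
    have := h.sub h0
    rw [sub_zero] at this
    refine this.congr fun s => ?_
    unfold EA
    ring
  · intro h
    have := h0.add h
    rw [zero_add] at this
    refine this.congr fun s => ?_
    unfold EA
    ring

/-- **The order of the pole over `F` as an analytic average over `K`.** -/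
theorem order_EA (hσ : ∀ v, IsFrob v (σ v)) {i : ℕ} (hi : i ≤ 2 * d) {F : Type} [Field F]
    [Algebra K F] [NumberField F] {k : ℤ} (h : OrderOver X d i N F k) :
    Tendsto (fun s : ℝ => EA K s (fun v => tF X d i N K v * fixn K F (σ v))) (𝓝[>] 1)
      (𝓝 (-(k : ℝ))) := by
  obtain ⟨_, B, hB, hk⟩ := h
  rw [← EA_field_iff hσ]
  have h1 := order_avg hi hB hk
  obtain ⟨C, hC⟩ := bd_tF X d i N F
  have h2 := (bounded_residue_iff hC (-(k : ℝ))).mpr h1
  simp only [EA_logDirichlet]
  exact h2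

end

section
variable {K : Type} [Field K] [NumberField K] {ι : Type} {l : Filter ι}
  {E : ι → (HeightOneSpectrum (𝓞 K) → ℝ) → ℝ} {M : IntermediateField K (AlgebraicClosure K)}
  [FiniteDimensional K M] [Normal K M] {t : HeightOneSpectrum (𝓞 K) → ℝ}
  {σ : HeightOneSpectrum (𝓞 K) → GK K}

theorem numberField_of_le {F : IntermediateField K (AlgebraicClosure K)} (h : F ≤ M) :
    NumberField F := by
  have h1 : FiniteDimensional K F :=
    FiniteDimensional.of_injective (IntermediateField.inclusion h).toLinearMap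
      (IntermediateField.inclusion h).injective
  exact NumberField.of_module_finite K F

theorem bd_weight [Finite (M ≃ₐ[K] M)] (f : (M ≃ₐ[K] M) → ℝ) :
    Bd fun v => f (AlgEquiv.restrictNormal (σ v) M) := by
  let _ : Fintype (M ≃ₐ[K] M) := Fintype.ofFinite _
  exact ⟨∑ x, |f x|, fun v => Finset.single_le_sum (f := fun x => |f x|)
    (fun x _ => abs_nonneg _) (Finset.mem_univ _)⟩

/-- **Divisions.** The averages over the divisions exist if the averages for the subfields with cyclic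
Galois group exist. -/
theorem div_lim (h : Mn l E) (ht : Bd t)
    (hF : ∀ (F : IntermediateField K (AlgebraicClosure K)) [NumberField F], F ≤ M →
      IsCyclic (galSub M F) → ∃ r : ℝ,
      Tendsto (fun i => E i fun v => t v * fixn K F (σ v)) l (𝓝 r))
    {f : (M ≃ₐ[K] M) → ℝ} (hf : IsDivisionFunction f) :
    ∃ r : ℝ, Tendsto (fun i => E i fun v => t v * f (AlgEquiv.restrictNormal (σ v) M)) l (𝓝 r) := by
  classical
  let _ : Fintype (M ≃ₐ[K] M) := Fintype.ofFinite _
  obtain ⟨a, ha⟩ := artin_induction hf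
  have h1 : ∀ c : M ≃ₐ[K] M, ∃ r : ℝ, Hs l E (fun v => t v *
      pcf (Subgroup.zpowers c) (AlgEquiv.restrictNormal (σ v) M)) r := by
    intro c
    obtain ⟨F, hFM, hFc⟩ := exists_field M (Subgroup.zpowers c)
    have hnf : NumberField F := numberField_of_le hFM
    obtain ⟨r, hr⟩ := hF F hFM (by
      rw [hFc]
      exact Subgroup.isCyclic_zpowers c)
    refine ⟨r, ht.mul (bd_weight _), ?_⟩
    refine hr.congr fun i => ?_
    congr 1
    funext v
    rw [fixn_eq_pcf hFM, hFc]
  choose r hr using h1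
  have h2 := h.hsSum Finset.univ (f := fun c v => a c * (t v *
    pcf (Subgroup.zpowers c) (AlgEquiv.restrictNormal (σ v) M))) (a := fun c => a c * r c)
    fun c _ => h.hsMul (hr c) (a c)
  refine ⟨∑ c, a c * r c, ?_⟩
  refine h2.2.congr fun i => ?_
  congr 1
  funext v
  rw [ha, Finset.mul_sum]
  exact Finset.sum_congr rfl fun c _ => by ring

variable {W : Type} [AddCommGroup W] [Module ℚ W] [FiniteDimensional ℚ W]

/-- **Divisions and a representation.** -/
theorem div_rep (h : Mn l E) (ht : Bd t) (ρ : Representation ℚ (M ≃ₐ[K] M) W)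
    (hF : ∀ (F : IntermediateField K (AlgebraicClosure K)) [NumberField F], F ≤ M →
      IsCyclic (galSub M F) →
      Tendsto (fun i => E i fun v => t v * fixn K F (σ v)) l (𝓝 (fixedDim ρ (galSub M F))))
    {f : (M ≃ₐ[K] M) → ℝ} (hf : IsDivisionFunction f) :
    Tendsto (fun i => E i fun v => t v * f (AlgEquiv.restrictNormal (σ v) M)) l
      (𝓝 (traceMean ρ f)) := by
  classical
  let _ : Fintype (M ≃ₐ[K] M) := Fintype.ofFinite _
  obtain ⟨a, ha⟩ := artin_induction hf
  have h1 : ∀ c : M ≃ₐ[K] M, Hs l E (fun v => t v *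
      pcf (Subgroup.zpowers c) (AlgEquiv.restrictNormal (σ v) M))
      (traceMean ρ (pcf (Subgroup.zpowers c))) := by
    intro c
    obtain ⟨F, hFM, hFc⟩ := exists_field M (Subgroup.zpowers c)
    have hnf : NumberField F := numberField_of_le hFM
    have hr := hF F hFM (by
      rw [hFc]
      exact Subgroup.isCyclic_zpowers c)
    rw [hFc, ← traceMean_pcf] at hr
    refine ⟨ht.mul (bd_weight _), ?_⟩
    refine hr.congr fun i => ?_
    congr 1
    funext v
    rw [fixn_eq_pcf hFM, hFc]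
  have h2 := h.hsSum Finset.univ (f := fun c v => a c * (t v *
    pcf (Subgroup.zpowers c) (AlgEquiv.restrictNormal (σ v) M)))
    (a := fun c => a c * traceMean ρ (pcf (Subgroup.zpowers c)))
    fun c _ => h.hsMul (h1 c) (a c)
  rw [traceMean_sum ρ Finset.univ a (fun c => pcf (Subgroup.zpowers c)) ha]
  refine h2.2.congr fun i => ?_
  congr 1
  funext v
  rw [ha, Finset.mul_sum]
  exact Finset.sum_congr rfl fun c _ => by ring

/-- the converse -/
theorem rep_div (ρ : Representation ℚ (M ≃ₐ[K] M) W)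
    (hf : ∀ f : (M ≃ₐ[K] M) → ℝ, IsDivisionFunction f →
      Tendsto (fun i => E i fun v => t v * f (AlgEquiv.restrictNormal (σ v) M)) l
        (𝓝 (traceMean ρ f)))
    {F : IntermediateField K (AlgebraicClosure K)} [NumberField F] (h : F ≤ M) :
    Tendsto (fun i => E i fun v => t v * fixn K F (σ v)) l (𝓝 (fixedDim ρ (galSub M F))) := by
  classical
  let _ : Fintype (M ≃ₐ[K] M) := Fintype.ofFinite _
  have h1 := hf (pcf (galSub M F)) fun x y hxy => pcf_div _ hxy
  rw [traceMean_pcf] at h1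
  refine h1.congr fun i => ?_
  congr 1
  funext v
  rw [fixn_eq_pcf h]

/-- the converse, existence -/
theorem lim_div (hf : ∀ f : (M ≃ₐ[K] M) → ℝ, IsDivisionFunction f → ∃ r : ℝ,
      Tendsto (fun i => E i fun v => t v * f (AlgEquiv.restrictNormal (σ v) M)) l (𝓝 r))
    {F : IntermediateField K (AlgebraicClosure K)} [NumberField F] (h : F ≤ M) :
    ∃ r : ℝ, Tendsto (fun i => E i fun v => t v * fixn K F (σ v)) l (𝓝 r) := by
  obtain ⟨r, hr⟩ := hf (pcf (galSub M F)) fun x y hxy => pcf_div _ hxy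
  refine ⟨r, hr.congr fun i => ?_⟩
  congr 1
  funext v
  rw [fixn_eq_pcf h]

end

end Pool.Agent.TH129.EM
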