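import Pool.Agent.TH129.EM.Div4

/-!
# The law of divisions for the averages of the traces of Frobenius
-/

set_option autoImplicit false

namespace Pool.Agent.TH129.EM

open Filter Topology Set NumberField IsDedekindDomain
open Pool.Agent.W401.Cheb (GK IsFrob)
open Pool.Agent.W353.SP (Bd Mn EN mnN)
open Pool.Agent.W353.FB (EA mnA)
open Pool.Agent.W353.NF (fixn)
open Pool.Agent.W353.PV (tF)
open Pool.Agent.W353.EF (OrderOver)

section
variable {K : Type} [Field K] [NumberField K] {n : ℕ} {X : Set (MvPolynomial (Fin n) (𝓞 K))}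
  {d m N : ℕ} {M : IntermediateField K (AlgebraicClosure K)}
  [FiniteDimensional K M] [Normal K M] {W : Type} [AddCommGroup W] [Module ℚ W]
  [FiniteDimensional ℚ W] {σ : HeightOneSpectrum (𝓞 K) → GK K}

/-- the weighted traces -/
theorem weight_norm (hm : m ≤ d) {b : HeightOneSpectrum (𝓞 K) → ℝ} (hb : IsTraceOn X d m N b)
    (f : (M ≃ₐ[K] M) → ℝ) : ∀ᶠ v in cofinite,
    (f (AlgEquiv.restrictNormal (σ v) M) * b v) / (Ideal.absNorm v.asIdeal : ℝ) ^ m =
      tF X d (2 * m) N K v * f (AlgEquiv.restrictNormal (σ v) M) := by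
  filter_upwards [trace_norm hm hb] with v hv
  rw [mul_div_assoc, hv, mul_comm]

/-- an abstract form -/
theorem divisionLaw_of {ι : Type} {l : Filter ι} {E : ι → (HeightOneSpectrum (𝓞 K) → ℝ) → ℝ}
    (h : Mn l E) {t : HeightOneSpectrum (𝓞 K) → ℝ} (ht : Bd t)
    (ρ : Representation ℚ (M ≃ₐ[K] M) W)
    {A : ∀ (F : IntermediateField K (AlgebraicClosure K)) [NumberField F], ℝ → ℝ}
    {D : ((M ≃ₐ[K] M) → ℝ) → ℝ → ℝ}
    (hA : ∀ (F : IntermediateField K (AlgebraicClosure K)) [NumberField F], F ≤ M → ∀ r : ℝ,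
      Tendsto (A F) atTop (𝓝 r) ↔ Tendsto (fun i => E i fun v => t v * fixn K F (σ v)) l (𝓝 r))
    (hD : ∀ f : (M ≃ₐ[K] M) → ℝ, ∀ r : ℝ, Tendsto (D f) atTop (𝓝 r) ↔
      Tendsto (fun i => E i fun v => t v * f (AlgEquiv.restrictNormal (σ v) M)) l (𝓝 r)) :
    DivisionLaw M ρ A D := by
  refine ⟨⟨fun h1 f hf => ?_, fun h1 F _ hFM _ => ?_⟩, ⟨fun h1 f hf => ?_, fun h1 F _ hFM _ => ?_⟩,
    fun h1 F _ hFM => ?_⟩
  · obtain ⟨r, hr⟩ := div_lim h ht (fun F _ hFM hc => by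
      obtain ⟨r, hr⟩ := h1 F hFM hc
      exact ⟨r, (hA F hFM r).mp hr⟩) hf
    exact ⟨r, (hD f r).mpr hr⟩
  · obtain ⟨r, hr⟩ := lim_div (fun f hf => by
      obtain ⟨r, hr⟩ := h1 f hf
      exact ⟨r, (hD f r).mp hr⟩) hFM
    exact ⟨r, (hA F hFM r).mpr hr⟩
  · exact (hD f _).mpr (div_rep h ht ρ (fun F _ hFM hc => (hA F hFM _).mp (h1 F hFM hc)) hf)
  · exact (hA F hFM _).mpr (rep_div ρ (fun f hf => (hD f _).mp (h1 f hf)) hFM)
  · exact (hA F hFM _).mpr (rep_div ρ (fun f hf => (hD f _).mp (h1 f hf)) hFM)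

variable {b₀ : HeightOneSpectrum (𝓞 K) → ℝ}
  {b : ∀ F : IntermediateField K (AlgebraicClosure K), HeightOneSpectrum (𝓞 F) → ℝ}

theorem avg_law (hm : m ≤ d) (hb₀ : IsTraceOn X d m N b₀)
    (hb : ∀ (F : IntermediateField K (AlgebraicClosure K)) [NumberField F], F ≤ M →
      IsTraceOn X d m N (b F)) (hσ : ∀ v, IsFrob v (σ v)) (ρ : Representation ℚ (M ≃ₐ[K] M) W) :
    DivisionLaw M ρ (fun F _ => avg m (b F))
      (fun f => avg m fun v => f (AlgEquiv.restrictNormal (σ v) M) * b₀ v) :=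
  divisionLaw_of (mnN K) (bd_tF X d (2 * m) N K) ρ (fun F _ hFM r => by
      rw [avg_iff (bd_tF X d (2 * m) N F) (trace_norm hm (hb F hFM)), EN_field_iff hσ])
    fun f r => avg_iff ((bd_tF X d (2 * m) N K).mul (bd_weight f)) (weight_norm hm hb₀ f) r

theorem logAvg_law (hm : m ≤ d) (hb₀ : IsTraceOn X d m N b₀)
    (hb : ∀ (F : IntermediateField K (AlgebraicClosure K)) [NumberField F], F ≤ M →
      IsTraceOn X d m N (b F)) (hσ : ∀ v, IsFrob v (σ v)) (ρ : Representation ℚ (M ≃ₐ[K] M) W) :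
    DivisionLaw M ρ (fun F _ => logAvg m (b F))
      (fun f => logAvg m fun v => f (AlgEquiv.restrictNormal (σ v) M) * b₀ v) :=
  divisionLaw_of (mnA K) (bd_tF X d (2 * m) N K) ρ (fun F _ hFM r => by
      rw [logAvg_iff (bd_tF X d (2 * m) N F) (trace_norm hm (hb F hFM)), EA_field_iff hσ])
    fun f r => logAvg_iff ((bd_tF X d (2 * m) N K).mul (bd_weight f)) (weight_norm hm hb₀ f) r

/-- natural averages give logarithmic averages -/
theorem logAvg_of_avg {F : Type} [Field F] [NumberField F] (m : ℕ)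
    {b : HeightOneSpectrum (𝓞 F) → ℝ} {C : ℝ}
    (hC : ∀ v, |b v / (Ideal.absNorm v.asIdeal : ℝ) ^ m| ≤ C) {r : ℝ}
    (h : Tendsto (avg m b) atTop (𝓝 r)) : Tendsto (logAvg m b) atTop (𝓝 r) := by
  have h1 := (bounded_law hC).2.2 r (by
    refine h.congr fun T => ?_
    rw [avg_eq_sumUpTo])
  refine h1.congr fun T => ?_
  rw [logAvg_eq_sumUpTo]

/-- natural averages give logarithmic averages, for the weighted traces -/
theorem weight_log (hm : m ≤ d) (hb₀ : IsTraceOn X d m N b₀) (f : (M ≃ₐ[K] M) → ℝ) {r : ℝ}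
    (h : Tendsto (avg m fun v => f (AlgEquiv.restrictNormal (σ v) M) * b₀ v) atTop (𝓝 r)) :
    Tendsto (logAvg m fun v => f (AlgEquiv.restrictNormal (σ v) M) * b₀ v) atTop (𝓝 r) := by
  have hbd := (bd_tF X d (2 * m) N K).mul (bd_weight (σ := σ) f)
  have hev := weight_norm (σ := σ) hm hb₀ f
  obtain ⟨C, hC⟩ := hbd
  have hfin := Filter.eventually_cofinite.mp hev
  classical
  set C' : ℝ := |C| + ∑ v ∈ hfin.toFinset, |(f (AlgEquiv.restrictNormal (σ v) M) * b₀ v) /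
    (Ideal.absNorm v.asIdeal : ℝ) ^ m| with hC'
  refine logAvg_of_avg m (C := C') (fun v => ?_) h
  have h0 : 0 ≤ ∑ v ∈ hfin.toFinset, |(f (AlgEquiv.restrictNormal (σ v) M) * b₀ v) /
    (Ideal.absNorm v.asIdeal : ℝ) ^ m| := Finset.sum_nonneg fun _ _ => abs_nonneg _
  by_cases hv : v ∈ hfin.toFinset
  · have h1 := Finset.single_le_sum (f := fun v => |(f (AlgEquiv.restrictNormal (σ v) M) * b₀ v) /
      (Ideal.absNorm v.asIdeal : ℝ) ^ m|) (fun v _ => abs_nonneg _) hv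
    have h2 : 0 ≤ |C| := abs_nonneg C
    linarith
  · rw [Set.Finite.mem_toFinset, Set.mem_ofPred_eq, not_not] at hv
    rw [hv]
    have h3 := (hC v).trans (le_abs_self C)
    linarith

variable (hm : m ≤ d) (hσ : ∀ v, IsFrob v (σ v)) (hb₀ : IsTraceOn X d m N b₀)

include hm hσ hb₀ in
/-- the orders over the subfields with cyclic Galois group -/
theorem order_lim (h : ∀ F : IntermediateField K (AlgebraicClosure K), F ≤ M →
      IsCyclic (galSub M F) → ∃ k : ℤ, OrderOver X d (2 * m) N F k)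
    {f : (M ≃ₐ[K] M) → ℝ} (hf : IsDivisionFunction f) :
    ∃ r : ℝ, Tendsto (logAvg m fun v => f (AlgEquiv.restrictNormal (σ v) M) * b₀ v) atTop
      (𝓝 r) := by
  obtain ⟨r, hr⟩ := div_lim (mnA K) (bd_tF X d (2 * m) N K) (fun F _ hFM hc => by
    obtain ⟨k, hk⟩ := h F hFM hc
    exact ⟨-(k : ℝ), order_EA hσ (by omega) hk⟩) hf
  exact ⟨r, (logAvg_iff ((bd_tF X d (2 * m) N K).mul (bd_weight f)) (weight_norm hm hb₀ f) r).mpr hr⟩

include hm hσ hb₀ in
theorem order_rep (ρ : Representation ℚ (M ≃ₐ[K] M) W)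
    (h : ∀ F : IntermediateField K (AlgebraicClosure K), F ≤ M →
      IsCyclic (galSub M F) → OrderOver X d (2 * m) N F (-(fixedDim ρ (galSub M F) : ℤ)))
    {f : (M ≃ₐ[K] M) → ℝ} (hf : IsDivisionFunction f) :
    Tendsto (logAvg m fun v => f (AlgEquiv.restrictNormal (σ v) M) * b₀ v) atTop
      (𝓝 (traceMean ρ f)) := by
  have hr := div_rep (mnA K) (bd_tF X d (2 * m) N K) ρ (fun F _ hFM hc => by
    have h1 := order_EA hσ (show 2 * m ≤ 2 * d by omega) (h F hFM hc)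
    rw [Int.cast_neg, neg_neg, Int.cast_natCast] at h1
    exact h1) hf
  exact (logAvg_iff ((bd_tF X d (2 * m) N K).mul (bd_weight f)) (weight_norm hm hb₀ f) _).mpr hr

include hm hσ hb₀ in
theorem rep_order (ρ : Representation ℚ (M ≃ₐ[K] M) W)
    (h : ∀ f : (M ≃ₐ[K] M) → ℝ, IsDivisionFunction f →
      Tendsto (logAvg m fun v => f (AlgEquiv.restrictNormal (σ v) M) * b₀ v) atTop
        (𝓝 (traceMean ρ f)))
    {F : IntermediateField K (AlgebraicClosure K)} (hFM : F ≤ M) {k : ℤ}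
    (hk : OrderOver X d (2 * m) N F k) : k = -(fixedDim ρ (galSub M F) : ℤ) := by
  have hnf : NumberField F := numberField_of_le hFM
  have h1 := order_EA hσ (show 2 * m ≤ 2 * d by omega) hk
  have h2 := rep_div (E := EA K) (l := 𝓝[>] 1) (t := tF X d (2 * m) N K) (σ := σ) ρ (fun f hf =>
    (logAvg_iff ((bd_tF X d (2 * m) N K).mul (bd_weight f)) (weight_norm hm hb₀ f) _).mp (h f hf))
    hFM
  have h3 := tendsto_nhds_unique h1 h2
  have h4 : (k : ℝ) = -(fixedDim ρ (galSub M F) : ℝ) := by linarith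
  exact_mod_cast h4

end

end Pool.Agent.TH129.EM
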