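import Pool.Agent.W353.TD.Defs

/-!
# Traces of Frobenius over the subfields of a finite Galois extension: definitions

`X` is a smooth projective variety over a number field `K`, of dimension `d`, and `0 ≤ m ≤ d`; for
`m = 1` the classes of codimension `m` are the classes of divisors.
-/

set_option autoImplicit false

namespace Pool.Agent.TH129.EM

open NumberField IsDedekindDomain Filter Topology
open Pool.Agent.W353.EF (IsFrobenius OrderOver)

section
variable {K : Type} [Field K] {l : ℕ} {F : Type} [Field F] [NumberField F]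

/-- `b v` is the trace of the geometric Frobenius at `v` on `H^{2m}(X)`, the sum of its eigenvalues,
for almost all primes `v` of `F`; `N` is the `2m`-th Betti number. -/
def IsTraceOn [Algebra K F] (X : Set (MvPolynomial (Fin l) (𝓞 K))) (d m N : ℕ)
    (b : HeightOneSpectrum (𝓞 F) → ℝ) : Prop :=
  ∀ᶠ v in cofinite, ∃ α : Fin N → ℂ, IsFrobenius X d (2 * m) v α ∧ (b v : ℂ) = ∑ j, α j

/-- `(1 / T) ∑_{q_v ≤ T} b_v log q_v / q_v ^ m` -/
noncomputable def avg (m : ℕ) (b : HeightOneSpectrum (𝓞 F) → ℝ) (T : ℝ) : ℝ :=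
  (∑ᶠ v ∈ {v : HeightOneSpectrum (𝓞 F) | (Ideal.absNorm v.asIdeal : ℝ) ≤ T},
    b v * Real.log (Ideal.absNorm v.asIdeal : ℝ) / (Ideal.absNorm v.asIdeal : ℝ) ^ m) / T

/-- `(1 / log T) ∑_{q_v ≤ T} b_v log q_v / q_v ^ (m + 1)` -/
noncomputable def logAvg (m : ℕ) (b : HeightOneSpectrum (𝓞 F) → ℝ) (T : ℝ) : ℝ :=
  (∑ᶠ v ∈ {v : HeightOneSpectrum (𝓞 F) | (Ideal.absNorm v.asIdeal : ℝ) ≤ T},
    b v * Real.log (Ideal.absNorm v.asIdeal : ℝ) / (Ideal.absNorm v.asIdeal : ℝ) ^ (m + 1)) /
    Real.log T

end

section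
variable {Q : Type*} [Group Q]

/-- `x` and `y` are in the same division: they generate conjugate subgroups -/
def SameDivision (x y : Q) : Prop := ∃ g : Q, Subgroup.zpowers (g * x * g⁻¹) = Subgroup.zpowers y

/-- `f` is constant on the divisions of `Q` -/
def IsDivisionFunction (f : Q → ℝ) : Prop := ∀ x y, SameDivision x y → f x = f y

variable {W : Type} [AddCommGroup W] [Module ℚ W]

/-- the mean value of `f(x) tr(x | W)` -/
noncomputable def traceMean (ρ : Representation ℚ Q W) (f : Q → ℝ) : ℝ :=
  (Nat.card Q : ℝ)⁻¹ * ∑ᶠ x : Q, f x * ((ρ.character x : ℚ) : ℝ)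

/-- the dimension of the space of the elements fixed by `H` -/
noncomputable def fixedDim (ρ : Representation ℚ Q W) (H : Subgroup Q) : ℕ :=
  Module.finrank ℚ (Representation.invariants (ρ.comp H.subtype))

end

section
variable {K : Type} [Field K]

/-- the subgroup of the elements of `Gal(M/K)` fixing the elements of `F` in `M`; for `F ≤ M` it is
`Gal(M/F)` -/
def galSub (M F : IntermediateField K (AlgebraicClosure K)) : Subgroup (M ≃ₐ[K] M) where
  carrier := {g | ∀ x : M, (x : AlgebraicClosure K) ∈ F → g x = x}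
  one_mem' _ _ := rfl
  mul_mem' {a b} ha hb x hx := by
    rw [AlgEquiv.mul_apply, hb x hx, ha x hx]
  inv_mem' {a} ha x hx := by
    have h := ha x hx
    change a.symm x = x
    rw [AlgEquiv.symm_apply_eq, h]

end

section
variable {K : Type} [Field K] {W : Type} [AddCommGroup W] [Module ℚ W]

/-- `W` is a space with an action of `Gal(M/K)`, `A F` a real function for every number field `F ⊇ K`,
and `D f` a real function for every function `f` on `Gal(M/K)`.  The limits of the functions `A F`,
`F ≤ M`, are related to those of `D f`, `f` constant on divisions: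
* if the `A F` converge for the `F` with `Gal(M/F)` cyclic, then all `D f` converge, and conversely;
* if for the `F` with `Gal(M/F)` cyclic the limit of `A F` is the dimension of `W^{Gal(M/F)}`, then for
  all `f` the limit of `D f` is the mean value of `f(x) tr(x | W)`, and conversely;
* and then the limit of `A F` is the dimension of `W^{Gal(M/F)}` for all `F ≤ M`. -/
def DivisionLaw (M : IntermediateField K (AlgebraicClosure K)) (ρ : Representation ℚ (M ≃ₐ[K] M) W)
    (A : ∀ (F : IntermediateField K (AlgebraicClosure K)) [NumberField F], ℝ → ℝ)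
    (D : ((M ≃ₐ[K] M) → ℝ) → ℝ → ℝ) : Prop :=
  ((∀ (F : IntermediateField K (AlgebraicClosure K)) [NumberField F], F ≤ M →
      IsCyclic (galSub M F) → ∃ r : ℝ, Tendsto (A F) atTop (𝓝 r)) ↔
    ∀ f, IsDivisionFunction f → ∃ r : ℝ, Tendsto (D f) atTop (𝓝 r)) ∧
  ((∀ (F : IntermediateField K (AlgebraicClosure K)) [NumberField F], F ≤ M →
      IsCyclic (galSub M F) → Tendsto (A F) atTop (𝓝 (fixedDim ρ (galSub M F)))) ↔
    ∀ f, IsDivisionFunction f → Tendsto (D f) atTop (𝓝 (traceMean ρ f))) ∧
  ((∀ f, IsDivisionFunction f → Tendsto (D f) atTop (𝓝 (traceMean ρ f))) →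
    ∀ (F : IntermediateField K (AlgebraicClosure K)) [NumberField F], F ≤ M →
      Tendsto (A F) atTop (𝓝 (fixedDim ρ (galSub M F))))

end

end Pool.Agent.TH129.EM
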