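import Pool.Agent.TH129.EM.Tau

/-!
# Euler products at the edge of absolute convergence

`E i ε` is the absolute value of the local factor at `s₀ + ε`, `L ε` the absolute value of the
product, `q i` the norm of the place `i`, a prime power.
-/

set_option autoImplicit false

namespace Pool.Agent.TH129.EM

open Filter Topology Set
open Pool.Agent.W263.BSD (stp)

/-- places with norms: finitely many places of given norm -/
structure Places (I : Type*) (q : I → ℕ) : Prop where
  two_le : ∀ i, 2 ≤ q i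
  fin : ∀ n, {i | q i = n}.Finite

section push
variable {I : Type*} {q : I → ℕ} (hq : Places I q)

include hq in
theorem Places.le_fin (N : ℕ) : {i | q i ≤ N}.Finite := by
  have h1 : {i | q i ≤ N} = ⋃ n ∈ Finset.range (N + 1), {i | q i = n} := by
    ext i
    simp only [mem_setOf_eq, Finset.mem_range, mem_iUnion, exists_prop, exists_eq_right']
    omega
  rw [h1]
  exact (Finset.range (N + 1)).finite_toSet.biUnion fun n _ => hq.fin n

/-- the places of norm at most `e^u` -/
noncomputable def Places.upTo (u : ℝ) : Finset I := (hq.le_fin ⌊Real.exp u⌋₊).toFinset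

theorem Places.mem_upTo {u : ℝ} {i : I} : i ∈ hq.upTo u ↔ (q i : ℝ) ≤ Real.exp u := by
  unfold Places.upTo
  rw [Set.Finite.mem_toFinset, mem_setOf_eq, Nat.le_floor_iff (Real.exp_pos u).le]

/-- push forward to the natural numbers -/
noncomputable def Places.push (c : I → ℝ) (n : ℕ) : ℝ := ∑ i ∈ (hq.fin n).toFinset, c i

theorem Places.push_bound {c : I → ℝ} {M : ℝ}
    (hc : ∀ n, ∑ i ∈ (hq.fin n).toFinset, |c i| ≤ M * bst n) :
    ∀ n, |hq.push c n| ≤ M * bst n :=
  fun n => (Finset.abs_sum_le_sum_abs _ _).trans (hc n)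

/-- the fibre bound if the number of places of given norm is bounded -/
theorem Places.fiber_bound {c : I → ℝ} {M : ℝ} {D : ℕ} (hM : 0 ≤ M)
    (hpp : ∀ i, IsPrimePow (q i)) (hD : ∀ n, {i | q i = n}.ncard ≤ D)
    (hc : ∀ i, |c i| ≤ M / q i) :
    ∀ n, ∑ i ∈ (hq.fin n).toFinset, |c i| ≤ D * M * bst n := by
  intro n
  unfold bst
  have h1 : ∀ i ∈ (hq.fin n).toFinset, |c i| ≤ M / n := by
    intro i hi
    have h2 : q i = n := by simpa using hi
    rw [← h2]
    exact hc i
  refine (Finset.sum_le_card_nsmul _ _ _ h1).trans ?_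
  have h3 : (hq.fin n).toFinset.card ≤ D := by
    have := Set.ncard_eq_toFinset_card {i | q i = n} (hq.fin n)
    rw [← this]
    exact hD n
  split_ifs with h
  · have h4 : ((hq.fin n).toFinset.card : ℝ) ≤ D := by exact_mod_cast h3
    have h5 : 0 ≤ M / n := by positivity
    rw [nsmul_eq_mul]
    calc ((hq.fin n).toFinset.card : ℝ) * (M / n) ≤ D * (M / n) :=
          mul_le_mul_of_nonneg_right h4 h5
      _ = _ := by ring
  · have h4 : (hq.fin n).toFinset = ∅ := by
      rw [Finset.eq_empty_iff_forall_notMem]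
      intro i hi
      have h2 : q i = n := by simpa using hi
      exact h (h2 ▸ hpp i)
    rw [h4]
    simp

theorem Places.push_stp (c : I → ℝ) (u : ℝ) : stp (hq.push c) u = ∑ i ∈ hq.upTo u, c i := by
  classical
  unfold stp Places.push
  rw [← Finset.sum_fiberwise_of_maps_to (s := hq.upTo u) (t := Finset.range (⌊Real.exp u⌋₊ + 1))
    (g := q) (f := c)]
  · refine Finset.sum_congr rfl fun n hn => ?_
    refine Finset.sum_congr ?_ fun _ _ => rfl
    ext i
    rw [Set.Finite.mem_toFinset, Finset.mem_filter, hq.mem_upTo, mem_setOf_eq]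
    constructor
    · intro h
      refine ⟨?_, h⟩
      rw [Finset.mem_range] at hn
      rw [h]
      exact (Nat.le_floor_iff (Real.exp_pos u).le).mp (by omega)
    · exact fun h => h.2
  · intro i hi
    rw [hq.mem_upTo] at hi
    rw [Finset.mem_range]
    have := Nat.le_floor hi
    omega

theorem Places.push_fiber (c : I → ℝ) (w : ℝ) (n : ℕ) :
    hq.push c n * (n : ℝ) ^ (-w) = ∑' b : q ⁻¹' {n}, c b * (q b : ℝ) ^ (-w) := by
  have h2 : ∀ b : q ⁻¹' {n}, c b * (q b : ℝ) ^ (-w) = c b * (n : ℝ) ^ (-w) := by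
    intro b
    have : q b = n := b.2
    rw [this]
  rw [tsum_congr h2]
  unfold Places.push
  rw [Finset.sum_mul]
  have h3 : q ⁻¹' {n} = {i | q i = n} := rfl
  have h4 : ((hq.fin n).toFinset : Set I) = q ⁻¹' {n} := by
    rw [Set.Finite.coe_toFinset, h3]
  rw [← h4]
  exact (Finset.tsum_subtype' (hq.fin n).toFinset (fun i => c i * (n : ℝ) ^ (-w))).symm

theorem Places.push_hasSum {c : I → ℝ} {w a : ℝ}
    (h : HasSum (fun i => c i * (q i : ℝ) ^ (-w)) a) :
    HasSum (fun n : ℕ => hq.push c n * (n : ℝ) ^ (-w)) a := by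
  have h1 := h.tsum_fiberwise q
  have e : (fun n : ℕ => hq.push c n * (n : ℝ) ^ (-w)) =
      fun n : ℕ => ∑' b : q ⁻¹' {n}, c b * (q b : ℝ) ^ (-w) := by
    funext n
    exact hq.push_fiber c w n
  rw [e]
  exact h1

/-- summability from the fibres -/
theorem Places.summable_fiber {f : I → ℝ} (hf : ∀ i, 0 ≤ f i) {g : ℕ → ℝ} (hg : Summable g)
    (hg0 : ∀ n, 0 ≤ g n)
    (h : ∀ n, ∑ i ∈ (hq.fin n).toFinset, f i ≤ g n) : Summable f := by
  refine summable_of_sum_le (c := ∑' n : ℕ, g n) hf fun S => ?_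
  classical
  have h1 : ∑ i ∈ S, f i = ∑ n ∈ S.image q, ∑ i ∈ S with q i = n, f i :=
    (Finset.sum_fiberwise_of_maps_to (fun i hi => Finset.mem_image_of_mem q hi) _).symm
  rw [h1]
  have h2 : ∀ n ∈ S.image q, ∑ i ∈ S with q i = n, f i ≤ g n := by
    intro n _
    refine le_trans ?_ (h n)
    refine Finset.sum_le_sum_of_subset_of_nonneg (fun i hi => ?_) fun i _ _ => hf i
    simpa using (Finset.mem_filter.mp hi).2
  exact (Finset.sum_le_sum h2).trans (hg.sum_le_tsum _ fun n _ => hg0 n)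

include hq in
theorem Places.summable {D : ℕ} (hD : ∀ n, {i | q i = n}.ncard ≤ D) {σ : ℝ} (hσ : 1 < σ) :
    Summable fun i => (q i : ℝ) ^ (-σ) := by
  have h0 : Summable fun n : ℕ => (n : ℝ) ^ (-σ) := Real.summable_nat_rpow.mpr (by linarith)
  refine hq.summable_fiber (fun i => Real.rpow_nonneg (Nat.cast_nonneg _) _) (h0.mul_left (D : ℝ))
    (fun n => mul_nonneg (Nat.cast_nonneg _) (Real.rpow_nonneg (Nat.cast_nonneg _) _))
    fun n => ?_
  have h1 : ∀ i ∈ (hq.fin n).toFinset, (q i : ℝ) ^ (-σ) ≤ (n : ℝ) ^ (-σ) := by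
    intro i hi
    have h2 : q i = n := by simpa using hi
    rw [h2]
  refine (Finset.sum_le_card_nsmul _ _ _ h1).trans ?_
  rw [nsmul_eq_mul]
  refine mul_le_mul_of_nonneg_right ?_ (Real.rpow_nonneg (Nat.cast_nonneg _) _)
  have := Set.ncard_eq_toFinset_card {i | q i = n} (hq.fin n)
  have h3 := hD n
  rw [this] at h3
  exact_mod_cast h3

end push

/-- An Euler product at the edge: the first order terms are `c i q_i^{-ε}`, and the sum of the
`|c i|` over the places of norm `n` is at most `M / n`, and zero if `n` is not a prime power. -/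
structure Edge (I : Type*) (q : I → ℕ) (E : I → ℝ → ℝ) (L : ℝ → ℝ) (c : I → ℝ) : Prop where
  places : Places I q
  bound : ∃ M : ℝ, ∀ n, ∑ i ∈ (places.fin n).toFinset, |c i| ≤ M * bst n
  rest : ∃ D : I → ℝ, Summable D ∧ ∀ᶠ ε : ℝ in 𝓝[>] 0, ∀ i, 0 < E i ε ∧
    |Real.log (E i ε) - c i * (q i : ℝ) ^ (-ε)| ≤ D i
  pos : ∀ i, 0 < E i 0
  cont : ∀ i, Tendsto (E i) (𝓝[>] 0) (𝓝 (E i 0))
  prod : ∀ᶠ ε : ℝ in 𝓝[>] 0, HasProd (fun i => E i ε) (L ε)

section edge
variable {I : Type*} {q : I → ℕ} {E : I → ℝ → ℝ} {L : ℝ → ℝ} {c : I → ℝ}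

theorem Edge.c_summable (h : Edge I q E L c) {ε : ℝ} (hε : 0 < ε) :
    Summable fun i => c i * (q i : ℝ) ^ (-ε) := by
  obtain ⟨M, hb⟩ := h.bound
  have hM : 0 ≤ M := by
    have h1 := hb 2
    have h2 : bst 2 = 1 / 2 := by
      unfold bst
      rw [if_pos (Nat.prime_two.isPrimePow)]
      norm_num
    rw [h2] at h1
    have h3 : 0 ≤ ∑ i ∈ (h.places.fin 2).toFinset, |c i| :=
      Finset.sum_nonneg fun i _ => abs_nonneg _
    linarith
  refine Summable.of_norm ?_
  refine h.places.summable_fiber (fun i => norm_nonneg _) ((bst_sum hε).mul_left M)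
    (fun n => mul_nonneg hM (mul_nonneg (bst_nonneg n) (Real.rpow_nonneg (Nat.cast_nonneg n) _)))
    fun n => ?_
  have h1 : ∑ i ∈ (h.places.fin n).toFinset, ‖c i * (q i : ℝ) ^ (-ε)‖ =
      (∑ i ∈ (h.places.fin n).toFinset, |c i|) * (n : ℝ) ^ (-ε) := by
    rw [Finset.sum_mul]
    refine Finset.sum_congr rfl fun i hi => ?_
    have h2 : q i = n := by simpa using hi
    rw [norm_mul, Real.norm_of_nonneg (Real.rpow_nonneg (Nat.cast_nonneg _) _), Real.norm_eq_abs,
      h2]
  rw [h1, ← mul_assoc]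
  exact mul_le_mul_of_nonneg_right (hb n) (Real.rpow_nonneg (Nat.cast_nonneg n) _)

theorem Edge.pow_tendsto {n : ℕ} (hn : 0 < n) : Tendsto (fun ε : ℝ => (n : ℝ) ^ (-ε)) (𝓝[>] 0) (𝓝 1) := by
  have hn' : (0 : ℝ) < n := by exact_mod_cast hn
  have h1 : Continuous fun ε : ℝ => (n : ℝ) ^ (-ε) :=
    Real.continuous_const_rpow hn'.ne' |>.comp continuous_neg
  have h2 := tendsto_nhdsWithin_of_tendsto_nhds (s := Ioi 0) (h1.tendsto 0)
  simpa using h2

/-- the limit of the remainder -/
theorem Edge.remainder (h : Edge I q E L c) :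
    Summable (fun i => Real.log (E i 0) - c i) ∧
    (∀ᶠ ε : ℝ in 𝓝[>] 0, 0 < L ε) ∧
    Tendsto (fun ε : ℝ => Real.log (L ε) - ∑' i, c i * (q i : ℝ) ^ (-ε)) (𝓝[>] 0)
      (𝓝 (∑' i, (Real.log (E i 0) - c i))) := by
  obtain ⟨D, hD, hr⟩ := h.rest
  have hlim : ∀ i, Tendsto (fun ε : ℝ => Real.log (E i ε) - c i * (q i : ℝ) ^ (-ε)) (𝓝[>] 0)
      (𝓝 (Real.log (E i 0) - c i)) := by
    intro i
    have h1 := (h.cont i).log (h.pos i).ne'
    have h2 := (Edge.pow_tendsto (show 0 < q i by have := h.places.two_le i; omega)).const_mul (c i)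
    rw [mul_one] at h2
    exact h1.sub h2
  have hb0 : ∀ i, |Real.log (E i 0) - c i| ≤ D i := by
    intro i
    refine le_of_tendsto (hlim i).abs ?_
    filter_upwards [hr] with ε hε
    exact (hε i).2
  have hexp : ∀ᶠ ε : ℝ in 𝓝[>] 0, 0 < L ε ∧
      Real.log (L ε) - ∑' i, c i * (q i : ℝ) ^ (-ε) =
        ∑' i, (Real.log (E i ε) - c i * (q i : ℝ) ^ (-ε)) := by
    filter_upwards [hr, h.prod, self_mem_nhdsWithin] with ε h1 h2 hε
    have hε0 : (0 : ℝ) < ε := hε
    have h3 : Summable fun i => Real.log (E i ε) - c i * (q i : ℝ) ^ (-ε) :=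
      Summable.of_norm_bounded hD fun i => (h1 i).2
    have h4 := h.c_summable hε0
    have h5 : Summable fun i => Real.log (E i ε) := by
      refine (h3.add h4).congr fun i => ?_
      ring
    have h6 := h5.hasSum.rexp
    have h7 : (fun i => E i ε) = Real.exp ∘ fun i => Real.log (E i ε) := by
      funext i
      exact (Real.exp_log (h1 i).1).symm
    rw [h7] at h2
    have h8 := h2.unique h6
    refine ⟨by rw [h8]; exact Real.exp_pos _, ?_⟩
    rw [h8, Real.log_exp, h5.tsum_sub h4]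
  refine ⟨Summable.of_norm_bounded hD hb0, hexp.mono fun ε h => h.1, ?_⟩
  have h1 : Tendsto (fun ε : ℝ => ∑' i, (Real.log (E i ε) - c i * (q i : ℝ) ^ (-ε))) (𝓝[>] 0)
      (𝓝 (∑' i, (Real.log (E i 0) - c i))) := by
    refine tendsto_tsum_of_dominated_convergence hD hlim ?_
    filter_upwards [hr] with ε hε i
    exact (hε i).2
  refine h1.congr' ?_
  filter_upwards [hexp] with ε hε
  exact hε.2.symm

/-- the remainder in the finite sums -/
theorem Edge.remainder_sum (h : Edge I q E L c) :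
    Tendsto (fun u : ℝ => ∑ i ∈ h.places.upTo u, (Real.log (E i 0) - c i)) atTop
      (𝓝 (∑' i, (Real.log (E i 0) - c i))) := by
  have h1 : Tendsto (fun S : Finset I => ∑ i ∈ S, (Real.log (E i 0) - c i)) atTop
      (𝓝 (∑' i, (Real.log (E i 0) - c i))) := h.remainder.1.hasSum
  refine h1.comp (tendsto_atTop_finset_of_monotone (fun u v huv i hi => ?_) fun i => ?_)
  · rw [h.places.mem_upTo] at hi ⊢
    exact hi.trans (Real.exp_le_exp.mpr huv)
  · refine ⟨Real.log (q i), ?_⟩
    rw [h.places.mem_upTo, Real.exp_log]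
    have := h.places.two_le i
    exact_mod_cast (by omega : 0 < q i)

theorem Edge.push_bound (h : Edge I q E L c) :
    ∃ M' : ℝ, ∀ n, |h.places.push c n| ≤ M' * bst n := by
  obtain ⟨M, hb⟩ := h.bound
  exact ⟨M, h.places.push_bound hb⟩

theorem Edge.push_tsum (h : Edge I q E L c) {ε : ℝ} (hε : 0 < ε) :
    ∑' n : ℕ, h.places.push c n * (n : ℝ) ^ (-ε) = ∑' i, c i * (q i : ℝ) ^ (-ε) :=
  (h.places.push_hasSum (h.c_summable hε).hasSum).tsum_eq

/-- **Mertens law at the edge.** -/
theorem Edge.log_iff (h : Edge I q E L c) (m A : ℝ) :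
    Tendsto (fun ε : ℝ => Real.log (L ε) + m * Real.log ε) (𝓝[>] 0) (𝓝 A) ↔
      Tendsto (fun u : ℝ => (∑ i ∈ h.places.upTo u, Real.log (E i 0)) - m * Real.log u) atTop
        (𝓝 (A + m * Real.eulerMascheroniConstant)) := by
  obtain ⟨M', hM'⟩ := h.push_bound
  set R := ∑' i, (Real.log (E i 0) - c i) with hR
  have h0 := stp_iff hM' m (A - R)
  have h1 : Tendsto (fun ε : ℝ => Real.log (L ε) + m * Real.log ε) (𝓝[>] 0) (𝓝 A) ↔
      Tendsto (fun w : ℝ => (∑' n : ℕ, h.places.push c n * (n : ℝ) ^ (-w)) + m * Real.log w)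
        (𝓝[>] 0) (𝓝 (A - R)) := by
    have h2 := h.remainder.2.2
    constructor
    · intro h3
      refine (h3.sub h2).congr' ?_
      filter_upwards [self_mem_nhdsWithin] with w hw
      rw [h.push_tsum hw]
      ring
    · intro h3
      have h4 := h3.add h2
      rw [sub_add_cancel] at h4
      refine h4.congr' ?_
      filter_upwards [self_mem_nhdsWithin] with w hw
      rw [h.push_tsum hw]
      ring
  have h2 : Tendsto (fun u : ℝ => (∑ i ∈ h.places.upTo u, Real.log (E i 0)) - m * Real.log u) atTop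
      (𝓝 (A + m * Real.eulerMascheroniConstant)) ↔
      Tendsto (fun u : ℝ => stp (h.places.push c) u - m * Real.log u) atTop
        (𝓝 (A - R + m * Real.eulerMascheroniConstant)) := by
    have h3 := h.remainder_sum
    constructor
    · intro h4
      have h5 := h4.sub h3
      rw [show A + m * Real.eulerMascheroniConstant - ∑' i, (Real.log (E i 0) - c i) =
        A - R + m * Real.eulerMascheroniConstant by rw [hR]; ring] at h5
      refine h5.congr fun u => ?_
      rw [h.places.push_stp, Finset.sum_sub_distrib]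
      ring
    · intro h4
      have h5 := h4.add h3
      rw [show A - R + m * Real.eulerMascheroniConstant + ∑' i, (Real.log (E i 0) - c i) =
        A + m * Real.eulerMascheroniConstant by rw [hR]; ring] at h5
      refine h5.congr fun u => ?_
      rw [h.places.push_stp, Finset.sum_sub_distrib]
      ring
  rw [h1, h2, h0]

/-- the sum up to `e^u` and the value at `1 / u` -/
theorem Edge.approx (h : Edge I q E L c) : ∃ C : ℝ, ∀ᶠ u : ℝ in atTop,
    |(∑ i ∈ h.places.upTo u, Real.log (E i 0)) - Real.log (L (1 / u))| ≤ C := by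
  obtain ⟨M', hM'⟩ := h.push_bound
  obtain ⟨C, hC0, hC⟩ := stp_approx hM'
  set R := ∑' i, (Real.log (E i 0) - c i) with hR
  refine ⟨C + 2, ?_⟩
  have h1 := Metric.tendsto_nhds.mp h.remainder_sum 1 one_pos
  have h2 : Tendsto (fun u : ℝ => 1 / u) atTop (𝓝[>] 0) := by
    simp only [one_div]
    exact tendsto_inv_atTop_nhdsGT_zero
  have h3 := h2.eventually (Metric.tendsto_nhds.mp h.remainder.2.2 1 one_pos)
  filter_upwards [h1, h3, eventually_ge_atTop 1] with u e1 e2 hu
  rw [Real.dist_eq] at e1 e2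
  have hu0 : 0 < 1 / u := by positivity
  have e3 := hC u hu
  rw [h.push_tsum hu0, h.places.push_stp] at e3
  rw [Finset.sum_sub_distrib] at e1
  rw [← hR] at e1 e2
  rw [abs_le] at e3 ⊢
  rw [abs_lt] at e1 e2
  constructor <;> linarith [e1.1, e1.2, e2.1, e2.2, e3.1, e3.2]

/-- **Mertens law at the edge**, products. -/
theorem Edge.iff (h : Edge I q E L c) (m : ℝ) {A : ℝ} (hA : 0 < A) :
    Tendsto (fun ε : ℝ => ε ^ m * L ε) (𝓝[>] 0) (𝓝 A) ↔
      Tendsto (fun u : ℝ => (∏ i ∈ h.places.upTo u, E i 0) / u ^ m) atTop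
        (𝓝 (A * Real.exp (m * Real.eulerMascheroniConstant))) := by
  have h0 := h.log_iff m (Real.log A)
  have hB : 0 < A * Real.exp (m * Real.eulerMascheroniConstant) := by positivity
  have hlogB : Real.log (A * Real.exp (m * Real.eulerMascheroniConstant)) =
      Real.log A + m * Real.eulerMascheroniConstant := by
    rw [Real.log_mul hA.ne' (Real.exp_pos _).ne', Real.log_exp]
  have h1 : Tendsto (fun ε : ℝ => ε ^ m * L ε) (𝓝[>] 0) (𝓝 A) ↔
      Tendsto (fun ε : ℝ => Real.log (L ε) + m * Real.log ε) (𝓝[>] 0) (𝓝 (Real.log A)) := by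
    constructor
    · intro h2
      refine (h2.log hA.ne').congr' ?_
      filter_upwards [self_mem_nhdsWithin, h.remainder.2.1] with ε hε hL
      have hε0 : (0 : ℝ) < ε := hε
      rw [Real.log_mul (Real.rpow_pos_of_pos hε0 m).ne' hL.ne', Real.log_rpow hε0]
      ring
    · intro h2
      have h3 := (Real.continuous_exp.tendsto _).comp h2
      rw [Real.exp_log hA] at h3
      refine h3.congr' ?_
      filter_upwards [self_mem_nhdsWithin, h.remainder.2.1] with ε hε hL
      have hε0 : (0 : ℝ) < ε := hε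
      rw [Function.comp_apply, Real.exp_add, Real.exp_log hL, Real.rpow_def_of_pos hε0,
        mul_comm (Real.log ε) m]
      ring
  have h2 : Tendsto (fun u : ℝ => (∏ i ∈ h.places.upTo u, E i 0) / u ^ m) atTop
      (𝓝 (A * Real.exp (m * Real.eulerMascheroniConstant))) ↔
      Tendsto (fun u : ℝ => (∑ i ∈ h.places.upTo u, Real.log (E i 0)) - m * Real.log u) atTop
        (𝓝 (Real.log A + m * Real.eulerMascheroniConstant)) := by
    have hp : ∀ u : ℝ, 0 < ∏ i ∈ h.places.upTo u, E i 0 := fun u =>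
      Finset.prod_pos fun i _ => h.pos i
    have hs : ∀ u : ℝ, ∑ i ∈ h.places.upTo u, Real.log (E i 0) =
        Real.log (∏ i ∈ h.places.upTo u, E i 0) := fun u =>
      (Real.log_prod fun i _ => (h.pos i).ne').symm
    constructor
    · intro h3
      have h4 := h3.log hB.ne'
      rw [hlogB] at h4
      refine h4.congr' ?_
      filter_upwards [eventually_gt_atTop 0] with u hu
      rw [Real.log_div (hp u).ne' (Real.rpow_pos_of_pos hu m).ne', Real.log_rpow hu, hs]
    · intro h3
      rw [← hlogB] at h3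
      have h4 := (Real.continuous_exp.tendsto _).comp h3
      rw [Real.exp_log hB] at h4
      refine h4.congr' ?_
      filter_upwards [eventually_gt_atTop 0] with u hu
      rw [Function.comp_apply, hs, Real.exp_sub, Real.exp_log (hp u), Real.rpow_def_of_pos hu,
        mul_comm (Real.log u) m]
  rw [h1, h2, h0]

end edge

end Pool.Agent.TH129.EM
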