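import Pool.Agent.TH129.EM.Fin
import Pool.Agent.W458.Res

/-!
# Arithmetic schemes: the closed points of `Spec R`, `R` finitely generated over `ℤ`

The number of the maximal ideals with residue field of `n` elements is at most `C n^k` if `R` is
generated by `k` elements and by finitely many elements algebraic over them in a bounded way.
-/

set_option autoImplicit false

namespace Pool.Agent.TH129.EM

open Filter Topology Set Polynomial

section
variable {R : Type} [CommRing R]

/-- `R` is generated as a ring by `t_1, …, t_k` and by finitely many roots `s` of polynomials over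
`ℤ[t_1, …, t_k]` whose leading coefficients are units in `R`. -/
def IsModel (R : Type) [CommRing R] (k : ℕ) : Prop :=
  ∃ (t : Fin k → R) (S : Finset R), Algebra.adjoin ℤ (Set.range t ∪ (S : Set R)) = ⊤ ∧
    ∀ s ∈ S, ∃ P : (MvPolynomial (Fin k) ℤ)[X],
      Polynomial.eval₂ (MvPolynomial.aeval t : MvPolynomial (Fin k) ℤ →ₐ[ℤ] R).toRingHom s P = 0 ∧
      IsUnit ((MvPolynomial.aeval t : MvPolynomial (Fin k) ℤ →ₐ[ℤ] R) P.leadingCoeff)

/-- the number of elements `N(x)` of the residue field of the maximal ideal `x` -/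
noncomputable def mnorm (x : MaximalSpectrum R) : ℕ := Nat.card (R ⧸ x.asIdeal)

/-- the number of homomorphisms to a finite field -/
theorem hom_card {k : ℕ} (h : IsModel R k) : ∃ C : ℕ, ∀ (F : Type) [Field F] [Finite F],
    Finite (R →+* F) ∧ Nat.card (R →+* F) ≤ C * Nat.card F ^ k := by
  classical
  obtain ⟨t, S, hgen, hS⟩ := h
  choose P hP0 hPu using fun s : S => hS s.1 s.2
  refine ⟨∏ s : S, (P s).natDegree, fun F _ _ => ?_⟩
  haveI := Fintype.ofFinite F
  -- the values on the generators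
  have hinj : Function.Injective fun φ : R →+* F =>
      ((fun i => φ (t i)), fun s : S => φ s.1) := by
    intro φ ψ hφ
    simp only [Prod.mk.injEq] at hφ
    have h1 : (φ.toIntAlgHom : R →ₐ[ℤ] F) = ψ.toIntAlgHom := by
      refine AlgHom.ext_of_adjoin_eq_top hgen ?_
      rintro x (⟨i, rfl⟩ | hx)
      · exact congrFun hφ.1 i
      · exact congrFun hφ.2 ⟨x, hx⟩
    ext x
    exact DFunLike.congr_fun h1 x
  haveI : Finite (R →+* F) := Finite.of_injective _ hinj
  refine ⟨inferInstance, ?_⟩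
  -- the roots
  set Z : (Fin k → F) → S → Finset F := fun a s =>
    ((P s).map (MvPolynomial.aeval a : MvPolynomial (Fin k) ℤ →ₐ[ℤ] F).toRingHom).roots.toFinset
    with hZ
  have hZc : ∀ a s, (Z a s).card ≤ (P s).natDegree := by
    intro a s
    refine (Multiset.toFinset_card_le _).trans ((Polynomial.card_roots' _).trans ?_)
    exact Polynomial.natDegree_map_le
  have hcomp : ∀ φ : R →+* F, ∀ p : MvPolynomial (Fin k) ℤ,
      MvPolynomial.aeval (fun i => φ (t i)) p =
        φ (MvPolynomial.aeval t p) := by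
    intro φ p
    have h1 : (MvPolynomial.aeval (fun i => φ (t i)) : MvPolynomial (Fin k) ℤ →ₐ[ℤ] F) =
        (φ.toIntAlgHom).comp (MvPolynomial.aeval t) := by
      refine MvPolynomial.algHom_ext fun i => ?_
      simp
    rw [h1]
    rfl
  have hmem : ∀ φ : R →+* F, ∀ s : S, φ s.1 ∈ Z (fun i => φ (t i)) s := by
    intro φ s
    simp only [hZ]
    rw [Multiset.mem_toFinset, Polynomial.mem_roots']
    constructor
    · intro h0
      have h1 := congrArg (fun p => p.coeff (P s).natDegree) h0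
      simp only [Polynomial.coeff_map, Polynomial.coeff_zero] at h1
      have h2 : φ ((MvPolynomial.aeval t) (P s).leadingCoeff) = 0 := by
        rw [← hcomp φ]
        exact h1
      exact ((hPu s).map φ).ne_zero h2
    · rw [Polynomial.IsRoot.def, Polynomial.eval_map]
      have h1 := congrArg φ (hP0 s)
      rw [map_zero, Polynomial.hom_eval₂] at h1
      rw [← h1]
      congr 1
      ext p
      · simp
      · simp
  -- counting
  haveI : Fintype (R →+* F) := Fintype.ofFinite _
  rw [Nat.card_eq_fintype_card, Nat.card_eq_fintype_card]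
  set W : Finset ((Fin k → F) × (S → F)) := (Finset.univ : Finset (Fin k → F)).biUnion fun a =>
    (Fintype.piFinset (Z a)).image fun b => (a, b) with hW
  have h1 : Fintype.card (R →+* F) ≤ W.card := by
    rw [← Finset.card_univ]
    refine Finset.card_le_card_of_injOn (fun φ : R →+* F =>
      ((fun i => φ (t i)), fun s : S => φ s.1)) (fun φ _ => ?_) hinj.injOn
    rw [hW, Finset.mem_coe, Finset.mem_biUnion]
    refine ⟨fun i => φ (t i), Finset.mem_univ _, ?_⟩
    rw [Finset.mem_image]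
    exact ⟨fun s => φ s.1, Fintype.mem_piFinset.mpr fun s => hmem φ s, rfl⟩
  refine h1.trans (Finset.card_biUnion_le.trans ?_)
  have h3 : ∀ a ∈ (Finset.univ : Finset (Fin k → F)),
      ((Fintype.piFinset (Z a)).image fun b => (a, b)).card ≤ ∏ s : S, (P s).natDegree := by
    intro a _
    refine Finset.card_image_le.trans ?_
    rw [Fintype.card_piFinset]
    exact Finset.prod_le_prod' fun s _ => hZc a s
  refine (Finset.sum_le_card_nsmul _ _ _ h3).trans ?_
  rw [Finset.card_univ, Fintype.card_fun, Fintype.card_fin, smul_eq_mul, mul_comm]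

theorem finite_of_surj {k : ℕ} (h : IsModel R k) {F : Type} [Field F] (φ : R →+* F)
    (hφ : Function.Surjective φ) : Finite F := by
  haveI : Algebra.FiniteType ℤ R := by
    classical
    obtain ⟨t, S, hgen, -⟩ := h
    refine ⟨⟨(Finset.univ.image t) ∪ S, ?_⟩⟩
    rw [← hgen]
    congr 1
    rw [Finset.coe_union, Finset.coe_image, Finset.coe_univ, Set.image_univ]
  haveI : Algebra.FiniteType ℤ F := Algebra.FiniteType.of_surjective φ.toIntAlgHom hφ
  exact Pool.Agent.W458.finite_of_fin_type F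

/-- residue fields are finite -/
theorem quot_finite {k : ℕ} (h : IsModel R k) (x : MaximalSpectrum R) :
    Finite (R ⧸ x.asIdeal) := by
  haveI := x.isMaximal
  letI : Field (R ⧸ x.asIdeal) := Ideal.Quotient.field x.asIdeal
  exact finite_of_surj h (Ideal.Quotient.mk x.asIdeal) Ideal.Quotient.mk_surjective

theorem mnorm_pp {k : ℕ} (h : IsModel R k) (x : MaximalSpectrum R) : IsPrimePow (mnorm x) := by
  haveI := x.isMaximal
  letI : Field (R ⧸ x.asIdeal) := Ideal.Quotient.field x.asIdeal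
  haveI := quot_finite h x
  haveI := Fintype.ofFinite (R ⧸ x.asIdeal)
  unfold mnorm
  rw [Nat.card_eq_fintype_card]
  exact Fintype.isPrimePow_card_of_field

/-- **The number of maximal ideals of norm `n`.** -/
theorem mnorm_fiber {k : ℕ} (h : IsModel R k) : ∃ C : ℕ, ∀ n : ℕ,
    {x : MaximalSpectrum R | mnorm x = n}.Finite ∧
      {x : MaximalSpectrum R | mnorm x = n}.ncard ≤ C * n ^ k := by
  classical
  obtain ⟨C, hC⟩ := hom_card h
  refine ⟨C, fun n => ?_⟩
  rcases Set.eq_empty_or_nonempty {x : MaximalSpectrum R | mnorm x = n} with h0 | ⟨x0, hx0⟩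
  · rw [h0]
    exact ⟨Set.finite_empty, by rw [Set.ncard_empty]; exact Nat.zero_le _⟩
  haveI := x0.isMaximal
  letI : Field (R ⧸ x0.asIdeal) := Ideal.Quotient.field x0.asIdeal
  haveI := quot_finite h x0
  haveI : Fintype (R ⧸ x0.asIdeal) := Fintype.ofFinite _
  have hn : Nat.card (R ⧸ x0.asIdeal) = n := hx0
  obtain ⟨hfin, hcard⟩ := hC (R ⧸ x0.asIdeal)
  have key : ∀ x : MaximalSpectrum R, mnorm x = n → ∃ φ : R →+* (R ⧸ x0.asIdeal),
      RingHom.ker φ = x.asIdeal := by
    intro x hx
    haveI := x.isMaximal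
    letI : Field (R ⧸ x.asIdeal) := Ideal.Quotient.field x.asIdeal
    haveI := quot_finite h x
    haveI : Fintype (R ⧸ x.asIdeal) := Fintype.ofFinite _
    have hx' : Nat.card (R ⧸ x.asIdeal) = n := hx
    have hc : Fintype.card (R ⧸ x.asIdeal) = Fintype.card (R ⧸ x0.asIdeal) := by
      rw [← Nat.card_eq_fintype_card, ← Nat.card_eq_fintype_card, hx', hn]
    set e := FiniteField.ringEquivOfCardEq hc with he
    refine ⟨(e : (R ⧸ x.asIdeal) →+* (R ⧸ x0.asIdeal)).comp (Ideal.Quotient.mk x.asIdeal), ?_⟩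
    rw [RingHom.ker_comp_of_injective _ e.injective, Ideal.mk_ker]
  haveI : Nonempty (R →+* (R ⧸ x0.asIdeal)) := ⟨Ideal.Quotient.mk x0.asIdeal⟩
  choose! Φ hΦ using key
  have hinj : Set.InjOn Φ {x : MaximalSpectrum R | mnorm x = n} := by
    intro x hx y hy hxy
    have h1 := hΦ x hx
    rw [hxy, hΦ y hy] at h1
    exact MaximalSpectrum.ext h1.symm
  haveI := hfin
  have hf : {x : MaximalSpectrum R | mnorm x = n}.Finite :=
    Set.Finite.of_finite_image (Set.toFinite _) hinj
  refine ⟨hf, ?_⟩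
  rw [hn] at hcard
  refine le_trans ?_ hcard
  rw [← Set.ncard_univ]
  exact Set.ncard_le_ncard_of_injOn Φ (fun _ _ => Set.mem_univ _) hinj Set.finite_univ

theorem mnorm_places {k : ℕ} (h : IsModel R k) : Places (MaximalSpectrum R) mnorm where
  two_le := fun x => (mnorm_pp h x).two_le
  fin := fun n => ((mnorm_fiber h).choose_spec n).1

theorem mnorm_fibres {k : ℕ} (h : IsModel R k) :
    Fibres (mnorm_places h) ((k : ℝ) + 1) := by
  obtain ⟨C, hC⟩ := mnorm_fiber h
  refine ⟨C, Nat.cast_nonneg _, fun n => ?_⟩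
  unfold bst
  have h3 : ((mnorm_places h).fin n).toFinset.card ≤ C * n ^ k := by
    have := Set.ncard_eq_toFinset_card {x : MaximalSpectrum R | mnorm x = n}
      ((mnorm_places h).fin n)
    rw [← this]
    exact (hC n).2
  split_ifs with hn
  · have hn0 : (0 : ℝ) < n := by exact_mod_cast hn.pos
    have h4 : (((mnorm_places h).fin n).toFinset.card : ℝ) ≤ C * (n : ℝ) ^ k := by
      exact_mod_cast h3
    refine (mul_le_mul_of_nonneg_right h4 (Real.rpow_nonneg hn0.le _)).trans (le_of_eq ?_)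
    rw [neg_add, Real.rpow_add hn0, Real.rpow_neg_one, Real.rpow_neg hn0.le, Real.rpow_natCast]
    field_simp
  · have h4 : ((mnorm_places h).fin n).toFinset = ∅ := by
      rw [Finset.eq_empty_iff_forall_notMem]
      intro i hi
      have h2 : mnorm i = n := by simpa using hi
      exact hn (h2 ▸ mnorm_pp h i)
    rw [h4]
    simp

end

section
variable {n : ℕ} {R : Type} [CommRing R]

/-- `β_k` is the multiset of the eigenvalues of the geometric Frobenius at the closed point `x` on
`H^k` of the fibre of `X` over `x`, `k = 0, …, 2d`, for a smooth projective `X → Spec R` of relative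
dimension `d`: the `β_k` are finite multisets of complex numbers of absolute value `N(x)^{k/2}`, and
for every finite extension `κ` of the residue field of `x`, of degree `e`, the number of the points of
`X` with coordinates in `κ` is `∑ (-1)^k ∑_{z ∈ β_k} z^e`.  For `k ≤ 2d` they are unique. -/
def IsFrobeniusAt (X : Set (MvPolynomial (Fin n) R)) (d : ℕ) (x : MaximalSpectrum R)
    (β : ℕ → Multiset ℂ) : Prop :=
  (∀ k, ∀ z ∈ β k, ‖z‖ = (mnorm x : ℝ) ^ ((k : ℝ) / 2)) ∧
    ∀ (κ : Type) [Field κ] [Finite κ] (φ : R →+* κ) (e : ℕ), RingHom.ker φ = x.asIdeal →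
      Nat.card κ = mnorm x ^ e →
      (points X φ : ℂ) = ∑ k ∈ Finset.range (2 * d + 1), (-1 : ℂ) ^ k *
        ((β k).map (fun z => z ^ e)).sum

/-- The real polynomials `B x` are the Euler factors of the `L`-function of `H^i` of `X → Spec R`,
and `N` is the `i`-th Betti number of the fibres. -/
def IsEulerSystemOver (X : Set (MvPolynomial (Fin n) R)) (d i N : ℕ)
    (B : MaximalSpectrum R → ℝ[X]) : Prop :=
  ∀ x, ∃ β : ℕ → Multiset ℂ, IsFrobeniusAt X d x β ∧ (β i).card = N ∧
    ∀ z : ℂ, ((B x).map (algebraMap ℝ ℂ)).eval z = ((β i).map fun α => 1 - α * z).prod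

/-- `L(s) = ∏_x B_x(N(x)^{-s})⁻¹` for real `s`, the product over the closed points of `Spec R`. -/
noncomputable def LFunOver (B : MaximalSpectrum R → ℝ[X]) (s : ℝ) : ℝ :=
  ∏' x, ((B x).eval ((mnorm x : ℝ) ^ (-s)))⁻¹

/-- The finite product of the factors with `N(x) ≤ T`, at the point `s`. -/
noncomputable def partialProductOver (B : MaximalSpectrum R → ℝ[X]) (s T : ℝ) : ℝ :=
  ∏ᶠ x ∈ {x : MaximalSpectrum R | (mnorm x : ℝ) ≤ T}, ((B x).eval ((mnorm x : ℝ) ^ (-s)))⁻¹

theorem pprod_facOver (B : MaximalSpectrum R → ℝ[X]) (β δ T : ℝ) :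
    pprod mnorm (fun x => fac mnorm β δ B x 0) T = partialProductOver B (β + δ) T := by
  unfold pprod partialProductOver fac
  simp only [add_zero]

/-- **The law over a finitely generated base.** -/
theorem IsEulerSystemOver.law {k : ℕ} (hR : IsModel R k) {X : Set (MvPolynomial (Fin n) R)}
    {d i N : ℕ} {B : MaximalSpectrum R → ℝ[X]} (hB : IsEulerSystemOver X d i N B) :
    (∀ r A : ℝ, A ≠ 0 →
      (Tendsto (fun ε : ℝ => ε ^ r * LFunOver B ((i : ℝ) / 2 + (k + 1) + ε)) (𝓝[>] 0) (𝓝 A) ↔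
        Tendsto (fun T : ℝ => partialProductOver B ((i : ℝ) / 2 + (k + 1)) T / (Real.log T) ^ r)
          atTop (𝓝 (A * Real.exp (r * Real.eulerMascheroniConstant))))) ∧
    (∃ C : ℝ, ∀ᶠ T : ℝ in atTop,
      |Real.log (abs (partialProductOver B ((i : ℝ) / 2 + (k + 1)) T)) -
        Real.log (abs (LFunOver B ((i : ℝ) / 2 + (k + 1) + 1 / Real.log T)))| ≤ C) ∧
    ∀ Λ : ℂ → ℂ, MeromorphicAt Λ (((i : ℝ) / 2 + (k + 1) : ℝ) : ℂ) →
      (∀ᶠ ε : ℝ in 𝓝[>] 0, Λ ((((i : ℝ) / 2 + (k + 1) : ℝ) : ℂ) + ε) =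
        LFunOver B ((i : ℝ) / 2 + (k + 1) + ε)) →
      ∃ (m : ℤ) (l : ℝ), l ≠ 0 ∧ meromorphicOrderAt Λ (((i : ℝ) / 2 + (k + 1) : ℝ) : ℂ) = m ∧
        meromorphicTrailingCoeffAt Λ (((i : ℝ) / 2 + (k + 1) : ℝ) : ℂ) = l ∧
        Tendsto (fun T : ℝ => partialProductOver B ((i : ℝ) / 2 + (k + 1)) T *
          (Real.log T) ^ (m : ℝ)) atTop (𝓝 (l * Real.exp (-(m * Real.eulerMascheroniConstant)))) := by
  have hs : System (mnorm (R := R)) ((i : ℝ) / 2) (k + 1) N B := by
    have hgood : ∀ x, ∃ s : Multiset ℂ, s.card ≤ N ∧ (∀ α ∈ s, ‖α‖ ≤ (mnorm x : ℝ) ^ ((i : ℝ) / 2)) ∧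
        IsFactor (B x) s := by
      intro x
      obtain ⟨β, h1, h2, h3⟩ := hB x
      exact ⟨β i, h2.le, fun α hα => (h1.1 i α hα).le, h3⟩
    refine ⟨Eventually.of_forall hgood, fun x => ?_⟩
    obtain ⟨s, h1, h2, h3⟩ := hgood x
    have h4 := (local_factor h3 (q := (mnorm x : ℝ)) (δ := (k : ℝ) + 1)
      (by exact_mod_cast (mnorm_pp hR x).two_le) (by linarith [Nat.cast_nonneg (α := ℝ) k]) h1 h2).2
      0 le_rfl
    rw [add_zero] at h4
    exact h4.1.ne'
  obtain ⟨c, hc, -⟩ := System.sedge (mnorm_places hR)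
    (by linarith [Nat.cast_nonneg (α := ℝ) k]) (mnorm_fibres hR) hs
  refine ⟨fun r A hA => ?_, ?_, fun Λ hΛ he => ?_⟩
  · have h1 := hc.iff_x r hA
    simp only [pprod_facOver] at h1
    exact h1
  · obtain ⟨C, hC⟩ := hc.approx_x
    refine ⟨C, ?_⟩
    filter_upwards [hC] with x hx
    rw [Real.log_abs, Real.log_abs]
    rw [pprod_facOver] at hx
    exact hx
  · obtain ⟨m, l, hl, h1, h2, h3⟩ := meromorphic_edge hΛ
      (L := fun ε => LFunOver B ((i : ℝ) / 2 + (k + 1) + ε)) hc.ne_zero he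
    refine ⟨m, l, hl, h1, h2, ?_⟩
    have h4 := (hc.iff_x (-(m : ℝ)) hl).mp h3
    rw [neg_mul] at h4
    refine h4.congr' ?_
    filter_upwards [eventually_gt_atTop 1] with x hx
    rw [pprod_facOver, Real.rpow_neg (Real.log_pos hx).le, div_inv_eq_mul]

end

end Pool.Agent.TH129.EM
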