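import Pool.Agent.TH129.EM.Loc

/-!
# Mertens laws at the edge for varieties over number fields
-/

set_option autoImplicit false

namespace Pool.Agent.TH129.EM

open Filter Topology Set Polynomial NumberField IsDedekindDomain

variable {n : ℕ} {K : Type} [Field K] [NumberField K]

theorem norm_eq (v : HeightOneSpectrum (𝓞 K)) : norm v = (nq v : ℝ) := rfl

/-- almost all norms are large -/
theorem nq_large (b : ℝ) : ∀ᶠ v : HeightOneSpectrum (𝓞 K) in cofinite, b ≤ nq v := by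
  rw [Filter.eventually_cofinite]
  refine ((nq_places (K := K)).le_fin ⌊b⌋₊).subset fun v hv => ?_
  have hv' : ¬ b ≤ nq v := hv
  rw [not_le] at hv'
  rw [mem_setOf_eq]
  exact Nat.le_floor hv'.le

section
variable {X : Set (MvPolynomial (Fin n) (𝓞 K))} {d i N : ℕ} {B : HeightOneSpectrum (𝓞 K) → ℝ[X]}

theorem IsEulerSystem.system (hB : IsEulerSystem X d i N B) :
    System (nq (K := K)) ((i : ℝ) / 2) 1 N B where
  good := by
    filter_upwards [hB.good] with v hv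
    obtain ⟨β, h1, h2, h3⟩ := hv
    refine ⟨β i, h2.le, fun α hα => ?_, h3⟩
    have := h1.1 i α hα
    rw [this]
    exact le_of_eq rfl
  ne := fun v => hB.edge v

theorem LFun_fac (B : HeightOneSpectrum (𝓞 K) → ℝ[X]) (β ε : ℝ) :
    ∏' v, fac nq β 1 B v ε = LFun B (β + 1 + ε) := rfl

theorem pprod_fac (B : HeightOneSpectrum (𝓞 K) → ℝ[X]) (β x : ℝ) :
    pprod nq (fun v => fac nq β 1 B v 0) x = partialProduct B (β + 1) x := by
  unfold pprod partialProduct fac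
  simp only [add_zero]
  rfl

/-- the three parts of the law -/
theorem IsEulerSystem.law (hB : IsEulerSystem X d i N B) :
    (∀ r A : ℝ, A ≠ 0 →
      (Tendsto (fun ε : ℝ => ε ^ r * LFun B ((i : ℝ) / 2 + 1 + ε)) (𝓝[>] 0) (𝓝 A) ↔
        Tendsto (fun x : ℝ => partialProduct B ((i : ℝ) / 2 + 1) x / (Real.log x) ^ r) atTop
          (𝓝 (A * Real.exp (r * Real.eulerMascheroniConstant))))) ∧
    (∃ C : ℝ, ∀ᶠ x : ℝ in atTop, |Real.log (abs (partialProduct B ((i : ℝ) / 2 + 1) x)) -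
      Real.log (abs (LFun B ((i : ℝ) / 2 + 1 + 1 / Real.log x)))| ≤ C) ∧
    ∀ Λ : ℂ → ℂ, MeromorphicAt Λ (((i : ℝ) / 2 + 1 : ℝ) : ℂ) →
      (∀ᶠ ε : ℝ in 𝓝[>] 0, Λ ((((i : ℝ) / 2 + 1 : ℝ) : ℂ) + ε) =
        LFun B ((i : ℝ) / 2 + 1 + ε)) →
      ∃ (m : ℤ) (l : ℝ), l ≠ 0 ∧ meromorphicOrderAt Λ (((i : ℝ) / 2 + 1 : ℝ) : ℂ) = m ∧
        meromorphicTrailingCoeffAt Λ (((i : ℝ) / 2 + 1 : ℝ) : ℂ) = l ∧
        Tendsto (fun x : ℝ => partialProduct B ((i : ℝ) / 2 + 1) x * (Real.log x) ^ (m : ℝ)) atTop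
          (𝓝 (l * Real.exp (-(m * Real.eulerMascheroniConstant)))) := by
  obtain ⟨c, hc, -⟩ := System.sedge (nq_places (K := K)) le_rfl nq_fibres hB.system
  refine ⟨fun r A hA => ?_, ?_, fun Λ hΛ he => ?_⟩
  · have h1 := hc.iff_x r hA
    simp only [pprod_fac] at h1
    exact h1
  · obtain ⟨C, hC⟩ := hc.approx_x
    refine ⟨C, ?_⟩
    filter_upwards [hC] with x hx
    rw [Real.log_abs, Real.log_abs]
    rw [pprod_fac] at hx
    exact hx
  · obtain ⟨m, l, hl, h1, h2, h3⟩ := meromorphic_edge hΛ (L := fun ε => LFun B ((i : ℝ) / 2 + 1 + ε))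
      hc.ne_zero he
    refine ⟨m, l, hl, h1, h2, ?_⟩
    have h4 := (hc.iff_x (-(m : ℝ)) hl).mp h3
    rw [neg_mul] at h4
    refine h4.congr' ?_
    filter_upwards [eventually_gt_atTop 1] with x hx
    rw [pprod_fac, Real.rpow_neg (Real.log_pos hx).le, div_inv_eq_mul]

end

section points
variable {n' : ℕ} {X : Set (MvPolynomial (Fin n) (𝓞 K))} {Y : Set (MvPolynomial (Fin n') (𝓞 K))}
  {d g N : ℕ} {B B' : HeightOneSpectrum (𝓞 K) → ℝ[X]}

/-- the local factor of the product of the numbers of points -/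
noncomputable def pf (X : Set (MvPolynomial (Fin n) (𝓞 K))) (d : ℕ)
    (v : HeightOneSpectrum (𝓞 K)) : ℝ :=
  if residuePoints X v = 0 then 1 else (residuePoints X v : ℝ) / norm v ^ d

theorem nq_pos (v : HeightOneSpectrum (𝓞 K)) : (0 : ℝ) < nq v := by
  have := (nq_places (K := K)).two_le v
  exact_mod_cast (by omega : 0 < nq v)

theorem pf_pos (X : Set (MvPolynomial (Fin n) (𝓞 K))) (d : ℕ) (v : HeightOneSpectrum (𝓞 K)) :
    0 < pf X d v := by
  unfold pf
  split_ifs with h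
  · exact one_pos
  · have h1 : (0 : ℝ) < residuePoints X v := by exact_mod_cast Nat.pos_of_ne_zero h
    have h2 := nq_pos v
    rw [norm_eq]
    positivity

theorem pprod_pf (X : Set (MvPolynomial (Fin n) (𝓞 K))) (d : ℕ) (x : ℝ) :
    pprod nq (pf X d) x = pointProduct X d x := by
  classical
  unfold pprod pointProduct
  have h1 : ∀ v : HeightOneSpectrum (𝓞 K), pf X d v =
      ({v : HeightOneSpectrum (𝓞 K) | residuePoints X v ≠ 0}).mulIndicator
        (fun v => (residuePoints X v : ℝ) / norm v ^ d) v := by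
    intro v
    unfold pf
    rw [Set.mulIndicator_apply]
    simp only [mem_setOf_eq, ne_eq, ite_not]
  rw [finprod_mem_def, finprod_mem_def]
  congr 1
  funext v
  rw [Set.mulIndicator_apply, Set.mulIndicator_apply, h1, Set.mulIndicator_apply]
  simp only [mem_setOf_eq]
  by_cases h2 : ((nq v : ℕ) : ℝ) ≤ x
  · have h2' : norm v ≤ x := h2
    by_cases h3 : residuePoints X v ≠ 0
    · rw [if_pos h2, if_pos h3, if_pos ⟨h2', h3⟩]
    · rw [if_pos h2, if_neg h3, if_neg (fun h => h3 h.2)]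
  · have h2' : ¬ norm v ≤ x := h2
    rw [if_neg h2, if_neg (fun h => h2' h.1)]

/-- the number of points over the residue field from the Frobenius eigenvalues -/
theorem residue_eq {v : HeightOneSpectrum (𝓞 K)} {β : ℕ → Multiset ℂ} (h : IsFrobenius X d v β) :
    (residuePoints X v : ℂ) = ∑ k ∈ Finset.range (2 * d + 1), (-1 : ℂ) ^ k * (β k).sum := by
  letI : Field (𝓞 K ⧸ v.asIdeal) := Ideal.Quotient.field v.asIdeal
  haveI : Finite (𝓞 K ⧸ v.asIdeal) := by
    refine Nat.finite_of_card_ne_zero ?_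
    have h1 : Nat.card (𝓞 K ⧸ v.asIdeal) = Ideal.absNorm v.asIdeal := rfl
    rw [h1, Ne, Ideal.absNorm_eq_zero_iff]
    exact v.ne_bot
  have h1 := h.2 (𝓞 K ⧸ v.asIdeal) (Ideal.Quotient.mk v.asIdeal) 1 (Ideal.mk_ker) (by
    rw [pow_one]; rfl)
  have h2 : ((residuePoints X v : ℕ) : ℂ) = ((points X (Ideal.Quotient.mk v.asIdeal) : ℕ) : ℂ) := rfl
  rw [h2, h1]
  refine Finset.sum_congr rfl fun k _ => ?_
  simp

/-- the local comparison at almost all places -/
theorem local_nf (d' g N : ℕ) : ∃ C : ℝ, ∀ᶠ v : HeightOneSpectrum (𝓞 K) in cofinite,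
    ∀ β : ℕ → Multiset ℂ, IsConnectedFrobenius X (d' + 1) N v β → (β 1).card = 2 * g →
    (β 1).sum.im = 0 → ∀ a : ℕ, (a : ℂ) = ((β 1).map fun z => 1 - z).prod →
    residuePoints X v ≠ 0 ∧ 0 < a ∧ |Real.log (pf X (d' + 1) v) -
      Real.log ((a : ℝ) / norm v ^ g) -
      ((β 2).sum.re - (pairs (β 1)).sum.re) * (nq v : ℝ) ^ (-2 : ℝ)| ≤
        C * (nq v : ℝ) ^ (-(3 / 2) : ℝ) := by
  obtain ⟨C, r0, hr0, h⟩ := local_alb d' g N
  refine ⟨C, ?_⟩
  filter_upwards [nq_large (K := K) ((r0⁻¹) ^ 2)] with v hv β hβ hg him a ha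
  obtain ⟨h1, h2, h3, h4⟩ := hβ
  set Q : ℝ := (nq v : ℝ) with hQ
  have hQ0 : 0 < Q := nq_pos v
  set r : ℝ := Q ^ (-(1 / 2) : ℝ) with hr
  have hr' : 0 < r := Real.rpow_pos_of_pos hQ0 _
  have hrpow : ∀ k : ℕ, r ^ k = Q ^ (-((k : ℝ) / 2)) := by
    intro k
    rw [hr, ← Real.rpow_natCast, ← Real.rpow_mul hQ0.le]
    congr 1
    ring
  have hrr0 : r ≤ r0 := by
    have e1 : r ^ 2 = Q⁻¹ := by
      rw [hrpow 2, show (-(((2 : ℕ) : ℝ) / 2)) = -1 by norm_num, Real.rpow_neg_one]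
    have e2 : r ^ 2 ≤ r0 ^ 2 := by
      rw [e1, inv_le_comm₀ hQ0 (by positivity), ← inv_pow]
      exact hv
    exact (pow_le_pow_iff_left₀ hr'.le hr0.le two_ne_zero).mp e2
  have hnorm : ∀ k, ∀ z ∈ β k, ‖z‖ * r ^ k = 1 := by
    intro k z hz
    rw [h1.1 k z hz, hrpow, norm_eq, ← Real.rpow_add hQ0]
    rw [show (k : ℝ) / 2 + -((k : ℝ) / 2) = 0 by ring, Real.rpow_zero]
  have hpow2 : ∀ m : ℕ, r ^ (2 * m) = (Q ^ m)⁻¹ := by
    intro m
    rw [hrpow, show (-(((2 * m : ℕ) : ℝ) / 2)) = -(m : ℝ) by push_cast; ring, Real.rpow_neg hQ0.le,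
      Real.rpow_natCast]
  have hdual : ∀ k ≤ 2 * (d' + 1), β (2 * (d' + 1) - k) = (β k).map fun z : ℂ =>
      (((r ^ (2 * (d' + 1)))⁻¹ : ℝ) : ℂ) / z := by
    intro k hk
    rw [h4 k hk, hpow2, inv_inv]
    rfl
  obtain ⟨g1, g2, g3⟩ := h r hr' hrr0 β hnorm h2 hdual h3 hg him (residuePoints X v) a
    (residue_eq h1) ha
  refine ⟨g1.ne', g2, ?_⟩
  have e1 : pf X (d' + 1) v = (residuePoints X v : ℝ) * r ^ (2 * (d' + 1)) := by
    unfold pf
    rw [if_neg g1.ne', hpow2, div_eq_mul_inv]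
    rfl
  have e2 : (a : ℝ) / norm v ^ g = (a : ℝ) * r ^ (2 * g) := by
    rw [hpow2, div_eq_mul_inv]
    rfl
  have e3 : Q ^ (-2 : ℝ) = r ^ 4 := by
    rw [hrpow]; congr 1; norm_num
  have e4 : Q ^ (-(3 / 2) : ℝ) = r ^ 3 := by
    rw [hrpow]; norm_num
  rw [e1, e2, e3, e4]
  exact g3

theorem im_zero_of_real {s : Multiset ℂ} (h : ∃ P : ℝ[X], ∀ z : ℂ,
    (P.map (algebraMap ℝ ℂ)).eval z = (s.map fun α => 1 - α * z).prod) : s.sum.im = 0 := by
  obtain ⟨P, hP⟩ := h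
  rw [IsFactor.sum_eq (B := P) hP, Complex.neg_im, Complex.ofReal_im, neg_zero]

/-- **The numbers of points of a variety and of its Albanese variety.** -/
theorem IsAlbaneseSystem.law (hd : d ≠ 0) (h : IsAlbaneseSystem X Y d g N B B') (r : ℝ) :
    (∃ A : ℝ, A ≠ 0 ∧ Tendsto (fun ε : ℝ => ε ^ r * (LFun B (2 + ε) / LFun B' (2 + ε))) (𝓝[>] 0)
      (𝓝 A)) ↔
    ∃ C : ℝ, 0 < C ∧ Tendsto (fun x : ℝ => pointProduct X d x / pointProduct Y g x /
      (Real.log x) ^ r) atTop (𝓝 C) := by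
  obtain ⟨d', rfl⟩ : ∃ d', d = d' + 1 := ⟨d - 1, by omega⟩
  have hs1 : System (nq (K := K)) 1 1 N B := by
    refine ⟨?_, fun v => ?_⟩
    · filter_upwards [h.good] with v hv
      obtain ⟨β, h1, -, -, -, h2, -⟩ := hv
      refine ⟨β 2, h1.2.2.1 2, fun α hα => ?_, h2⟩
      have := h1.1.1 2 α hα
      rw [this, show (((2 : ℕ) : ℝ) / 2) = 1 by norm_num]
      exact le_of_eq rfl
    · have := (h.edge v).1
      rw [show (-(1 + 1 : ℝ)) = -2 by norm_num]
      exact this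
  have hs2 : System (nq (K := K)) 1 1 (N ^ 2) B' := by
    refine ⟨?_, fun v => ?_⟩
    · filter_upwards [h.good] with v hv
      obtain ⟨β, h1, -, -, -, -, h2⟩ := hv
      refine ⟨pairs (β 1), (pairs_card _).trans (Nat.pow_le_pow_left (h1.2.2.1 1) 2),
        fun α hα => ?_, fun z => ?_⟩
      · have := pairs_norm (r := norm v ^ (((1 : ℕ) : ℝ) / 2)) (fun w hw => h1.1.1 1 w hw) α hα
        rw [this, ← Real.rpow_natCast, ← Real.rpow_mul (by rw [norm_eq]; exact (nq_pos v).le)]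
        norm_num
        exact le_of_eq rfl
      · rw [h2 z]
        unfold pairs
        rw [Multiset.map_map]
        rfl
    · have := (h.edge v).2
      rw [show (-(1 + 1 : ℝ)) = -2 by norm_num]
      exact this
  obtain ⟨c, hc, hc'⟩ := System.sedge (nq_places (K := K)) le_rfl nq_fibres hs1
  obtain ⟨e, he, he'⟩ := System.sedge (nq_places (K := K)) le_rfl nq_fibres hs2
  have hce := hc.div he
  set G : HeightOneSpectrum (𝓞 K) → ℝ := fun v => pf X (d' + 1) v / pf Y g v with hG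
  have hGpos : ∀ v, 0 < G v := fun v => div_pos (pf_pos _ _ v) (pf_pos _ _ v)
  obtain ⟨C0, hC0⟩ := local_nf (X := X) (K := K) d' g N
  have hsum : Summable fun v => Real.log (G v) - (c v - e v) := by
    refine Summable.of_norm_bounded_eventually (g := fun v : HeightOneSpectrum (𝓞 K) =>
      C0 * (nq v : ℝ) ^ (-(3 / 2) : ℝ))
      (((nq_places (K := K)).summable (fun m => nq_fiber m) (by norm_num)).mul_left C0) ?_
    filter_upwards [hC0, hc', he', h.good] with v g1 g2 g3 g4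
    obtain ⟨β, h1, h2, h3, h4, h5, h6⟩ := g4
    obtain ⟨k1, k2, k3⟩ := g1 β h1 h2 (im_zero_of_real h3) (residuePoints Y v) h4
    obtain ⟨s, -, -, hs3, hs4⟩ := g2
    obtain ⟨s', -, -, hs3', hs4'⟩ := g3
    have e1 : c v = (β 2).sum.re * (nq v : ℝ) ^ (-2 : ℝ) := by
      rw [hs4, hs3.sum_eq, IsFactor.sum_eq (B := B v) h5]
      norm_num
    have h6' : IsFactor (B' v) (pairs (β 1)) := by
      intro z
      rw [h6 z]
      unfold pairs
      rw [Multiset.map_map]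
      rfl
    have e2 : e v = (pairs (β 1)).sum.re * (nq v : ℝ) ^ (-2 : ℝ) := by
      rw [hs4', hs3'.sum_eq, h6'.sum_eq]
      norm_num
    have e3 : pf Y g v = (residuePoints Y v : ℝ) / norm v ^ g := by
      unfold pf
      rw [if_neg k2.ne']
    rw [Real.norm_eq_abs, e1, e2]
    simp only [hG]
    rw [Real.log_div (pf_pos _ _ v).ne' (pf_pos _ _ v).ne', e3]
    refine le_trans (le_of_eq ?_) k3
    congr 1
    ring
  have key := hce.compare hGpos hsum r
  have e1 : ∀ x : ℝ, pprod nq G x = pointProduct X (d' + 1) x / pointProduct Y g x := by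
    intro x
    rw [← pprod_pf, ← pprod_pf]
    unfold pprod
    have hfin : {v : HeightOneSpectrum (𝓞 K) | ((nq v : ℕ) : ℝ) ≤ x}.Finite := by
      refine ((nq_places (K := K)).le_fin ⌊x⌋₊).subset fun v hv => ?_
      exact Nat.le_floor hv
    exact finprod_mem_div_distrib _ _ hfin
  simp only [e1] at key
  rw [← key]
  have e2 : ∀ᶠ ε : ℝ in 𝓝[>] 0, ∏' v, fac nq 1 1 B v ε / fac nq 1 1 B' v ε =
      LFun B (2 + ε) / LFun B' (2 + ε) := by
    filter_upwards [hc.tprod_div he] with ε h1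
    rw [h1, LFun_fac, LFun_fac]
    norm_num
  constructor
  · rintro ⟨A, hA, h1⟩
    refine ⟨A, hA, h1.congr' ?_⟩
    filter_upwards [e2] with ε h2
    rw [h2]
  · rintro ⟨A, hA, h1⟩
    refine ⟨A, hA, h1.congr' ?_⟩
    filter_upwards [e2] with ε h2
    rw [h2]

/-- **The numbers of points of a variety with `b_1 = 0`.** -/
theorem IsRegularSystem.law (hd : d ≠ 0) (h : IsRegularSystem X d N B) (r : ℝ) :
    (∃ A : ℝ, A ≠ 0 ∧ Tendsto (fun ε : ℝ => ε ^ r * LFun B (2 + ε)) (𝓝[>] 0) (𝓝 A)) ↔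
    ∃ C : ℝ, 0 < C ∧ Tendsto (fun x : ℝ => pointProduct X d x / (Real.log x) ^ r) atTop (𝓝 C) := by
  obtain ⟨d', rfl⟩ : ∃ d', d = d' + 1 := ⟨d - 1, by omega⟩
  have hs1 : System (nq (K := K)) 1 1 N B := by
    refine ⟨?_, fun v => ?_⟩
    · filter_upwards [h.good] with v hv
      obtain ⟨β, h1, -, h2⟩ := hv
      refine ⟨β 2, h1.2.2.1 2, fun α hα => ?_, h2⟩
      have := h1.1.1 2 α hα
      rw [this, show (((2 : ℕ) : ℝ) / 2) = 1 by norm_num]
      exact le_of_eq rfl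
    · have := h.edge v
      rw [show (-(1 + 1 : ℝ)) = -2 by norm_num]
      exact this
  obtain ⟨c, hc, hc'⟩ := System.sedge (nq_places (K := K)) le_rfl nq_fibres hs1
  obtain ⟨C0, hC0⟩ := local_nf (X := X) (K := K) d' 0 N
  have hsum : Summable fun v => Real.log (pf X (d' + 1) v) - c v := by
    refine Summable.of_norm_bounded_eventually (g := fun v : HeightOneSpectrum (𝓞 K) =>
      C0 * (nq v : ℝ) ^ (-(3 / 2) : ℝ))
      (((nq_places (K := K)).summable (fun m => nq_fiber m) (by norm_num)).mul_left C0) ?_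
    filter_upwards [hC0, hc', h.good] with v g1 g2 g4
    obtain ⟨β, h1, h2, h5⟩ := g4
    obtain ⟨k1, k2, k3⟩ := g1 β h1 (by rw [h2]; simp) (by rw [h2]; simp) 1 (by rw [h2]; simp)
    obtain ⟨s, -, -, hs3, hs4⟩ := g2
    have e1 : c v = (β 2).sum.re * (nq v : ℝ) ^ (-2 : ℝ) := by
      rw [hs4, hs3.sum_eq, IsFactor.sum_eq (B := B v) h5]
      norm_num
    rw [Real.norm_eq_abs, e1]
    refine le_trans (le_of_eq ?_) k3
    rw [h2]
    simp [pairs]
  have key := hc.compare (fun v => pf_pos X (d' + 1) v) hsum r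
  simp only [pprod_pf] at key
  rw [← key]
  have e2 : ∀ ε : ℝ, ∏' v, fac nq 1 1 B v ε = LFun B (2 + ε) := by
    intro ε
    rw [LFun_fac]
    norm_num
  simp only [e2]

end points

end Pool.Agent.TH129.EM
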