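import Pool.Agent.TH129.EM.Alb

/-!
# The local comparison of the numbers of points of a variety and of its Albanese variety
-/

set_option autoImplicit false

namespace Pool.Agent.TH129.EM

open Filter Topology Set Polynomial

theorem inv_eq_conj {z : ℂ} {r : ℝ} (h : ‖z‖ * r = 1) :
    z⁻¹ = (r ^ 2 : ℝ) * starRingEnd ℂ z := by
  have h1 : z * starRingEnd ℂ z = ((‖z‖ ^ 2 : ℝ) : ℂ) := by
    rw [Complex.mul_conj, Complex.normSq_eq_norm_sq]
  have h2 : ‖z‖ ^ 2 * r ^ 2 = 1 := by rw [← mul_pow, h, one_pow]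
  have h3 : z * ((r ^ 2 : ℝ) * starRingEnd ℂ z) = 1 := by
    rw [mul_left_comm, h1, ← Complex.ofReal_mul, mul_comm, h2, Complex.ofReal_one]
  exact DivisionMonoid.inv_eq_of_mul _ _ h3

theorem sum_inv {s : Multiset ℂ} {r : ℝ} (h : ∀ z ∈ s, ‖z‖ * r = 1) :
    (s.map fun z => z⁻¹).sum = (r ^ 2 : ℝ) * starRingEnd ℂ s.sum := by
  rw [map_multiset_sum, ← Multiset.sum_map_mul_left]
  congr 1
  exact Multiset.map_congr rfl fun z hz => inv_eq_conj (h z hz)

theorem norm_sum_le {s : Multiset ℂ} {b : ℝ} (h : ∀ z ∈ s, ‖z‖ ≤ b) : ‖s.sum‖ ≤ s.card * b := by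
  refine (norm_multiset_sum_le _).trans ?_
  have h2 : ((s.map fun z => ‖z‖).sum) ≤ (s.map fun z => ‖z‖).card • b := by
    refine Multiset.sum_le_card_nsmul _ _ fun x hx => ?_
    obtain ⟨z, hz, rfl⟩ := Multiset.mem_map.mp hx
    exact h z hz
  rwa [Multiset.card_map, nsmul_eq_mul] at h2

/-- the side of the variety: `x r^{2d} = 1 - t r² + b r⁴ + η` -/
theorem local_x {r : ℝ} (hr : 0 < r) (hr1 : r ≤ 1) {d' N : ℕ} {β : ℕ → Multiset ℂ}
    (hnorm : ∀ k, ∀ z ∈ β k, ‖z‖ * r ^ k = 1) (h0 : β 0 = {1})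
    (hdual : ∀ k ≤ 2 * (d' + 1), β (2 * (d' + 1) - k) = (β k).map fun z : ℂ =>
      (((r ^ (2 * (d' + 1)))⁻¹ : ℝ) : ℂ) / z)
    (hN : ∀ k, (β k).card ≤ N) {x : ℕ}
    (hx : (x : ℂ) = ∑ k ∈ Finset.range (2 * (d' + 1) + 1), (-1 : ℂ) ^ k * (β k).sum) :
    |(x : ℝ) * r ^ (2 * (d' + 1)) - (1 - (β 1).sum.re * r ^ 2 + (β 2).sum.re * r ^ 4)| ≤
      2 * d' * N * r ^ 3 := by
  set Q : ℝ := r ^ (2 * (d' + 1)) with hQ
  have hQ0 : 0 < Q := by positivity
  have hdual' : ∀ k ≤ 2 * (d' + 1), (β (2 * (d' + 1) - k)).sum * (Q : ℂ) =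
      ((β k).map fun z => z⁻¹).sum := by
    intro k hk
    rw [hdual k hk]
    have h1 : ((β k).map fun z => ((Q⁻¹ : ℝ) : ℂ) / z) = (β k).map fun z => ((Q⁻¹ : ℝ) : ℂ) * z⁻¹ := by
      refine Multiset.map_congr rfl fun z _ => ?_
      rw [div_eq_mul_inv]
    rw [h1, Multiset.sum_map_mul_left, mul_comm _ (Q : ℂ), ← mul_assoc, ← Complex.ofReal_mul,
      mul_inv_cancel₀ hQ0.ne', Complex.ofReal_one, one_mul]
  have e0 := hdual' 0 (by omega)
  have e1 := hdual' 1 (by omega)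
  have e2 := hdual' 2 (by omega)
  rw [Nat.sub_zero] at e0
  rw [show 2 * (d' + 1) - 1 = 2 * d' + 1 by omega] at e1
  rw [show 2 * (d' + 1) - 2 = 2 * d' by omega] at e2
  rw [h0, Multiset.map_singleton, Multiset.sum_singleton, inv_one] at e0
  rw [sum_inv (r := r) (fun z hz => by simpa using hnorm 1 z hz)] at e1
  rw [sum_inv (r := r ^ 2) (fun z hz => hnorm 2 z hz)] at e2
  rw [show 2 * (d' + 1) + 1 = 2 * d' + 1 + 1 + 1 by omega, Finset.sum_range_succ,
    Finset.sum_range_succ, Finset.sum_range_succ] at hx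
  have s0 : (-1 : ℂ) ^ (2 * d' + 1 + 1) = 1 := by
    rw [show 2 * d' + 1 + 1 = 2 * (d' + 1) by ring, pow_mul]; simp
  have s1 : (-1 : ℂ) ^ (2 * d' + 1) = -1 := by rw [pow_succ, pow_mul]; simp
  have s2 : (-1 : ℂ) ^ (2 * d') = 1 := by rw [pow_mul]; simp
  rw [s0, s1, s2] at hx
  have hxQ : ((x : ℝ) * Q : ℂ) = (∑ k ∈ Finset.range (2 * d'), (-1 : ℂ) ^ k * (β k).sum) * Q +
      ((r ^ 2) ^ 2 : ℝ) * starRingEnd ℂ (β 2).sum - (r ^ 2 : ℝ) * starRingEnd ℂ (β 1).sum + 1 := by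
    rw [show ((x : ℝ) : ℂ) = (x : ℂ) by simp, hx]
    rw [show 2 * (d' + 1) = 2 * d' + 1 + 1 by ring] at e0
    linear_combination e0 - e1 + e2
  have hre := congrArg Complex.re hxQ
  have hre' : (x : ℝ) * Q - (1 - (β 1).sum.re * r ^ 2 + (β 2).sum.re * r ^ 4) =
      ((∑ k ∈ Finset.range (2 * d'), (-1 : ℂ) ^ k * (β k).sum) * Q).re := by
    rw [← Complex.ofReal_mul, Complex.ofReal_re] at hre
    rw [hre]
    simp only [Complex.add_re, Complex.sub_re, Complex.re_ofReal_mul, Complex.conj_re,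
      Complex.one_re]
    ring
  rw [hre']
  refine (Complex.abs_re_le_norm _).trans ?_
  rw [norm_mul, Complex.norm_real, Real.norm_of_nonneg hQ0.le]
  have hk : ∀ k ∈ Finset.range (2 * d'), ‖(-1 : ℂ) ^ k * (β k).sum‖ ≤ N * r ^ 3 * Q⁻¹ := by
    intro k hk
    rw [Finset.mem_range] at hk
    rw [norm_mul, norm_pow, norm_neg, norm_one, one_pow, one_mul]
    have h1 : ∀ z ∈ β k, ‖z‖ ≤ (r ^ k)⁻¹ := by
      intro z hz
      exact (eq_inv_of_mul_eq_one_left (hnorm k z hz)).le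
    refine (norm_sum_le h1).trans ?_
    have h2 : ((β k).card : ℝ) ≤ N := by exact_mod_cast hN k
    have h3 : (r ^ k)⁻¹ ≤ r ^ 3 * Q⁻¹ := by
      rw [← div_eq_mul_inv, le_div_iff₀ hQ0, inv_mul_le_iff₀ (by positivity), hQ, ← pow_add]
      exact pow_le_pow_of_le_one hr.le hr1 (by omega)
    calc ((β k).card : ℝ) * (r ^ k)⁻¹ ≤ N * (r ^ 3 * Q⁻¹) :=
          mul_le_mul h2 h3 (by positivity) (Nat.cast_nonneg N)
      _ = _ := by ring
  have h4 : ‖∑ k ∈ Finset.range (2 * d'), (-1 : ℂ) ^ k * (β k).sum‖ ≤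
      (2 * d' : ℝ) * (N * r ^ 3 * Q⁻¹) := by
    refine (norm_sum_le_of_le _ hk).trans (le_of_eq ?_)
    rw [Finset.sum_const, Finset.card_range, nsmul_eq_mul]
    push_cast
    ring
  calc ‖∑ k ∈ Finset.range (2 * d'), (-1 : ℂ) ^ k * (β k).sum‖ * Q ≤
        (2 * d' : ℝ) * (N * r ^ 3 * Q⁻¹) * Q := mul_le_mul_of_nonneg_right h4 hQ0.le
    _ = 2 * d' * N * r ^ 3 := by
        have := hQ0.ne'
        field_simp

/-- the side of the Albanese variety -/
theorem local_a {r : ℝ} (hr : 0 < r) (hr1 : r ≤ 1 / 2) {g : ℕ} {s : Multiset ℂ}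
    (hnorm : ∀ z ∈ s, ‖z‖ * r = 1) (hg : s.card = 2 * g) (him : s.sum.im = 0) {a : ℕ}
    (ha : (a : ℂ) = (s.map fun z => 1 - z).prod) :
    0 < a ∧ |Real.log (a * r ^ (2 * g)) - (-(s.sum.re * r ^ 2) - s.sum.re ^ 2 * r ^ 4 / 2 +
      (pairs s).sum.re * r ^ 4)| ≤ s.card * r ^ 3 := by
  have hz0 : ∀ z ∈ s, z ≠ 0 := by
    intro z hz h
    have := hnorm z hz
    rw [h] at this
    simp at this
  have hinv : ∀ w ∈ (s.map fun z => z⁻¹), ‖w‖ ≤ r := by
    intro w hw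
    obtain ⟨z, hz, rfl⟩ := Multiset.mem_map.mp hw
    rw [norm_inv]
    exact (inv_eq_of_mul_eq_one_right (hnorm z hz)).le
  obtain ⟨h1, h2⟩ := ms_log_two _ hr1 hinv
  rw [Multiset.card_map] at h2
  -- product
  have hprod : (s.map fun z => 1 - z).prod = (s.map fun z => -z).prod *
      ((s.map fun z => z⁻¹).map fun w => 1 - w).prod := by
    rw [Multiset.map_map, ← Multiset.prod_map_mul]
    congr 1
    refine Multiset.map_congr rfl fun z hz => ?_
    have := hz0 z hz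
    simp only [Function.comp_apply]
    field_simp
    ring
  have hnp : ‖(s.map fun z => -z).prod‖ * r ^ (2 * g) = 1 := by
    rw [← hg]
    clear h1 h2 hprod ha hinv hg him
    induction s using Multiset.induction_on with
    | empty => simp
    | cons b t ih =>
      have ih' := ih (fun z hz => hnorm z (Multiset.mem_cons_of_mem hz))
        (fun z hz => hz0 z (Multiset.mem_cons_of_mem hz))
      rw [Multiset.map_cons, Multiset.prod_cons, Multiset.card_cons, norm_mul, norm_neg, pow_succ]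
      have h3 := hnorm b (Multiset.mem_cons_self b t)
      calc ‖b‖ * ‖(t.map fun z => -z).prod‖ * (r ^ t.card * r) =
            (‖b‖ * r) * (‖(t.map fun z => -z).prod‖ * r ^ t.card) := by ring
        _ = 1 := by rw [h3, ih', one_mul]
  have hane : (a : ℂ) ≠ 0 := by
    rw [ha, hprod]
    refine mul_ne_zero ?_ h1
    intro h3
    rw [h3] at hnp
    simp at hnp
  have ha0 : 0 < a := Nat.pos_of_ne_zero (by exact_mod_cast hane)
  refine ⟨ha0, ?_⟩
  have hval : (a : ℝ) * r ^ (2 * g) = ‖((s.map fun z => z⁻¹).map fun w => 1 - w).prod‖ := by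
    have h3 : (a : ℝ) = ‖(a : ℂ)‖ := by simp
    rw [h3, ha, hprod, norm_mul]
    calc ‖(s.map fun z => -z).prod‖ * ‖((s.map fun z => z⁻¹).map fun w => 1 - w).prod‖ *
          r ^ (2 * g) = (‖(s.map fun z => -z).prod‖ * r ^ (2 * g)) *
          ‖((s.map fun z => z⁻¹).map fun w => 1 - w).prod‖ := by ring
      _ = _ := by rw [hnp, one_mul]
  rw [hval]
  have hsum : (s.map fun z => z⁻¹).sum.re = s.sum.re * r ^ 2 := by
    rw [sum_inv hnorm, Complex.re_ofReal_mul, Complex.conj_re]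
    ring
  have hsq : ((s.map fun z => z⁻¹).map fun w => w ^ 2).sum.re =
      s.sum.re ^ 2 * r ^ 4 - 2 * ((pairs s).sum.re * r ^ 4) := by
    have e1 : ((s.map fun z => z⁻¹).map fun w => w ^ 2) = s.map fun z =>
        ((r ^ 4 : ℝ) : ℂ) * starRingEnd ℂ (z ^ 2) := by
      rw [Multiset.map_map]
      refine Multiset.map_congr rfl fun z hz => ?_
      simp only [Function.comp_apply]
      rw [inv_eq_conj (hnorm z hz), mul_pow, map_pow, ← Complex.ofReal_pow]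
      congr 2
      ring
    have e2 : (s.map fun z => ((r ^ 4 : ℝ) : ℂ) * starRingEnd ℂ (z ^ 2)).sum =
        ((r ^ 4 : ℝ) : ℂ) * starRingEnd ℂ (s.map fun z => z ^ 2).sum := by
      rw [Multiset.sum_map_mul_left, map_multiset_sum, Multiset.map_map]
      rfl
    rw [e1, e2, Complex.re_ofReal_mul, Complex.conj_re]
    have e3 := congrArg Complex.re (newton_two s)
    rw [Complex.sub_re, show (2 : ℂ) = ((2 : ℝ) : ℂ) by norm_num, Complex.re_ofReal_mul] at e3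
    have e4 : (s.sum ^ 2).re = s.sum.re ^ 2 := by
      rw [sq, Complex.mul_re, him]
      ring
    rw [e4] at e3
    linear_combination (-(r ^ 4)) * e3
  rw [hsum, hsq] at h2
  have e : Real.log ‖((s.map fun z => z⁻¹).map fun w => 1 - w).prod‖ -
      (-(s.sum.re * r ^ 2) - s.sum.re ^ 2 * r ^ 4 / 2 + (pairs s).sum.re * r ^ 4) =
      Real.log ‖((s.map fun z => z⁻¹).map fun w => 1 - w).prod‖ + s.sum.re * r ^ 2 +
      (s.sum.re ^ 2 * r ^ 4 - 2 * ((pairs s).sum.re * r ^ 4)) / 2 := by ring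
  rw [e]
  exact h2

/-- **The local comparison.** -/
theorem local_alb (d' g N : ℕ) : ∃ (C : ℝ) (r0 : ℝ), 0 < r0 ∧ ∀ (r : ℝ), 0 < r → r ≤ r0 →
    ∀ (β : ℕ → Multiset ℂ),
    (∀ k, ∀ z ∈ β k, ‖z‖ * r ^ k = 1) → β 0 = {1} →
    (∀ k ≤ 2 * (d' + 1), β (2 * (d' + 1) - k) = (β k).map fun z : ℂ =>
      (((r ^ (2 * (d' + 1)))⁻¹ : ℝ) : ℂ) / z) →
    (∀ k, (β k).card ≤ N) → (β 1).card = 2 * g → (β 1).sum.im = 0 → ∀ (x a : ℕ),
    (x : ℂ) = ∑ k ∈ Finset.range (2 * (d' + 1) + 1), (-1 : ℂ) ^ k * (β k).sum →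
    (a : ℂ) = ((β 1).map fun z => 1 - z).prod →
    0 < x ∧ 0 < a ∧ |Real.log (x * r ^ (2 * (d' + 1))) - Real.log (a * r ^ (2 * g)) -
      ((β 2).sum.re - (pairs (β 1)).sum.re) * r ^ 4| ≤ C * r ^ 3 := by
  set M : ℝ := (2 * d' + 2) * N + 1 with hM
  have hM1 : 1 ≤ M := by
    rw [hM]
    have : (0 : ℝ) ≤ (2 * d' + 2) * N := by positivity
    linarith
  refine ⟨2 * d' * N + M * (M + N) + M ^ 3 + N, 1 / (2 * M), by positivity, ?_⟩
  intro r hr hr0 β hnorm h0 hdual hN hg him x a hx ha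
  have hM0 : 0 < M := by linarith
  have hrM : r * M ≤ 1 / 2 := by
    rw [le_div_iff₀ (by positivity)] at hr0
    linarith
  have hr1 : r ≤ 1 / 2 := by
    have : r * 1 ≤ r * M := mul_le_mul_of_nonneg_left hM1 hr.le
    linarith
  have hx1 := local_x hr (by linarith) hnorm h0 hdual hN hx
  obtain ⟨ha0, ha1⟩ := local_a hr hr1 (fun z hz => by simpa using hnorm 1 z hz) hg him ha
  set t := (β 1).sum.re with ht
  set b := (β 2).sum.re with hb
  set y : ℝ := (x : ℝ) * r ^ (2 * (d' + 1)) - 1 with hy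
  have hN0 : (0 : ℝ) ≤ N := Nat.cast_nonneg N
  have hd0 : (0 : ℝ) ≤ d' := Nat.cast_nonneg d'
  have ht1 : |t * r ^ 2| ≤ N * r := by
    have e1 : ∀ z ∈ β 1, ‖z‖ ≤ r⁻¹ := by
      intro z hz
      have h2 := hnorm 1 z hz
      rw [pow_one] at h2
      rw [eq_inv_of_mul_eq_one_left h2]
    have e2 : |t| ≤ N * r⁻¹ := by
      refine (Complex.abs_re_le_norm _).trans ((norm_sum_le e1).trans ?_)
      exact mul_le_mul_of_nonneg_right (by exact_mod_cast hN 1) (by positivity)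
    rw [abs_mul, abs_of_pos (by positivity : 0 < r ^ 2)]
    calc |t| * r ^ 2 ≤ N * r⁻¹ * r ^ 2 := mul_le_mul_of_nonneg_right e2 (by positivity)
      _ = N * r := by field_simp
  have hb1 : |b * r ^ 4| ≤ N * r ^ 2 := by
    have e1 : ∀ z ∈ β 2, ‖z‖ ≤ (r ^ 2)⁻¹ := by
      intro z hz
      rw [eq_inv_of_mul_eq_one_left (hnorm 2 z hz)]
    have e2 : |b| ≤ N * (r ^ 2)⁻¹ := by
      refine (Complex.abs_re_le_norm _).trans ((norm_sum_le e1).trans ?_)
      exact mul_le_mul_of_nonneg_right (by exact_mod_cast hN 2) (by positivity)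
    rw [abs_mul, abs_of_pos (by positivity : 0 < r ^ 4)]
    calc |b| * r ^ 4 ≤ N * (r ^ 2)⁻¹ * r ^ 4 := mul_le_mul_of_nonneg_right e2 (by positivity)
      _ = N * r ^ 2 := by field_simp
  -- y
  set η : ℝ := y - (-(t * r ^ 2) + b * r ^ 4) with hη
  have hη1 : |η| ≤ 2 * d' * N * r ^ 3 := by
    refine le_trans (le_of_eq ?_) hx1
    congr 1
    rw [hη, hy]
    ring
  have hr2 : r ^ 2 ≤ r := by nlinarith
  have hr3 : r ^ 3 ≤ r ^ 2 := by nlinarith [sq_nonneg r]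
  have hyt : |y + t * r ^ 2| ≤ M * r ^ 2 := by
    have e1 : y + t * r ^ 2 = η + b * r ^ 4 := by rw [hη]; ring
    rw [e1]
    refine (abs_add_le _ _).trans ?_
    have e2 : 2 * d' * N * r ^ 3 ≤ 2 * d' * N * r ^ 2 := mul_le_mul_of_nonneg_left hr3 (by positivity)
    have e3 : 0 ≤ (N + 1) * r ^ 2 := by positivity
    rw [hM]
    nlinarith
  have hy1 : |y| ≤ M * r := by
    have e1 : y = η + (-(t * r ^ 2) + b * r ^ 4) := by rw [hη]; ring
    rw [e1]
    refine (abs_add_le _ _).trans ?_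
    have e4 : |-(t * r ^ 2) + b * r ^ 4| ≤ N * r + N * r ^ 2 := by
      refine (abs_add_le _ _).trans ?_
      rw [abs_neg]
      exact add_le_add ht1 hb1
    have e2 : 2 * d' * N * r ^ 3 ≤ 2 * d' * N * r := mul_le_mul_of_nonneg_left (hr3.trans hr2) (by positivity)
    have e3 : N * r ^ 2 ≤ N * r := mul_le_mul_of_nonneg_left hr2 hN0
    rw [hM]
    nlinarith
  have hy2 : |y| ≤ 1 / 2 := hy1.trans (by linarith)
  have hyt2 : |y - t * r ^ 2| ≤ (M + N) * r := by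
    refine (abs_sub _ _).trans ?_
    rw [add_mul]
    exact add_le_add hy1 ht1
  have hlog := real_log_two hy2
  have hx2 : (x : ℝ) * r ^ (2 * (d' + 1)) = 1 + y := by rw [hy]; ring
  have hxpos : 0 < x := by
    rcases Nat.eq_zero_or_pos x with h | h
    · exfalso
      rw [h, Nat.cast_zero, zero_mul] at hx2
      have := (abs_le.mp hy2).1
      linarith
    · exact h
  refine ⟨hxpos, ha0, ?_⟩
  rw [hx2]
  have hcub : |y| ^ 3 ≤ M ^ 3 * r ^ 3 := by
    rw [← mul_pow]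
    exact pow_le_pow_left₀ (abs_nonneg _) hy1 3
  have hsq : |y ^ 2 - (t * r ^ 2) ^ 2| ≤ M * (M + N) * r ^ 3 := by
    have e1 : y ^ 2 - (t * r ^ 2) ^ 2 = (y + t * r ^ 2) * (y - t * r ^ 2) := by ring
    rw [e1, abs_mul]
    calc |y + t * r ^ 2| * |y - t * r ^ 2| ≤ (M * r ^ 2) * ((M + N) * r) :=
          mul_le_mul hyt hyt2 (abs_nonneg _) (by positivity)
      _ = _ := by ring
  have hcardN : ((β 1).card : ℝ) * r ^ 3 ≤ N * r ^ 3 :=
    mul_le_mul_of_nonneg_right (by exact_mod_cast hN 1) (by positivity)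
  have hfin : Real.log (1 + y) - Real.log (a * r ^ (2 * g)) - (b - (pairs (β 1)).sum.re) * r ^ 4 =
      (Real.log (1 + y) - y + y ^ 2 / 2) - (Real.log (a * r ^ (2 * g)) -
      (-(t * r ^ 2) - t ^ 2 * r ^ 4 / 2 + (pairs (β 1)).sum.re * r ^ 4)) + η -
      (y ^ 2 - (t * r ^ 2) ^ 2) / 2 := by
    rw [hη]
    ring
  rw [hfin]
  have f1 := abs_le.mp (hlog.trans hcub)
  have f2 := abs_le.mp (ha1.trans hcardN)
  have f3 := abs_le.mp hη1
  have f4 := abs_le.mp hsq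
  rw [abs_le]
  have f5 : 0 ≤ M * (M + N) * r ^ 3 := by positivity
  constructor
  · nlinarith [f1.1, f2.2, f3.1, f4.2]
  · nlinarith [f1.2, f2.1, f3.2, f4.1]

end Pool.Agent.TH129.EM
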