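import Pool.Agent.TH129.EM.Avg2

/-!
# Bounded families over the places: sums `∑ a_v / q_v` and the Dirichlet series `∑ a_v log q_v q_v^{-s}`
-/

set_option autoImplicit false

namespace Pool.Agent.TH129.EM

open Filter Topology Set
open Pool.Agent.W263.BSD (stp)

variable {c : ℕ → ℝ} {M : ℝ}

/-- the Dirichlet series -/
noncomputable def ds (c : ℕ → ℝ) (w : ℝ) : ℝ := ∑' n : ℕ, c n * (n : ℝ) ^ (-w)

theorem term_eq (hc : ∀ n, |c n| ≤ M * bst n) (g : ℕ → ℝ) (w : ℝ) (n : ℕ) (h0 : g 0 = 0) :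
    LSeries.term (fun n => ((g n : ℝ) : ℂ)) (w : ℂ) n = ((g n * (n : ℝ) ^ (-w) : ℝ) : ℂ) := by
  rcases Nat.eq_zero_or_pos n with rfl | hn
  · rw [LSeries.term_zero, h0, zero_mul, Complex.ofReal_zero]
  · rw [LSeries.term_of_ne_zero (by omega), Real.rpow_neg (Nat.cast_nonneg n)]
    push_cast
    rw [Complex.ofReal_cpow (Nat.cast_nonneg n)]
    push_cast
    rw [div_eq_mul_inv]

theorem abscissa_le (hc : ∀ n, |c n| ≤ M * bst n) :
    LSeries.abscissaOfAbsConv (fun n => ((c n : ℝ) : ℂ)) ≤ 0 := by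
  refine LSeries.abscissaOfAbsConv_le_of_forall_lt_LSeriesSummable' ?_
  intro y hy
  have hy0 : (0 : ℝ) < y := by exact_mod_cast hy
  unfold LSeriesSummable
  have h1 := c_sum hc y hy0
  refine Summable.of_norm (h1.congr fun n => ?_)
  rw [term_eq hc c y n (c_zero hc), Complex.norm_real, norm_mul,
    Real.norm_of_nonneg (Real.rpow_nonneg (Nat.cast_nonneg n) _), Real.norm_eq_abs]

theorem ds_hasDerivAt (hc : ∀ n, |c n| ≤ M * bst n) {w : ℝ} (hw : 0 < w) :
    HasDerivAt (ds c) (-ds (clog c) w) w := by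
  have h1 : LSeries.abscissaOfAbsConv (fun n => ((c n : ℝ) : ℂ)) < ((w : ℂ).re : EReal) := by
    refine lt_of_le_of_lt (abscissa_le hc) ?_
    rw [Complex.ofReal_re]
    exact_mod_cast hw
  have h2 := LSeries_hasDerivAt h1
  have h3 := h2.real_of_complex
  have h4 : ∀ x : ℝ, (LSeries (fun n => ((c n : ℝ) : ℂ)) (x : ℂ)).re = ds c x := by
    intro x
    unfold LSeries ds
    rw [tsum_congr fun n => term_eq hc c x n (c_zero hc), ← Complex.ofReal_tsum, Complex.ofReal_re]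
  have h5 : (-LSeries (LSeries.logMul fun n => ((c n : ℝ) : ℂ)) (w : ℂ)).re = -ds (clog c) w := by
    have h6 : (LSeries.logMul fun n => ((c n : ℝ) : ℂ)) = fun n => ((clog c n : ℝ) : ℂ) := by
      funext n
      unfold LSeries.logMul clog
      push_cast
      ring
    have h7 : clog c 0 = 0 := by unfold clog; rw [c_zero hc, zero_mul]
    rw [h6, Complex.neg_re]
    unfold LSeries ds
    rw [tsum_congr fun n => term_eq hc (clog c) w n h7, ← Complex.ofReal_tsum, Complex.ofReal_re]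
  rw [h5] at h3
  have h8 : (fun x : ℝ => (LSeries (fun n => ((c n : ℝ) : ℂ)) (x : ℂ)).re) = ds c := funext h4
  rwa [h8] at h3

/-- a function with bounded derivative near `0` has a limit -/
theorem limit_of_bounded_deriv {F F' : ℝ → ℝ} {δ H : ℝ} (hδ : 0 < δ)
    (hd : ∀ w, 0 < w → w < δ → HasDerivAt F (F' w) w) (hb : ∀ w, 0 < w → w < δ → |F' w| ≤ H) :
    ∃ A, Tendsto F (𝓝[>] 0) (𝓝 A) := by
  have hlip : ∀ x ∈ Ioo 0 δ, ∀ y ∈ Ioo 0 δ, ‖F y - F x‖ ≤ H * ‖y - x‖ := fun x hx y hy =>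
    (convex_Ioo 0 δ).norm_image_sub_le_of_norm_hasDerivWithin_le
      (fun w hw => (hd w hw.1 hw.2).hasDerivWithinAt) (fun w hw => hb w hw.1 hw.2) hx hy
  have hH : 0 ≤ H := (abs_nonneg _).trans (hb (δ / 2) (by linarith) (by linarith))
  have hmem : Ioo 0 δ ∈ 𝓝[>] (0 : ℝ) := Ioo_mem_nhdsGT hδ
  refine cauchy_map_iff_exists_tendsto.mp ?_
  rw [Metric.cauchy_iff]
  refine ⟨inferInstance, fun ε hε => ?_⟩
  set η := min δ (ε / (2 * (H + 1))) with hη
  have hη0 : 0 < η := lt_min hδ (by positivity)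
  refine ⟨F '' Ioo 0 η, Filter.image_mem_map (Ioo_mem_nhdsGT hη0), ?_⟩
  rintro _ ⟨x, hx, rfl⟩ _ ⟨y, hy, rfl⟩
  have hx' : x ∈ Ioo 0 δ := ⟨hx.1, hx.2.trans_le (min_le_left _ _)⟩
  have hy' : y ∈ Ioo 0 δ := ⟨hy.1, hy.2.trans_le (min_le_left _ _)⟩
  have h1 := hlip y hy' x hx'
  rw [Real.dist_eq]
  have h2 : ‖x - y‖ ≤ η := by
    rw [Real.norm_eq_abs, abs_le]
    constructor <;> linarith [hx.1, hx.2, hy.1, hy.2]
  have h3 : H * ‖x - y‖ ≤ H * (ε / (2 * (H + 1))) :=
    mul_le_mul_of_nonneg_left (h2.trans (min_le_right _ _)) hH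
  have h4 : H * (ε / (2 * (H + 1))) ≤ ε / 2 := by
    rw [mul_div_assoc', div_le_div_iff₀ (by positivity) (by norm_num)]
    nlinarith
  rw [Real.norm_eq_abs] at h1
  linarith

/-- **A simple pole of the Dirichlet series with logarithms.** -/
theorem ds_of_log (hc : ∀ n, |c n| ≤ M * bst n) {ρ : ℝ}
    (h : ∃ H : ℝ, ∀ᶠ w : ℝ in 𝓝[>] 0, |ds (clog c) w - ρ / w| ≤ H) :
    ∃ A, Tendsto (fun w : ℝ => ds c w + ρ * Real.log w) (𝓝[>] 0) (𝓝 A) := by
  obtain ⟨H, hH⟩ := h
  obtain ⟨δ, hδ, hδ'⟩ := mem_nhdsGT_iff_exists_Ioo_subset.mp hH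
  have hδ0 : (0 : ℝ) < δ := hδ
  refine limit_of_bounded_deriv (F' := fun w => -ds (clog c) w + ρ * w⁻¹) (H := H) hδ0
    (fun w hw _ => ?_) (fun w hw hw2 => ?_)
  · exact (ds_hasDerivAt hc hw).add ((Real.hasDerivAt_log hw.ne').const_mul ρ)
  · have h1 : |ds (clog c) w - ρ / w| ≤ H := hδ' ⟨hw, hw2⟩
    rw [← abs_neg] at h1
    refine le_trans (le_of_eq ?_) h1
    congr 1
    rw [div_eq_mul_inv]
    ring

/-- the order of magnitude of the series with logarithms -/
theorem ds_log_small (hc : ∀ n, |c n| ≤ M * bst n) :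
    Tendsto (fun w : ℝ => w ^ 2 * ds (clog c) w) (𝓝[>] 0) (𝓝 0) := by
  have hM := M_nonneg hc
  have hb : ∀ n, |bst n| ≤ 1 * bst n := fun n => by
    rw [abs_of_nonneg (bst_nonneg n), one_mul]
  obtain ⟨C1, hC10, hC1⟩ := stp_approx hb
  obtain ⟨C2, hC20, hC2⟩ := stp_diff hb
  -- bound for the series of `bst`
  have h1 : ∀ w : ℝ, 0 < w → w ≤ 1 → ds bst w ≤ stp bst 1 + (Real.log (1 / w) + C2) + C1 := by
    intro w hw hw1
    have hu : 1 ≤ 1 / w := by rwa [le_div_iff₀ hw, one_mul]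
    have e1 := hC1 (1 / w) hu
    rw [one_div_one_div] at e1
    have e2 := hC2 1 (1 / w) le_rfl hu
    rw [div_one, div_one, one_mul] at e2
    have e3 := (abs_le.mp e1).1
    have e4 := (abs_le.mp e2).2
    unfold ds
    linarith
  have h2 : ∀ w : ℝ, 0 < w → |ds (clog c) w| ≤ M * (2 / w) * ds bst (w / 2) := by
    intro w hw
    have hw2 : 0 < w / 2 := half_pos hw
    have hterm : ∀ n : ℕ, ‖clog c n * (n : ℝ) ^ (-w)‖ ≤
        M * (2 / w) * (bst n * (n : ℝ) ^ (-(w / 2))) := by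
      intro n
      rcases Nat.eq_zero_or_pos n with rfl | hn
      · unfold clog
        rw [c_zero hc, zero_mul, zero_mul, norm_zero]
        have := bst_nonneg 0
        positivity
      · have hn' : (0 : ℝ) < n := by exact_mod_cast hn
        have hlog : 0 ≤ Real.log n := Real.log_nonneg (by exact_mod_cast hn)
        unfold clog
        rw [norm_mul, norm_mul, Real.norm_of_nonneg (Real.rpow_nonneg hn'.le _),
          Real.norm_of_nonneg hlog, Real.norm_eq_abs]
        have e1 : Real.log n * (n : ℝ) ^ (-w) ≤ 2 / w * (n : ℝ) ^ (-(w / 2)) := by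
          have e2 : (n : ℝ) ^ (-w) = (n : ℝ) ^ (-(w / 2)) * (n : ℝ) ^ (-(w / 2)) := by
            rw [← Real.rpow_add hn']; congr 1; ring
          have e3 : Real.log n * (n : ℝ) ^ (-(w / 2)) ≤ 2 / w := by
            have e4 := Real.log_le_rpow_div hn'.le hw2
            rw [Real.rpow_neg hn'.le, ← div_eq_mul_inv, div_le_iff₀ (Real.rpow_pos_of_pos hn' _)]
            refine e4.trans (le_of_eq ?_)
            field_simp
          rw [e2, ← mul_assoc]
          exact mul_le_mul_of_nonneg_right e3 (Real.rpow_nonneg hn'.le _)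
        have e5 : 0 ≤ (n : ℝ) ^ (-(w / 2)) := Real.rpow_nonneg hn'.le _
        calc |c n| * Real.log n * (n : ℝ) ^ (-w) = |c n| * (Real.log n * (n : ℝ) ^ (-w)) := by ring
          _ ≤ (M * bst n) * (2 / w * (n : ℝ) ^ (-(w / 2))) :=
              mul_le_mul (hc n) e1 (by positivity) ((abs_nonneg _).trans (hc n))
          _ = _ := by ring
    have hs := ((bst_sum hw2).mul_left (M * (2 / w)))
    have := tsum_of_norm_bounded hs.hasSum hterm
    rw [tsum_mul_left, Real.norm_eq_abs] at this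
    exact this
  have h3 : Tendsto (fun w : ℝ => 2 * M * (w * (stp bst 1 + C2 + C1) - 2 * ((w / 2) * Real.log (w / 2))))
      (𝓝[>] 0) (𝓝 (2 * M * (0 * (stp bst 1 + C2 + C1) - 2 * 0))) := by
    have h4 : Tendsto (fun w : ℝ => w) (𝓝[>] 0) (𝓝 0) :=
      tendsto_nhdsWithin_of_tendsto_nhds tendsto_id
    have h5 : Tendsto (fun w : ℝ => (w / 2) * Real.log (w / 2)) (𝓝[>] 0) (𝓝 0) := by
      have h6 : Tendsto (fun x : ℝ => x * Real.log x) (𝓝 0) (𝓝 0) := by
        have := Real.continuous_mul_log.tendsto 0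
        simpa using this
      have h7 : Tendsto (fun w : ℝ => w / 2) (𝓝[>] 0) (𝓝 0) := by
        have := h4.div_const 2
        rwa [zero_div] at this
      exact h6.comp h7
    exact ((h4.mul_const _).sub (h5.const_mul 2)).const_mul _
  simp only [zero_mul, mul_zero, sub_zero] at h3
  refine squeeze_zero_norm' ?_ h3
  have hlt : ∀ᶠ w : ℝ in 𝓝[>] 0, w < 1 := by
    have := Ioo_mem_nhdsGT (show (0 : ℝ) < 1 from one_pos)
    filter_upwards [this] with w hw
    exact hw.2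
  filter_upwards [self_mem_nhdsWithin, hlt] with w hw hw1
  have hw0 : (0 : ℝ) < w := hw
  have e1 := h2 w hw0
  have e2 := h1 (w / 2) (half_pos hw0) (by linarith)
  have e3 : Real.log (1 / (w / 2)) = -Real.log (w / 2) := by rw [one_div, Real.log_inv]
  rw [e3] at e2
  rw [norm_mul, norm_pow, Real.norm_of_nonneg hw0.le, Real.norm_eq_abs]
  calc w ^ 2 * |ds (clog c) w| ≤ w ^ 2 * (M * (2 / w) *
        (stp bst 1 + (-Real.log (w / 2) + C2) + C1)) := by
        refine mul_le_mul_of_nonneg_left (e1.trans ?_) (by positivity)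
        exact mul_le_mul_of_nonneg_left e2 (by positivity)
    _ = _ := by
        field_simp
        ring

end Pool.Agent.TH129.EM
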