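import Pool.Agent.TH129.EM.Sys

/-!
# The finite places of a number field; meromorphic functions at the edge
-/

set_option autoImplicit false

namespace Pool.Agent.TH129.EM

open Filter Topology Set NumberField IsDedekindDomain

section
variable {K : Type} [Field K] [NumberField K]

/-- the norm `q_v` -/
noncomputable def nq (v : HeightOneSpectrum (𝓞 K)) : ℕ := Ideal.absNorm v.asIdeal

theorem nq_pp (v : HeightOneSpectrum (𝓞 K)) : IsPrimePow (nq v) := by
  have hne : Ideal.absNorm v.asIdeal ≠ 0 := by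
    rw [Ne, Ideal.absNorm_eq_zero_iff]
    exact v.ne_bot
  have hmax : v.asIdeal.IsMaximal := v.isMaximal
  letI : Field (𝓞 K ⧸ v.asIdeal) := Ideal.Quotient.field v.asIdeal
  have hcard : Nat.card (𝓞 K ⧸ v.asIdeal) = nq v := rfl
  haveI : Finite (𝓞 K ⧸ v.asIdeal) := Nat.finite_of_card_ne_zero (by rw [hcard]; exact hne)
  haveI := Fintype.ofFinite (𝓞 K ⧸ v.asIdeal)
  rw [← hcard, Nat.card_eq_fintype_card]
  exact Fintype.isPrimePow_card_of_field

theorem nq_places : Places (HeightOneSpectrum (𝓞 K)) nq where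
  two_le := fun v => (nq_pp v).two_le
  fin := fun n => by
    have h1 : ({v : HeightOneSpectrum (𝓞 K) | nq v = n}).Finite := by
      have h2 := Ideal.finite_setOfPred_absNorm_le (S := 𝓞 K) n
      refine Set.Finite.of_finite_image (f := fun v : HeightOneSpectrum (𝓞 K) => v.asIdeal)
        (h2.subset ?_) ?_
      · rintro _ ⟨v, hv, rfl⟩
        exact le_of_eq hv
      · intro v _ w _ h
        exact HeightOneSpectrum.ext h
    exact h1

theorem nq_fiber (n : ℕ) : {v : HeightOneSpectrum (𝓞 K) | nq v = n}.ncard ≤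
    Module.finrank ℚ K := by
  classical
  rcases Set.eq_empty_or_nonempty {v : HeightOneSpectrum (𝓞 K) | nq v = n} with h | ⟨v0, hv0⟩
  · rw [h, Set.ncard_empty]
    exact Nat.zero_le _
  have hn : IsPrimePow n := by
    have := nq_pp v0
    rwa [show nq v0 = n from hv0] at this
  rw [isPrimePow_nat_iff] at hn
  obtain ⟨p, k, hp, hk, hpk⟩ := hn
  have hp0 : Ideal.span {(p : ℤ)} ≠ ⊥ := by
    simpa using hp.ne_zero
  have hpr : (Ideal.span {(p : ℤ)}).IsPrime := by
    rw [Ideal.span_singleton_prime (by exact_mod_cast hp.ne_zero)]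
    exact Nat.prime_iff_prime_int.mp hp
  haveI hmax : (Ideal.span {(p : ℤ)}).IsMaximal := hpr.isMaximal hp0
  have hover : ∀ v : HeightOneSpectrum (𝓞 K), nq v = n →
      v.asIdeal.LiesOver (Ideal.span {(p : ℤ)}) := by
    intro v hv
    have h1 : ((n : ℕ) : 𝓞 K) ∈ v.asIdeal := by
      rw [← hv]
      exact Ideal.absNorm_mem v.asIdeal
    rw [← hpk, Nat.cast_pow] at h1
    have h2 : (p : 𝓞 K) ∈ v.asIdeal := v.isPrime.mem_of_pow_mem k h1
    refine ⟨?_⟩
    refine hmax.eq_of_le ?_ ?_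
    · exact (Ideal.IsPrime.under ℤ v.asIdeal).ne_top
    · rw [Ideal.span_singleton_le_iff_mem, Ideal.under_def, Ideal.mem_comap]
      simpa using h2
  have h3 := Ideal.card_primesOverFinset_le_finrank (S := 𝓞 K) (K := ℚ) (L := K) hp0
  refine le_trans ?_ h3
  rw [← Set.ncard_coe_finset]
  refine Set.ncard_le_ncard_of_injOn (fun v : HeightOneSpectrum (𝓞 K) => v.asIdeal) ?_ ?_
    (Finset.finite_toSet _)
  · intro v hv
    rw [Finset.mem_coe, IsDedekindDomain.mem_primesOverFinset_iff hp0]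
    exact ⟨v.isPrime, hover v hv⟩
  · intro v _ w _ h
    exact HeightOneSpectrum.ext h

theorem nq_fibres : Fibres (nq_places (K := K)) 1 := by
  refine ⟨Module.finrank ℚ K, Nat.cast_nonneg _, fun n => ?_⟩
  unfold bst
  have h3 : ((nq_places (K := K)).fin n).toFinset.card ≤ Module.finrank ℚ K := by
    have := Set.ncard_eq_toFinset_card {v : HeightOneSpectrum (𝓞 K) | nq v = n}
      ((nq_places (K := K)).fin n)
    rw [← this]
    exact nq_fiber n
  split_ifs with h
  · rw [Real.rpow_neg_one, one_div]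
    exact mul_le_mul_of_nonneg_right (by exact_mod_cast h3) (by positivity)
  · have h4 : ((nq_places (K := K)).fin n).toFinset = ∅ := by
      rw [Finset.eq_empty_iff_forall_notMem]
      intro i hi
      have h2 : nq i = n := by simpa using hi
      exact h (h2 ▸ nq_pp i)
    rw [h4]
    simp

end

/-- **Meromorphic functions at the edge.**  A function meromorphic at the real point `s₀` and equal to
a non-vanishing real function `L` on a segment to the right of `s₀` has a finite order `m` and a real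
leading coefficient. -/
theorem meromorphic_edge {s₀ : ℝ} {Λ : ℂ → ℂ} {L : ℝ → ℝ} (hΛ : MeromorphicAt Λ (s₀ : ℂ))
    (hL : ∀ᶠ ε : ℝ in 𝓝[>] 0, L ε ≠ 0) (he : ∀ᶠ ε : ℝ in 𝓝[>] 0, Λ ((s₀ : ℂ) + ε) = L ε) :
    ∃ (m : ℤ) (l : ℝ), l ≠ 0 ∧ meromorphicOrderAt Λ (s₀ : ℂ) = m ∧
      meromorphicTrailingCoeffAt Λ (s₀ : ℂ) = l ∧
      Tendsto (fun ε : ℝ => ε ^ (-(m : ℝ)) * L ε) (𝓝[>] 0) (𝓝 l) := by
  have hpath : Tendsto (fun ε : ℝ => (s₀ : ℂ) + ε) (𝓝[>] 0) (𝓝[≠] (s₀ : ℂ)) := by
    rw [tendsto_nhdsWithin_iff]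
    constructor
    · have h1 : Continuous fun ε : ℝ => (s₀ : ℂ) + ε := by fun_prop
      have h2 := h1.tendsto 0
      simp only [Complex.ofReal_zero, add_zero] at h2
      exact tendsto_nhdsWithin_of_tendsto_nhds h2
    · filter_upwards [self_mem_nhdsWithin] with ε hε
      have hε0 : (0 : ℝ) < ε := hε
      rw [Set.mem_compl_iff, Set.mem_singleton_iff]
      intro h
      have : (ε : ℂ) = 0 := by simpa using h
      exact hε0.ne' (by exact_mod_cast this)
  have hfin : meromorphicOrderAt Λ (s₀ : ℂ) ≠ ⊤ := by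
    intro htop
    rw [meromorphicOrderAt_eq_top_iff] at htop
    have h1 := hpath.eventually htop
    obtain ⟨ε, h2, h3, h4⟩ := (h1.and (hL.and he)).exists
    rw [h4] at h2
    exact h3 (by exact_mod_cast h2)
  obtain ⟨m, hm⟩ := WithTop.ne_top_iff_exists.mp hfin
  obtain ⟨g, hg1, hg2, hg3⟩ := (meromorphicOrderAt_eq_int_iff hΛ).mp hm.symm
  have htc : meromorphicTrailingCoeffAt Λ (s₀ : ℂ) = g s₀ :=
    AnalyticAt.meromorphicTrailingCoeffAt_of_ne_zero_of_eq_nhdsNE hg1 hg2 (by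
      filter_upwards [hg3] with z hz
      simpa using hz)
  have h1 : Tendsto (fun ε : ℝ => g ((s₀ : ℂ) + ε)) (𝓝[>] 0) (𝓝 (g s₀)) :=
    (hg1.continuousAt.tendsto.comp (tendsto_nhds_of_tendsto_nhdsWithin hpath))
  have h2 : ∀ᶠ ε : ℝ in 𝓝[>] 0, g ((s₀ : ℂ) + ε) = ((ε ^ (-(m : ℝ)) * L ε : ℝ) : ℂ) := by
    filter_upwards [hpath.eventually hg3, he, self_mem_nhdsWithin] with ε h3 h4 hε
    have hε0 : (0 : ℝ) < ε := hε
    have hεc : (ε : ℂ) ≠ 0 := by exact_mod_cast hε0.ne'
    rw [h4, add_sub_cancel_left, smul_eq_mul] at h3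
    have h5 : (ε : ℝ) ^ (-(m : ℝ)) = (ε ^ m)⁻¹ := by
      rw [Real.rpow_neg hε0.le, Real.rpow_intCast]
    push_cast
    rw [h5, h3]
    push_cast
    rw [← mul_assoc, inv_mul_cancel₀ (zpow_ne_zero m hεc), one_mul]
  have h3 : Tendsto (fun ε : ℝ => ((ε ^ (-(m : ℝ)) * L ε : ℝ) : ℂ)) (𝓝[>] 0) (𝓝 (g s₀)) :=
    h1.congr' h2
  have h4 : Tendsto (fun ε : ℝ => ε ^ (-(m : ℝ)) * L ε) (𝓝[>] 0) (𝓝 (g s₀).re) := by
    have := (Complex.continuous_re.tendsto _).comp h3
    refine this.congr fun ε => ?_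
    rw [Function.comp_apply, Complex.ofReal_re]
  have h5 : (g s₀).im = 0 := by
    have h6 := (Complex.continuous_im.tendsto _).comp h3
    have h7 : Tendsto (fun _ : ℝ => (0 : ℝ)) (𝓝[>] 0) (𝓝 (g s₀).im) := by
      refine h6.congr fun ε => ?_
      rw [Function.comp_apply, Complex.ofReal_im]
    exact (tendsto_nhds_unique tendsto_const_nhds h7).symm
  have h6 : g s₀ = ((g s₀).re : ℂ) := Complex.ext rfl (by rw [h5, Complex.ofReal_im])
  refine ⟨m, (g s₀).re, ?_, hm.symm, htc.trans h6, h4⟩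
  intro h7
  rw [h7, Complex.ofReal_zero] at h6
  exact hg2 h6

end Pool.Agent.TH129.EM
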