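import Pool.Agent.TH129.EM.Nag
import Pool.Agent.TH129.EM.Nf

/-!
# Residues and sums over the places, for bounded families
-/

set_option autoImplicit false

namespace Pool.Agent.TH129.EM

open Filter Topology Set NumberField IsDedekindDomain
open Pool.Agent.W263.BSD (stp)

/-- a meromorphic function with `ε² Λ(1 + ε) → 0` has at most a simple pole -/
theorem simple_pole {Λ : ℂ → ℂ} {G : ℝ → ℝ} (hΛ : MeromorphicAt Λ 1)
    (he : ∀ᶠ ε : ℝ in 𝓝[>] 0, Λ (1 + ε) = G ε)
    (hsm : Tendsto (fun ε : ℝ => ε ^ 2 * G ε) (𝓝[>] 0) (𝓝 0)) :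
    ∃ ρ : ℝ, Tendsto (fun z : ℂ => (z - 1) * Λ z) (𝓝[≠] 1) (𝓝 (ρ : ℂ)) ∧
      ∃ H : ℝ, ∀ᶠ ε : ℝ in 𝓝[>] 0, |G ε - ρ / ε| ≤ H := by
  have hpath : Tendsto (fun ε : ℝ => (1 : ℂ) + ε) (𝓝[>] 0) (𝓝[≠] (1 : ℂ)) := by
    rw [tendsto_nhdsWithin_iff]
    constructor
    · have h1 : Continuous fun ε : ℝ => (1 : ℂ) + ε := by fun_prop
      have h2 := h1.tendsto 0
      simp only [Complex.ofReal_zero, add_zero] at h2
      exact tendsto_nhdsWithin_of_tendsto_nhds h2
    · filter_upwards [self_mem_nhdsWithin] with ε hε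
      have hε0 : (0 : ℝ) < ε := hε
      rw [Set.mem_compl_iff, Set.mem_singleton_iff]
      intro h
      have : (ε : ℂ) = 0 := by simpa using h
      exact hε0.ne' (by exact_mod_cast this)
  -- an analytic function equal to `(z - 1) Λ z`
  obtain ⟨g, hg, hgΛ⟩ : ∃ g : ℂ → ℂ, AnalyticAt ℂ g 1 ∧
      ∀ᶠ z in 𝓝[≠] (1 : ℂ), (z - 1) * Λ z = g z := by
    by_cases htop : meromorphicOrderAt Λ 1 = ⊤
    · rw [meromorphicOrderAt_eq_top_iff] at htop
      refine ⟨fun _ => 0, analyticAt_const, ?_⟩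
      filter_upwards [htop] with z hz
      rw [hz, mul_zero]
    · obtain ⟨m, hm⟩ := WithTop.ne_top_iff_exists.mp htop
      obtain ⟨g, hg1, hg2, hg3⟩ := (meromorphicOrderAt_eq_int_iff hΛ).mp hm.symm
      have hm1 : -1 ≤ m := by
        by_contra hcon
        have hm2 : m ≤ -2 := by omega
        obtain ⟨k, hk⟩ : ∃ k : ℕ, m = -2 - (k : ℤ) := ⟨(-2 - m).toNat, by omega⟩
        have h1 : Tendsto (fun ε : ℝ => g ((1 : ℂ) + ε)) (𝓝[>] 0) (𝓝 (g 1)) :=
          (hg1.continuousAt.tendsto.comp (tendsto_nhds_of_tendsto_nhdsWithin hpath))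
        have h2 : Tendsto (fun ε : ℝ => (ε : ℂ) ^ k * ((ε ^ 2 * G ε : ℝ) : ℂ)) (𝓝[>] 0) (𝓝 0) := by
          have e1 : Tendsto (fun ε : ℝ => ((ε ^ 2 * G ε : ℝ) : ℂ)) (𝓝[>] 0) (𝓝 0) := by
            have := (Complex.continuous_ofReal.tendsto 0).comp hsm
            rw [Complex.ofReal_zero] at this
            exact this
          have e2 : Tendsto (fun ε : ℝ => (ε : ℂ) ^ k) (𝓝[>] 0) (𝓝 ((0 : ℂ) ^ k)) := by
            have h3 : Continuous fun ε : ℝ => (ε : ℂ) ^ k := by fun_prop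
            have h4 := h3.tendsto 0
            simp only [Complex.ofReal_zero] at h4
            exact tendsto_nhdsWithin_of_tendsto_nhds h4
          have := e2.mul e1
          rwa [mul_zero] at this
        have h3 : Tendsto (fun ε : ℝ => g ((1 : ℂ) + ε)) (𝓝[>] 0) (𝓝 0) := by
          refine h2.congr' ?_
          filter_upwards [hpath.eventually hg3, he, self_mem_nhdsWithin] with ε h4 h5 hε
          have hε0 : (0 : ℝ) < ε := hε
          have hεc : (ε : ℂ) ≠ 0 := by exact_mod_cast hε0.ne'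
          rw [h5, add_sub_cancel_left, smul_eq_mul, hk] at h4
          push_cast
          rw [h4, zpow_sub₀ hεc, zpow_neg, zpow_natCast]
          have : ((ε : ℂ) ^ (2 : ℤ)) = (ε : ℂ) ^ 2 := by norm_cast
          rw [this]
          field_simp
        exact hg2 (tendsto_nhds_unique h1 h3)
      obtain ⟨k, hk⟩ : ∃ k : ℕ, m = (k : ℤ) - 1 := ⟨(m + 1).toNat, by omega⟩
      refine ⟨fun z => (z - 1) ^ k * g z, ?_, ?_⟩
      · exact ((analyticAt_id.sub analyticAt_const).pow k).mul hg1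
      · filter_upwards [hg3, self_mem_nhdsWithin] with z hz hz1
        have hz0 : z - 1 ≠ 0 := sub_ne_zero.mpr hz1
        rw [hz, smul_eq_mul, hk, zpow_sub_one₀ hz0, zpow_natCast]
        field_simp
  have hpath' := tendsto_nhds_of_tendsto_nhdsWithin hpath
  have h1 : ∀ᶠ ε : ℝ in 𝓝[>] 0, ((ε * G ε : ℝ) : ℂ) = g (1 + ε) := by
    filter_upwards [hpath.eventually hgΛ, he] with ε h2 h3
    rw [← h2, h3, add_sub_cancel_left]
    push_cast
    rfl
  have hlim : Tendsto (fun ε : ℝ => ((ε * G ε : ℝ) : ℂ)) (𝓝[>] 0) (𝓝 (g 1)) := by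
    refine (hg.continuousAt.tendsto.comp hpath').congr' ?_
    filter_upwards [h1] with ε h2
    rw [h2]
    rfl
  have him : (g 1).im = 0 := by
    have h6 := (Complex.continuous_im.tendsto _).comp hlim
    have h7 : Tendsto (fun _ : ℝ => (0 : ℝ)) (𝓝[>] 0) (𝓝 (g 1).im) := by
      refine h6.congr fun ε => ?_
      rw [Function.comp_apply, Complex.ofReal_im]
    exact (tendsto_nhds_unique tendsto_const_nhds h7).symm
  have hre : g 1 = ((g 1).re : ℂ) := Complex.ext rfl (by rw [him, Complex.ofReal_im])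
  refine ⟨(g 1).re, ?_, ?_⟩
  · rw [← hre]
    have h2 : Tendsto g (𝓝[≠] 1) (𝓝 (g 1)) :=
      tendsto_nhdsWithin_of_tendsto_nhds hg.continuousAt.tendsto
    refine h2.congr' ?_
    filter_upwards [hgΛ] with z hz
    rw [hz]
  · have h2 : (fun z : ℂ => g z - g 1) =O[𝓝 1] fun z => z - 1 := hg.differentiableAt.isBigO_sub
    obtain ⟨H, hH⟩ := h2.bound
    refine ⟨H, ?_⟩
    filter_upwards [hpath'.eventually hH, h1, self_mem_nhdsWithin] with ε h3 h4 hε
    have hε0 : (0 : ℝ) < ε := hε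
    rw [← h4, hre, ← Complex.ofReal_sub, Complex.norm_real, add_sub_cancel_left,
      Complex.norm_real, Real.norm_of_nonneg hε0.le, Real.norm_eq_abs] at h3
    have h5 : G ε - (g 1).re / ε = (ε * G ε - (g 1).re) / ε := by field_simp
    rw [h5, abs_div, abs_of_pos hε0, div_le_iff₀ hε0]
    exact h3

section
variable {K : Type} [Field K] [NumberField K]

theorem nq_cast_pos (v : HeightOneSpectrum (𝓞 K)) : (0 : ℝ) < nq v := by
  have := (nq_places (K := K)).two_le v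
  exact_mod_cast (by omega : 0 < nq v)

/-- bounded families -/
theorem bounded_push {a : HeightOneSpectrum (𝓞 K) → ℝ} {C : ℝ} (ha : ∀ v, |a v| ≤ C) :
    ∃ M : ℝ, ∀ n, |(nq_places (K := K)).push (fun v => a v / nq v) n| ≤ M * bst n := by
  rcases isEmpty_or_nonempty (HeightOneSpectrum (𝓞 K)) with h | h
  · refine ⟨0, fun n => ?_⟩
    unfold Places.push
    rw [Finset.sum_eq_zero (fun v _ => (h.false v).elim), abs_zero, zero_mul]
  · obtain ⟨v0⟩ := h
    have hC : 0 ≤ C := (abs_nonneg _).trans (ha v0)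
    refine ⟨_, (nq_places (K := K)).push_bound ((nq_places (K := K)).fiber_bound hC nq_pp nq_fiber
      fun v => ?_)⟩
    rw [abs_div, abs_of_pos (nq_cast_pos v)]
    exact div_le_div_of_nonneg_right (ha v) (nq_cast_pos v).le

theorem bounded_summable {a : HeightOneSpectrum (𝓞 K) → ℝ} {C : ℝ} (ha : ∀ v, |a v| ≤ C) {w : ℝ}
    (hw : 0 < w) : Summable fun v => a v / nq v * (nq v : ℝ) ^ (-w) := by
  have hC := ha
  refine Summable.of_norm_bounded (((nq_places (K := K)).summable (fun n => nq_fiber n)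
    (show 1 < 1 + w by linarith)).mul_left C) fun v => ?_
  have h0 := nq_cast_pos v
  rw [norm_mul, norm_div, Real.norm_of_nonneg h0.le,
    Real.norm_of_nonneg (Real.rpow_nonneg h0.le _), Real.norm_eq_abs, neg_add,
    Real.rpow_add h0, Real.rpow_neg_one]
  have h1 : |a v| / (nq v : ℝ) * (nq v : ℝ) ^ (-w) = |a v| * (((nq v : ℝ))⁻¹ * (nq v : ℝ) ^ (-w)) := by
    rw [div_eq_mul_inv]; ring
  rw [h1]
  exact mul_le_mul_of_nonneg_right (ha v) (mul_nonneg (inv_nonneg.mpr h0.le)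
    (Real.rpow_nonneg h0.le _))

theorem bounded_log_summable {a : HeightOneSpectrum (𝓞 K) → ℝ} {C : ℝ} (ha : ∀ v, |a v| ≤ C)
    {w : ℝ} (hw : 0 < w) :
    Summable fun v => a v / nq v * Real.log (nq v) * (nq v : ℝ) ^ (-w) := by
  have hw2 : 0 < w / 2 := half_pos hw
  refine Summable.of_norm_bounded (((nq_places (K := K)).summable (fun n => nq_fiber n)
    (show 1 < 1 + w / 2 by linarith)).mul_left (C * (2 / w))) fun v => ?_
  have h0 := nq_cast_pos v
  have h2 : (1 : ℝ) ≤ nq v := by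
    have := (nq_places (K := K)).two_le v
    exact_mod_cast (by omega : 1 ≤ nq v)
  have hlog : 0 ≤ Real.log (nq v) := Real.log_nonneg h2
  rw [norm_mul, norm_mul, norm_div, Real.norm_of_nonneg h0.le, Real.norm_of_nonneg hlog,
    Real.norm_of_nonneg (Real.rpow_nonneg h0.le _), Real.norm_eq_abs, neg_add,
    Real.rpow_add h0, Real.rpow_neg_one]
  have e1 : Real.log (nq v) * (nq v : ℝ) ^ (-w) ≤ 2 / w * (nq v : ℝ) ^ (-(w / 2)) := by
    have e2 : (nq v : ℝ) ^ (-w) = (nq v : ℝ) ^ (-(w / 2)) * (nq v : ℝ) ^ (-(w / 2)) := by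
      rw [← Real.rpow_add h0]; congr 1; ring
    have e3 : Real.log (nq v) * (nq v : ℝ) ^ (-(w / 2)) ≤ 2 / w := by
      have e4 := Real.log_le_rpow_div h0.le hw2
      rw [Real.rpow_neg h0.le, ← div_eq_mul_inv, div_le_iff₀ (Real.rpow_pos_of_pos h0 _)]
      refine e4.trans (le_of_eq ?_)
      field_simp
    rw [e2, ← mul_assoc]
    exact mul_le_mul_of_nonneg_right e3 (Real.rpow_nonneg h0.le _)
  have e5 : 0 ≤ (nq v : ℝ) ^ (-(w / 2)) := Real.rpow_nonneg h0.le _
  have e6 : 0 ≤ (nq v : ℝ) ^ (-w) := Real.rpow_nonneg h0.le _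
  calc |a v| / (nq v : ℝ) * Real.log (nq v) * (nq v : ℝ) ^ (-w) =
        |a v| * (((nq v : ℝ))⁻¹ * (Real.log (nq v) * (nq v : ℝ) ^ (-w))) := by
          rw [div_eq_mul_inv]; ring
    _ ≤ C * (((nq v : ℝ))⁻¹ * (2 / w * (nq v : ℝ) ^ (-(w / 2)))) := by
        refine mul_le_mul (ha v) ?_ (by positivity) ((abs_nonneg _).trans (ha v))
        exact mul_le_mul_of_nonneg_left e1 (by positivity)
    _ = _ := by ring

theorem ds_push {a : HeightOneSpectrum (𝓞 K) → ℝ} {C : ℝ} (ha : ∀ v, |a v| ≤ C) {w : ℝ}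
    (hw : 0 < w) : ds ((nq_places (K := K)).push fun v => a v / nq v) w =
      ∑' v, a v / nq v * (nq v : ℝ) ^ (-w) :=
  ((nq_places (K := K)).push_hasSum (bounded_summable ha hw).hasSum).tsum_eq

theorem ds_clog_push {a : HeightOneSpectrum (𝓞 K) → ℝ} {C : ℝ} (ha : ∀ v, |a v| ≤ C) {w : ℝ}
    (hw : 0 < w) : ds (clog ((nq_places (K := K)).push fun v => a v / nq v)) w =
      ∑' v, a v / nq v * Real.log (nq v) * (nq v : ℝ) ^ (-w) := by
  have h1 := ((nq_places (K := K)).push_hasSum (c := fun v => a v / nq v * Real.log (nq v))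
    (bounded_log_summable ha hw).hasSum).tsum_eq
  rw [← h1]
  unfold ds
  refine tsum_congr fun n => ?_
  congr 1
  unfold clog Places.push
  rw [Finset.sum_mul]
  refine Finset.sum_congr rfl fun v hv => ?_
  have h2 : nq v = n := by simpa using hv
  beta_reduce
  rw [h2]

/-- `∑_v a_v q_v^{-s}` -/
noncomputable def dirichlet (a : HeightOneSpectrum (𝓞 K) → ℝ) (s : ℝ) : ℝ :=
  ∑' v, a v * (Ideal.absNorm v.asIdeal : ℝ) ^ (-s)

/-- `∑_v a_v log q_v q_v^{-s}` -/
noncomputable def logDirichlet (a : HeightOneSpectrum (𝓞 K) → ℝ) (s : ℝ) : ℝ :=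
  ∑' v, a v * Real.log (Ideal.absNorm v.asIdeal : ℝ) * (Ideal.absNorm v.asIdeal : ℝ) ^ (-s)

/-- `∑_{q_v ≤ x} g_v` -/
noncomputable def sumUpTo (g : HeightOneSpectrum (𝓞 K) → ℝ) (x : ℝ) : ℝ :=
  ∑ᶠ v ∈ {v : HeightOneSpectrum (𝓞 K) | (Ideal.absNorm v.asIdeal : ℝ) ≤ x}, g v

theorem sumUpTo_eq (g : HeightOneSpectrum (𝓞 K) → ℝ) {T : ℝ} (hT : 0 < T) :
    sumUpTo g T = ∑ v ∈ (nq_places (K := K)).upTo (Real.log T), g v := by
  have h1 : {v : HeightOneSpectrum (𝓞 K) | (Ideal.absNorm v.asIdeal : ℝ) ≤ T} =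
      (((nq_places (K := K)).upTo (Real.log T) : Finset _) : Set (HeightOneSpectrum (𝓞 K))) := by
    ext v
    rw [Finset.mem_coe, (nq_places (K := K)).mem_upTo, Real.exp_log hT]
    rfl
  unfold sumUpTo
  rw [h1]
  exact finsum_mem_coe_finset _ _

theorem dirichlet_eq (a : HeightOneSpectrum (𝓞 K) → ℝ) (w : ℝ) :
    dirichlet a (1 + w) = ∑' v, a v / nq v * (nq v : ℝ) ^ (-w) := by
  unfold dirichlet
  refine tsum_congr fun v => ?_
  have h0 : (0 : ℝ) < (Ideal.absNorm v.asIdeal : ℝ) := nq_cast_pos v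
  rw [neg_add, Real.rpow_add h0, Real.rpow_neg_one, div_eq_mul_inv, mul_assoc]
  rfl

theorem logDirichlet_eq (a : HeightOneSpectrum (𝓞 K) → ℝ) (w : ℝ) :
    logDirichlet a (1 + w) = ∑' v, a v / nq v * Real.log (nq v) * (nq v : ℝ) ^ (-w) := by
  unfold logDirichlet
  refine tsum_congr fun v => ?_
  have h0 : (0 : ℝ) < (Ideal.absNorm v.asIdeal : ℝ) := nq_cast_pos v
  rw [neg_add, Real.rpow_add h0, Real.rpow_neg_one]
  have h1 : (Ideal.absNorm v.asIdeal : ℝ) = (nq v : ℝ) := rfl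
  rw [h1, div_eq_mul_inv]
  ring

/-- **The law for bounded families.** -/
theorem bounded_law {a : HeightOneSpectrum (𝓞 K) → ℝ} {C : ℝ} (ha : ∀ v, |a v| ≤ C) :
    (∀ ρ A : ℝ, Tendsto (fun ε : ℝ => dirichlet a (1 + ε) + ρ * Real.log ε) (𝓝[>] 0) (𝓝 A) ↔
      Tendsto (fun x : ℝ => sumUpTo (fun v => a v / (Ideal.absNorm v.asIdeal : ℝ)) x -
        ρ * Real.log (Real.log x)) atTop (𝓝 (A + ρ * Real.eulerMascheroniConstant))) ∧
    (∀ Λ : ℂ → ℂ, MeromorphicAt Λ 1 →
      (∀ᶠ ε : ℝ in 𝓝[>] 0, Λ (1 + ε) = logDirichlet a (1 + ε)) →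
      ∃ ρ : ℝ, Tendsto (fun z : ℂ => (z - 1) * Λ z) (𝓝[≠] 1) (𝓝 (ρ : ℂ)) ∧
        (∃ A : ℝ, Tendsto (fun x : ℝ => sumUpTo (fun v => a v / (Ideal.absNorm v.asIdeal : ℝ)) x -
          ρ * Real.log (Real.log x)) atTop (𝓝 A)) ∧
        Tendsto (fun x : ℝ => sumUpTo (fun v => a v * Real.log (Ideal.absNorm v.asIdeal : ℝ) /
          (Ideal.absNorm v.asIdeal : ℝ)) x / Real.log x) atTop (𝓝 ρ)) ∧
    ∀ ρ : ℝ, Tendsto (fun x : ℝ => sumUpTo (fun v => a v *
        Real.log (Ideal.absNorm v.asIdeal : ℝ)) x / x) atTop (𝓝 ρ) →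
      Tendsto (fun x : ℝ => sumUpTo (fun v => a v * Real.log (Ideal.absNorm v.asIdeal : ℝ) /
          (Ideal.absNorm v.asIdeal : ℝ)) x / Real.log x) atTop (𝓝 ρ) := by
  obtain ⟨M, hM⟩ := bounded_push ha
  set c := (nq_places (K := K)).push (fun v => a v / nq v) with hc
  have hS : ∀ x : ℝ, 0 < x → sumUpTo (fun v => a v / (Ideal.absNorm v.asIdeal : ℝ)) x =
      stp c (Real.log x) := by
    intro x hx
    rw [sumUpTo_eq _ hx, hc, (nq_places (K := K)).push_stp]
    rfl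
  have hS2 : ∀ x : ℝ, 0 < x → sumUpTo (fun v => a v * Real.log (Ideal.absNorm v.asIdeal : ℝ) /
      (Ideal.absNorm v.asIdeal : ℝ)) x = stp (clog c) (Real.log x) := by
    intro x hx
    rw [sumUpTo_eq _ hx, hc, (nq_places (K := K)).push_log]
    refine Finset.sum_congr rfl fun v _ => ?_
    have h1 : (Ideal.absNorm v.asIdeal : ℝ) = (nq v : ℝ) := rfl
    rw [h1]
    ring
  have key : ∀ ρ A : ℝ, Tendsto (fun ε : ℝ => ds c ε + ρ * Real.log ε) (𝓝[>] 0) (𝓝 A) ↔
      Tendsto (fun x : ℝ => sumUpTo (fun v => a v / (Ideal.absNorm v.asIdeal : ℝ)) x -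
        ρ * Real.log (Real.log x)) atTop (𝓝 (A + ρ * Real.eulerMascheroniConstant)) := by
    intro ρ A
    have h1 := stp_iff hM ρ A
    unfold ds
    rw [h1]
    constructor
    · intro h2
      refine (h2.comp Real.tendsto_log_atTop).congr' ?_
      filter_upwards [eventually_gt_atTop 0] with x hx
      rw [Function.comp_apply, hS x hx]
    · intro h2
      refine (h2.comp Real.tendsto_exp_atTop).congr' ?_
      filter_upwards with u
      rw [Function.comp_apply, hS _ (Real.exp_pos u), Real.log_exp]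
  have hds : ∀ ε : ℝ, 0 < ε → ds c ε = dirichlet a (1 + ε) := by
    intro ε hε
    rw [hc, ds_push ha hε, dirichlet_eq]
  have hds2 : ∀ ε : ℝ, 0 < ε → ds (clog c) ε = logDirichlet a (1 + ε) := by
    intro ε hε
    rw [hc, ds_clog_push ha hε, logDirichlet_eq]
  refine ⟨fun ρ A => ?_, fun Λ hΛ he => ?_, fun ρ hρ => ?_⟩
  · rw [← key]
    constructor
    · intro h2
      refine h2.congr' ?_
      filter_upwards [self_mem_nhdsWithin] with ε hε
      rw [hds ε hε]
    · intro h2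
      refine h2.congr' ?_
      filter_upwards [self_mem_nhdsWithin] with ε hε
      rw [hds ε hε]
  · have he' : ∀ᶠ ε : ℝ in 𝓝[>] 0, Λ (1 + ε) = ds (clog c) ε := by
      filter_upwards [he, self_mem_nhdsWithin] with ε h1 hε
      rw [h1, hds2 ε hε]
    obtain ⟨ρ, h1, h2⟩ := simple_pole hΛ he' (ds_log_small hM)
    obtain ⟨A, hA⟩ := ds_of_log hM h2
    have h3 := (key ρ A).mp hA
    refine ⟨ρ, h1, ⟨_, h3⟩, ?_⟩
    have h4 : Tendsto (fun u : ℝ => stp c u - ρ * Real.log u) atTop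
        (𝓝 (A + ρ * Real.eulerMascheroniConstant)) := (stp_iff hM ρ A).mp hA
    have h5 := (stp_log_avg hM h4).comp Real.tendsto_log_atTop
    refine h5.congr' ?_
    filter_upwards [eventually_gt_atTop 0] with x hx
    rw [Function.comp_apply, hS2 x hx]
  · set b : HeightOneSpectrum (𝓞 K) → ℝ := fun v => a v * Real.log (nq v) with hb
    have h1 : Tendsto (fun u : ℝ => Real.exp (-u) * stp ((nq_places (K := K)).push b) u) atTop
        (𝓝 ρ) := by
      refine (hρ.comp Real.tendsto_exp_atTop).congr fun u => ?_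
      rw [Function.comp_apply, sumUpTo_eq _ (Real.exp_pos u), Real.log_exp,
        (nq_places (K := K)).push_stp, Real.exp_neg, div_eq_mul_inv, mul_comm]
      rfl
    have h0 : (nq_places (K := K)).push b 0 = 0 := by
      unfold Places.push
      refine Finset.sum_eq_zero fun v hv => ?_
      have h2 : nq v = 0 := by simpa using hv
      have := (nq_places (K := K)).two_le v
      omega
    have h2 := (nat_log_avg h0 h1).comp Real.tendsto_log_atTop
    refine h2.congr' ?_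
    filter_upwards [eventually_gt_atTop 0] with x hx
    rw [Function.comp_apply, (nq_places (K := K)).push_div, sumUpTo_eq _ hx]
    rfl

end

end Pool.Agent.TH129.EM
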