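import Pool.Agent.TH129.EM.Nag2
import Pool.Agent.W688.TW.Kara

/-!
# The residue on the real axis and logarithmic averages
-/

set_option autoImplicit false

namespace Pool.Agent.TH129.EM

open Filter Topology Set MeasureTheory
open Pool.Agent.W263.BSD

variable {c : ℕ → ℝ} {M : ℝ}

theorem id_LInt {w : ℝ} (hw : 0 < w) : LInt (fun u => u) w ∧ lap (fun u => u) w = 1 / w ^ 2 := by
  have h1 := Real.integral_rpow_mul_exp_neg_mul_Ioi (a := 2) (r := w) (by norm_num) hw
  have h2 : ∀ t : ℝ, t ^ ((2 : ℝ) - 1) * Real.exp (-(w * t)) = t * Real.exp (-(w * t)) := by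
    intro t
    rw [show (2 : ℝ) - 1 = 1 by norm_num, Real.rpow_one]
  simp only [h2] at h1
  have h3 : ∫ t in Ioi (0 : ℝ), t * Real.exp (-(w * t)) = 1 / w ^ 2 := by
    rw [h1, Real.Gamma_two, mul_one, ← Real.rpow_natCast w 2]
    rw [Real.div_rpow zero_le_one hw.le, Real.one_rpow]
    norm_num
  refine ⟨?_, h3⟩
  unfold LInt
  by_contra hcon
  have h4 := integral_undef hcon
  rw [h4] at h3
  have : 0 < 1 / w ^ 2 := by positivity
  linarith

/-- an Abelian theorem for functions of linear growth -/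
theorem abel_linear {f : ℝ → ℝ} (hi : ∀ w > 0, LInt f w)
    (hloc : ∀ U : ℝ, ∃ B : ℝ, ∀ u, 0 < u → u ≤ U → |f u| ≤ B) {ρ : ℝ}
    (h : Tendsto (fun u : ℝ => f u / u) atTop (𝓝 ρ)) :
    Tendsto (fun w : ℝ => w * (w * lap f w)) (𝓝[>] 0) (𝓝 ρ) := by
  rw [Metric.tendsto_nhds]
  intro ε hε
  obtain ⟨U0, hU0⟩ := eventually_atTop.mp (Metric.tendsto_nhds.mp h (ε / 2) (half_pos hε))
  set U := max U0 1 with hU
  obtain ⟨B, hB⟩ := hloc U
  have hUpos : 0 < U := lt_of_lt_of_le one_pos (le_max_right _ _)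
  have hB0 : 0 ≤ B := (abs_nonneg _).trans (hB U hUpos le_rfl)
  set Q := B + |ρ| * U with hQ
  have hQ0 : 0 ≤ Q := by positivity
  have h1 : Tendsto (fun w : ℝ => ε / 2 + Q * w) (𝓝[>] 0) (𝓝 (ε / 2 + Q * 0)) := by
    have h2 : Continuous fun w : ℝ => ε / 2 + Q * w := by fun_prop
    exact tendsto_nhdsWithin_of_tendsto_nhds (h2.tendsto 0)
  have h2 := h1.eventually (gt_mem_nhds (show ε / 2 + Q * 0 < ε by linarith))
  filter_upwards [h2, self_mem_nhdsWithin] with w hw1 hw
  have hw0 : (0 : ℝ) < w := hw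
  rw [Real.dist_eq]
  obtain ⟨i1, i2⟩ := id_LInt hw0
  have e0 : LInt (fun u : ℝ => ρ * u) w := i1.const_mul ρ
  have e1 : w * (w * lap f w) - ρ = w ^ 2 * lap (fun u => f u - ρ * u) w := by
    rw [lap_sub (hi w hw0) e0, lap_const_mul, i2]
    field_simp
  rw [e1, abs_mul, abs_of_pos (by positivity)]
  have hg1 : LInt (fun u : ℝ => ε / 2 * u) w := i1.const_mul _
  have hg2 : LInt (fun _ : ℝ => Q * 1) w := (one_LInt hw0).const_mul Q
  have e2 : |lap (fun u => f u - ρ * u) w| ≤ lap (fun u => ε / 2 * u + Q * 1) w := by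
    unfold lap
    refine (abs_integral_le_integral_abs).trans ?_
    refine setIntegral_mono_on ((hi w hw0).sub e0).abs (hg1.add hg2) measurableSet_Ioi
      fun u hu => ?_
    have hu0 : (0 : ℝ) < u := hu
    rw [abs_mul, abs_of_pos (Real.exp_pos _)]
    refine mul_le_mul_of_nonneg_right ?_ (Real.exp_pos _).le
    rw [mul_one]
    beta_reduce
    rcases le_or_gt u U with h3 | h3
    · have h4 := hB u hu0 h3
      refine (abs_sub _ _).trans ?_
      rw [abs_mul, abs_of_pos hu0]
      have h5 : |ρ| * u ≤ |ρ| * U := mul_le_mul_of_nonneg_left h3 (abs_nonneg _)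
      have h6 : 0 ≤ ε / 2 * u := by positivity
      linarith
    · have h4 := hU0 u ((le_max_left _ _).trans h3.le)
      rw [Real.dist_eq] at h4
      have h5 : f u - ρ * u = (f u / u - ρ) * u := by field_simp
      rw [h5, abs_mul, abs_of_pos hu0]
      have h6 := mul_le_mul_of_nonneg_right h4.le hu0.le
      linarith
  rw [lap_add hg1 hg2, lap_const_mul, lap_const_mul, one_lap hw0, i2] at e2
  have e6 := mul_le_mul_of_nonneg_left e2 (show 0 ≤ w ^ 2 by positivity)
  have e5 : w ^ 2 * (ε / 2 * (1 / w ^ 2) + Q * (1 / w)) = ε / 2 + Q * w := by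
    field_simp
  rw [e5] at e6
  linarith

theorem clog_sum (hc : ∀ n, |c n| ≤ M * bst n) (w : ℝ) (hw : 0 < w) :
    Summable fun n : ℕ => |clog c n| * (n : ℝ) ^ (-w) := by
  have hM := M_nonneg hc
  have hw2 : 0 < w / 2 := half_pos hw
  refine Summable.of_nonneg_of_le (fun n => mul_nonneg (abs_nonneg _)
    (Real.rpow_nonneg (Nat.cast_nonneg n) _)) (fun n => ?_)
    ((bst_sum hw2).mul_left (M * (2 / w)))
  rcases Nat.eq_zero_or_pos n with rfl | hn
  · unfold clog
    rw [c_zero hc, zero_mul, abs_zero, zero_mul]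
    have := bst_nonneg 0
    positivity
  · have hn' : (0 : ℝ) < n := by exact_mod_cast hn
    have hlog : 0 ≤ Real.log n := Real.log_nonneg (by exact_mod_cast hn)
    unfold clog
    rw [abs_mul, abs_of_nonneg hlog]
    have e1 : Real.log n * (n : ℝ) ^ (-w) ≤ 2 / w * (n : ℝ) ^ (-(w / 2)) := by
      have e2 : (n : ℝ) ^ (-w) = (n : ℝ) ^ (-(w / 2)) * (n : ℝ) ^ (-(w / 2)) := by
        rw [← Real.rpow_add hn']; congr 1; ring
      have e3 : Real.log n * (n : ℝ) ^ (-(w / 2)) ≤ 2 / w := by
        have e4 := Real.log_le_rpow_div hn'.le hw2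
        rw [Real.rpow_neg hn'.le, ← div_eq_mul_inv, div_le_iff₀ (Real.rpow_pos_of_pos hn' _)]
        refine e4.trans (le_of_eq ?_)
        field_simp
      rw [e2, ← mul_assoc]
      exact mul_le_mul_of_nonneg_right e3 (Real.rpow_nonneg hn'.le _)
    have e5 : 0 ≤ (n : ℝ) ^ (-(w / 2)) := Real.rpow_nonneg hn'.le _
    calc |c n| * Real.log n * (n : ℝ) ^ (-w) = |c n| * (Real.log n * (n : ℝ) ^ (-w)) := by ring
      _ ≤ (M * bst n) * (2 / w * (n : ℝ) ^ (-(w / 2))) :=
          mul_le_mul (hc n) e1 (by positivity) ((abs_nonneg _).trans (hc n))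
      _ = _ := by ring

theorem clog_zero (hc : ∀ n, |c n| ≤ M * bst n) : clog c 0 = 0 := by
  unfold clog
  rw [c_zero hc, zero_mul]

theorem ds_clog_eq (hc : ∀ n, |c n| ≤ M * bst n) {w : ℝ} (hw : 0 < w) :
    ds (clog c) w = w * lap (stp (clog c)) w :=
  (stp_hasSum (clog_zero hc) (clog_sum hc) hw).tsum_eq

/-- the Abelian direction -/
theorem residue_of_avg (hc : ∀ n, |c n| ≤ M * bst n) {ρ : ℝ}
    (h : Tendsto (fun u : ℝ => stp (clog c) u / u) atTop (𝓝 ρ)) :
    Tendsto (fun w : ℝ => w * ds (clog c) w) (𝓝[>] 0) (𝓝 ρ) := by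
  have h1 := abel_linear (fun w hw => stp_LInt (clog_zero hc) (clog_sum hc) hw) (fun U => ?_) h
  · refine h1.congr' ?_
    filter_upwards [self_mem_nhdsWithin] with w hw
    rw [ds_clog_eq hc hw]
  · refine ⟨∑ n ∈ Finset.range (⌊Real.exp U⌋₊ + 1), |clog c n|, fun u _ huU => ?_⟩
    unfold stp
    refine (Finset.abs_sum_le_sum_abs _ _).trans ?_
    refine Finset.sum_le_sum_of_subset_of_nonneg ?_ fun n _ _ => abs_nonneg _
    refine Finset.range_subset_range.mpr ?_
    have : ⌊Real.exp u⌋₊ ≤ ⌊Real.exp U⌋₊ := Nat.floor_mono (Real.exp_le_exp.mpr huU)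
    omega

theorem bst_hc (n : ℕ) : |bst n| ≤ 1 * bst n := by
  rw [abs_of_nonneg (bst_nonneg n), one_mul]

/-- Mertens' first theorem for the prime powers -/
theorem bst_avg : Tendsto (fun u : ℝ => stp (clog bst) u / u) atTop (𝓝 1) := by
  classical
  obtain ⟨C, hC⟩ := Pool.Agent.Helper923.HMertens.mertens_log
  set T : ℝ := ∑' n, ppw n with hT
  have hT0 : 0 ≤ T := tsum_nonneg ppw_nonneg
  have key : ∀ u : ℝ, 1 ≤ u → |stp (clog bst) u - u| ≤ C + 4 * T + 1 := by
    intro u hu
    obtain ⟨a2, a3, a4, a5⟩ := floor_exp_bounds hu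
    set a := ⌊Real.exp u⌋₊ with ha
    have h1 := hC a (by omega)
    have h2 : stp (clog bst) u = ∑ n ∈ Finset.Icc 1 a, clog bst n := by
      unfold stp
      rw [← ha, Finset.range_eq_Ico, Finset.sum_eq_sum_Ico_succ_bot (by omega),
        clog_zero bst_hc, zero_add]
      rfl
    have h3 : ∀ n ∈ Finset.Icc 1 a, clog bst n = (if n.Prime then Real.log n / n else 0) +
        (if IsPrimePow n ∧ ¬ n.Prime then Real.log n / n else 0) := by
      intro n _
      unfold clog bst
      by_cases hpp : IsPrimePow n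
      · by_cases hp : n.Prime
        · rw [if_pos hpp, if_pos hp, if_neg (by tauto)]; ring
        · rw [if_pos hpp, if_neg hp, if_pos ⟨hpp, hp⟩]; ring
      · have e : ¬ n.Prime := fun h => hpp h.isPrimePow
        rw [if_neg hpp, if_neg e, if_neg (by tauto)]; ring
    rw [Finset.sum_congr rfl h3, Finset.sum_add_distrib, ← Finset.sum_filter] at h2
    have h4 : 0 ≤ ∑ n ∈ Finset.Icc 1 a, (if IsPrimePow n ∧ ¬ n.Prime then Real.log n / n else 0) := by
      refine Finset.sum_nonneg fun n hn => ?_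
      rw [Finset.mem_Icc] at hn
      split_ifs
      · exact div_nonneg (Real.log_nonneg (by exact_mod_cast hn.1)) (Nat.cast_nonneg n)
      · exact le_rfl
    have h5 : ∑ n ∈ Finset.Icc 1 a, (if IsPrimePow n ∧ ¬ n.Prime then Real.log n / n else 0) ≤
        4 * T := by
      have e1 : ∀ n ∈ Finset.Icc 1 a, (if IsPrimePow n ∧ ¬ n.Prime then Real.log n / n else 0) ≤
          4 * ppw n := by
        intro n hn
        rw [Finset.mem_Icc] at hn
        have hn' : (0 : ℝ) < n := by exact_mod_cast hn.1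
        unfold ppw
        split_ifs with h6
        · have e2 := Real.log_le_rpow_div hn'.le (show (0 : ℝ) < 1 / 4 by norm_num)
          have e3 : (n : ℝ) ^ (-(3 / 4) : ℝ) = (n : ℝ) ^ (1 / 4 : ℝ) / n := by
            rw [eq_div_iff hn'.ne']
            nth_rewrite 2 [← Real.rpow_one (n : ℝ)]
            rw [← Real.rpow_add hn']
            norm_num
          rw [e3, mul_div_assoc']
          refine div_le_div_of_nonneg_right ?_ hn'.le
          linarith
        · rw [mul_zero]
      refine (Finset.sum_le_sum e1).trans ?_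
      rw [← Finset.mul_sum]
      exact mul_le_mul_of_nonneg_left (ppw_summable.sum_le_tsum _ fun n _ => ppw_nonneg n)
        (by norm_num)
    have h6 := abs_le.mp h1
    have h7 : Real.log 2 ≤ 1 := by linarith [Real.log_two_lt_d9]
    rw [abs_le]
    constructor <;> linarith [h6.1, h6.2]
  have h1 : Tendsto (fun u : ℝ => (C + 4 * T + 1) / u) atTop (𝓝 0) :=
    tendsto_const_nhds.div_atTop tendsto_id
  rw [tendsto_iff_dist_tendsto_zero]
  refine squeeze_zero' (Eventually.of_forall fun u => dist_nonneg) ?_ h1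
  filter_upwards [eventually_ge_atTop 1] with u hu
  have hu0 : 0 < u := by linarith
  have h2 : stp (clog bst) u / u - 1 = (stp (clog bst) u - u) / u := by field_simp
  rw [Real.dist_eq, h2, abs_div, abs_of_pos hu0]
  exact div_le_div_of_nonneg_right (key u hu) hu0.le

/-- **The residue along the real axis and the logarithmic averages.** -/
theorem residue_iff_avg (hc : ∀ n, |c n| ≤ M * bst n) (ρ : ℝ) :
    Tendsto (fun w : ℝ => w * ds (clog c) w) (𝓝[>] 0) (𝓝 ρ) ↔
      Tendsto (fun u : ℝ => stp (clog c) u / u) atTop (𝓝 ρ) := by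
  refine ⟨fun h => ?_, residue_of_avg hc⟩
  have hM := M_nonneg hc
  set M1 : ℝ := M + |ρ| + 1 with hM1
  have hpos : 0 < ρ + M1 := by
    have := neg_abs_le ρ
    linarith
  have hM10 : 0 < M1 := by positivity
  set v : ℕ → ℝ := fun n => (clog c n + M1 * clog bst n) / (ρ + M1) with hv
  have hb0 : ∀ n, 0 ≤ clog bst n := by
    intro n
    rcases Nat.eq_zero_or_pos n with rfl | hn
    · rw [clog_zero bst_hc]
    · exact mul_nonneg (bst_nonneg n) (Real.log_nonneg (by exact_mod_cast hn))
  have hcl : ∀ n, |clog c n| ≤ M1 * clog bst n := by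
    intro n
    rcases Nat.eq_zero_or_pos n with rfl | hn
    · rw [clog_zero bst_hc, clog_zero hc]; simp
    · have hlog : 0 ≤ Real.log n := Real.log_nonneg (by exact_mod_cast hn)
      unfold clog
      rw [abs_mul, abs_of_nonneg hlog, ← mul_assoc]
      refine mul_le_mul_of_nonneg_right ((hc n).trans ?_) hlog
      refine mul_le_mul_of_nonneg_right ?_ (bst_nonneg n)
      have := abs_nonneg ρ
      linarith
  have hv0 : ∀ n, 0 ≤ v n := by
    intro n
    refine div_nonneg ?_ hpos.le
    have := (abs_le.mp (hcl n)).1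
    linarith
  have s1 : ∀ σ : ℝ, 0 < σ → Summable fun n : ℕ => clog c n * (n : ℝ) ^ (-σ) := fun σ hσ =>
    (stp_hasSum (clog_zero hc) (clog_sum hc) hσ).summable
  have s2 : ∀ σ : ℝ, 0 < σ → Summable fun n : ℕ => clog bst n * (n : ℝ) ^ (-σ) := fun σ hσ =>
    (stp_hasSum (clog_zero bst_hc) (clog_sum bst_hc) hσ).summable
  have hvt : ∀ (σ : ℝ) (n : ℕ), v n * (n : ℝ) ^ (-σ) =
      (clog c n * (n : ℝ) ^ (-σ) + M1 * (clog bst n * (n : ℝ) ^ (-σ))) / (ρ + M1) := by
    intro σ n
    rw [hv]
    ring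
  have hkara := W688.TW.t_kara v hv0 ?_ ?_ ?_
  · -- conclusion
    have h1 : Tendsto (fun u : ℝ => (∑ n ∈ Finset.Icc 1 ⌊Real.exp u⌋₊, v n) / u) atTop (𝓝 1) := by
      refine (hkara.comp Real.tendsto_exp_atTop).congr fun u => ?_
      rw [Function.comp_apply, Real.log_exp]
    have h2 : ∀ u : ℝ, stp (clog c) u / u = (ρ + M1) * ((∑ n ∈ Finset.Icc 1 ⌊Real.exp u⌋₊, v n) / u) -
        M1 * (stp (clog bst) u / u) := by
      intro u
      have e1 : ∀ g : ℕ → ℝ, g 0 = 0 → stp g u = ∑ n ∈ Finset.Icc 1 ⌊Real.exp u⌋₊, g n := by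
        intro g hg
        unfold stp
        rw [Finset.range_eq_Ico, Finset.sum_eq_sum_Ico_succ_bot (by omega), hg, zero_add]
        rfl
      rw [e1 _ (clog_zero hc), e1 _ (clog_zero bst_hc)]
      have e2 : ∑ n ∈ Finset.Icc 1 ⌊Real.exp u⌋₊, v n =
          (∑ n ∈ Finset.Icc 1 ⌊Real.exp u⌋₊, clog c n +
            M1 * ∑ n ∈ Finset.Icc 1 ⌊Real.exp u⌋₊, clog bst n) / (ρ + M1) := by
        rw [Finset.mul_sum, ← Finset.sum_add_distrib, Finset.sum_div]
      rw [e2]
      field_simp
      ring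
    have h3 := (h1.const_mul (ρ + M1)).sub (bst_avg.const_mul M1)
    rw [mul_one, mul_one, add_sub_cancel_right] at h3
    exact h3.congr fun u => (h2 u).symm
  · rw [hv]
    simp only []
    rw [clog_zero hc, clog_zero bst_hc]
    simp
  · intro σ hσ
    refine (((s1 σ hσ).add ((s2 σ hσ).mul_left M1)).div_const (ρ + M1)).congr fun n => ?_
    rw [hvt]
  · have h1 := ((h.add ((residue_of_avg bst_hc bst_avg).const_mul M1)).div_const (ρ + M1))
    rw [mul_one, div_self hpos.ne'] at h1
    refine h1.congr' ?_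
    filter_upwards [self_mem_nhdsWithin] with σ hσ
    have hσ0 : (0 : ℝ) < σ := hσ
    rw [tsum_congr (hvt σ), tsum_div_const, (s1 σ hσ0).tsum_add ((s2 σ hσ0).mul_left M1),
      tsum_mul_left]
    unfold ds
    ring

section
open NumberField IsDedekindDomain
variable {K : Type} [Field K] [NumberField K]

/-- **The residue on the real axis and the logarithmic averages, over the places.** -/
theorem bounded_residue_iff {a : HeightOneSpectrum (𝓞 K) → ℝ} {C : ℝ} (ha : ∀ v, |a v| ≤ C)
    (ρ : ℝ) :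
    Tendsto (fun s : ℝ => (s - 1) * logDirichlet a s) (𝓝[>] 1) (𝓝 ρ) ↔
      Tendsto (fun x : ℝ => sumUpTo (fun v => a v * Real.log (Ideal.absNorm v.asIdeal : ℝ) /
          (Ideal.absNorm v.asIdeal : ℝ)) x / Real.log x) atTop (𝓝 ρ) := by
  obtain ⟨M, hM⟩ := bounded_push ha
  set c := (nq_places (K := K)).push (fun v => a v / nq v) with hc
  have hS2 : ∀ x : ℝ, 0 < x → sumUpTo (fun v => a v * Real.log (Ideal.absNorm v.asIdeal : ℝ) /
      (Ideal.absNorm v.asIdeal : ℝ)) x = stp (clog c) (Real.log x) := by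
    intro x hx
    rw [sumUpTo_eq _ hx, hc, (nq_places (K := K)).push_log]
    refine Finset.sum_congr rfl fun v _ => ?_
    have h1 : (Ideal.absNorm v.asIdeal : ℝ) = (nq v : ℝ) := rfl
    rw [h1]
    ring
  have hds2 : ∀ ε : ℝ, 0 < ε → ds (clog c) ε = logDirichlet a (1 + ε) := by
    intro ε hε
    rw [hc, ds_clog_push ha hε, logDirichlet_eq]
  have key := residue_iff_avg hM ρ
  have e1 : Tendsto (fun s : ℝ => (s - 1) * logDirichlet a s) (𝓝[>] 1) (𝓝 ρ) ↔
      Tendsto (fun w : ℝ => w * ds (clog c) w) (𝓝[>] 0) (𝓝 ρ) := by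
    constructor
    · intro h
      have h1 : Tendsto (fun w : ℝ => 1 + w) (𝓝[>] 0) (𝓝[>] 1) := by
        rw [tendsto_nhdsWithin_iff]
        constructor
        · have h2 : Continuous fun w : ℝ => 1 + w := by fun_prop
          have h3 := h2.tendsto 0
          rw [add_zero] at h3
          exact tendsto_nhdsWithin_of_tendsto_nhds h3
        · filter_upwards [self_mem_nhdsWithin] with w hw
          have : (0 : ℝ) < w := hw
          show (1 : ℝ) < 1 + w
          linarith
      refine (h.comp h1).congr' ?_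
      filter_upwards [self_mem_nhdsWithin] with w hw
      rw [Function.comp_apply, hds2 w hw, add_sub_cancel_left]
    · intro h
      have h1 : Tendsto (fun s : ℝ => s - 1) (𝓝[>] 1) (𝓝[>] 0) := by
        rw [tendsto_nhdsWithin_iff]
        constructor
        · have h2 : Continuous fun s : ℝ => s - 1 := by fun_prop
          have h3 := h2.tendsto 1
          rw [sub_self] at h3
          exact tendsto_nhdsWithin_of_tendsto_nhds h3
        · filter_upwards [self_mem_nhdsWithin] with s hs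
          have : (1 : ℝ) < s := hs
          show (0 : ℝ) < s - 1
          linarith
      refine (h.comp h1).congr' ?_
      filter_upwards [self_mem_nhdsWithin] with s hs
      have hs1 : (1 : ℝ) < s := hs
      rw [Function.comp_apply, hds2 (s - 1) (by linarith), add_sub_cancel]
  rw [e1, key]
  constructor
  · intro h
    refine (h.comp Real.tendsto_log_atTop).congr' ?_
    filter_upwards [eventually_gt_atTop 0] with x hx
    rw [Function.comp_apply, hS2 x hx]
  · intro h
    refine (h.comp Real.tendsto_exp_atTop).congr' ?_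
    filter_upwards with u
    rw [Function.comp_apply, hS2 _ (Real.exp_pos u), Real.log_exp]

end

end Pool.Agent.TH129.EM
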