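import Mathlib
import Pool.Agent.Helper923.HMertens
import Pool.Agent.W263.BSD.Lead5

/-!
# The prime powers in logarithmic scale

`bst n = 1 / n` at the prime powers.  The sum of `bst` over `e^u < n ≤ e^v` is at most
`log (v / u) + C / u`.
-/

set_option autoImplicit false

namespace Pool.Agent.TH129.EM

open Filter Topology Set
open Pool.Agent.W263.BSD (stp lap LInt ell)

open Classical in
/-- `1 / n` at the prime powers -/
noncomputable def bst (n : ℕ) : ℝ := if IsPrimePow n then (1 : ℝ) / n else 0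

theorem bst_nonneg (n : ℕ) : 0 ≤ bst n := by
  unfold bst
  split_ifs <;> positivity

theorem bst_le (n : ℕ) : bst n ≤ 1 / n := by
  unfold bst
  split_ifs
  · exact le_rfl
  · positivity

theorem bst_zero : bst 0 = 0 := by
  unfold bst
  rw [if_neg not_isPrimePow_zero]

theorem exists_cube_sq {n : ℕ} (h : IsPrimePow n) (h' : ¬ n.Prime) :
    ∃ x : ℕ × ℕ, 1 ≤ x.1 ∧ 1 ≤ x.2 ∧ x.1 ^ 3 * x.2 ^ 2 = n := by
  rw [isPrimePow_nat_iff] at h
  obtain ⟨p, k, hp, hk, rfl⟩ := h
  have hk2 : 2 ≤ k := by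
    rcases Nat.lt_or_ge k 2 with h2 | h2
    · have : k = 1 := by omega
      subst this
      rw [pow_one] at h'
      exact absurd hp h'
    · exact h2
  rcases Nat.even_or_odd' k with ⟨j, rfl | rfl⟩
  · exact ⟨(1, p ^ j), le_rfl, Nat.one_le_pow _ _ hp.pos, by simp only; ring⟩
  · obtain ⟨i, rfl⟩ : ∃ i, j = i + 1 := ⟨j - 1, by omega⟩
    exact ⟨(p, p ^ i), hp.one_le, Nat.one_le_pow _ _ hp.pos, by simp only; ring⟩

open Classical in
/-- the proper prime powers -/
noncomputable def ppw (n : ℕ) : ℝ :=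
  if IsPrimePow n ∧ ¬ n.Prime then (n : ℝ) ^ (-(3 / 4) : ℝ) else 0

theorem ppw_nonneg (n : ℕ) : 0 ≤ ppw n := by
  unfold ppw
  split_ifs <;> positivity

theorem ppw_summable : Summable ppw := by
  classical
  set P : Set ℕ := {n | IsPrimePow n ∧ ¬ n.Prime} with hP
  have h1 : ppw = P.indicator fun n : ℕ => (n : ℝ) ^ (-(3 / 4) : ℝ) := by
    funext n
    unfold ppw
    rw [Set.indicator_apply]
    rfl
  rw [h1, ← summable_subtype_iff_indicator]
  choose g hg1 hg2 hg3 using fun n : P => exists_cube_sq n.2.1 n.2.2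
  have hF : Summable fun x : ℕ × ℕ => ((x.1 : ℝ) ^ (-(9 / 4) : ℝ)) * ((x.2 : ℝ) ^ (-(3 / 2) : ℝ)) := by
    refine Summable.mul_of_nonneg (Real.summable_nat_rpow.mpr (by norm_num))
      (Real.summable_nat_rpow.mpr (by norm_num)) (fun n => ?_) (fun n => ?_)
    · exact Real.rpow_nonneg (Nat.cast_nonneg n) _
    · exact Real.rpow_nonneg (Nat.cast_nonneg n) _
  have hinj : Function.Injective g := by
    intro a b hab
    have h2 := hg3 a
    rw [hab, hg3 b] at h2
    exact Subtype.ext h2.symm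
  refine (hF.comp_injective hinj).congr fun n => ?_
  simp only [Function.comp_apply]
  have e1 : (0 : ℝ) ≤ ((g n).1 : ℝ) := Nat.cast_nonneg _
  have e2 : (0 : ℝ) ≤ ((g n).2 : ℝ) := Nat.cast_nonneg _
  have e3 : ((n : ℕ) : ℝ) = ((g n).1 : ℝ) ^ 3 * ((g n).2 : ℝ) ^ 2 := by
    have h2 := hg3 n
    exact_mod_cast h2.symm
  rw [e3, Real.mul_rpow (by positivity) (by positivity), ← Real.rpow_natCast,
    ← Real.rpow_natCast, ← Real.rpow_mul e1, ← Real.rpow_mul e2]
  norm_num

/-- the sum over an interval -/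
theorem stp_sub {c : ℕ → ℝ} {u v : ℝ} (h : u ≤ v) :
    stp c v - stp c u = ∑ n ∈ Finset.Ioc ⌊Real.exp u⌋₊ ⌊Real.exp v⌋₊, c n := by
  unfold stp
  have h1 : ⌊Real.exp u⌋₊ ≤ ⌊Real.exp v⌋₊ := Nat.floor_mono (Real.exp_le_exp.mpr h)
  rw [sub_eq_iff_eq_add, add_comm, ← Finset.sum_union]
  · congr 1
    ext n
    simp only [Finset.mem_range, Finset.mem_union, Finset.mem_Ioc]
    omega
  · rw [Finset.disjoint_left]
    intro n
    simp only [Finset.mem_range, Finset.mem_Ioc]
    omega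

theorem floor_exp_bounds {u : ℝ} (hu : 1 ≤ u) :
    2 ≤ ⌊Real.exp u⌋₊ ∧ Real.log ⌊Real.exp u⌋₊ ≤ u ∧ u / 2 ≤ Real.log ⌊Real.exp u⌋₊ ∧
      u - Real.log 2 ≤ Real.log ⌊Real.exp u⌋₊ := by
  have h1 : (2 : ℝ) ≤ Real.exp u := by
    have := Real.add_one_le_exp u
    linarith
  have h2 : 2 ≤ ⌊Real.exp u⌋₊ := Nat.le_floor (by exact_mod_cast h1)
  have h3 : (⌊Real.exp u⌋₊ : ℝ) ≤ Real.exp u := Nat.floor_le (Real.exp_pos u).le
  have h4 : Real.exp u < ⌊Real.exp u⌋₊ + 1 := Nat.lt_floor_add_one _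
  have h5 : (0 : ℝ) < ⌊Real.exp u⌋₊ := by exact_mod_cast (by omega : 0 < ⌊Real.exp u⌋₊)
  have h6 : Real.exp u / 2 ≤ ⌊Real.exp u⌋₊ := by
    have : (2 : ℝ) ≤ ⌊Real.exp u⌋₊ := by exact_mod_cast h2
    linarith
  have h7 : u - Real.log 2 ≤ Real.log ⌊Real.exp u⌋₊ := by
    have := Real.log_le_log (by positivity) h6
    rwa [Real.log_div (Real.exp_pos u).ne' (by norm_num), Real.log_exp] at this
  have h8 : Real.log 2 ≤ Real.log ⌊Real.exp u⌋₊ :=
    Real.log_le_log (by norm_num) (by exact_mod_cast h2)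
  refine ⟨h2, ?_, ?_, h7⟩
  · have := Real.log_le_log h5 h3
    rwa [Real.log_exp] at this
  · linarith

theorem bst_slow : ∃ C : ℝ, 0 ≤ C ∧ ∀ u v : ℝ, 1 ≤ u → u ≤ v →
    stp bst v - stp bst u ≤ Real.log (v / u) + C / u := by
  classical
  obtain ⟨C0, hC0, hM⟩ := Pool.Agent.Helper923.HMertens.mertens_ratio
  set T : ℝ := ∑' n, ppw n with hT
  have hT0 : 0 ≤ T := tsum_nonneg ppw_nonneg
  refine ⟨2 + 2 * C0 + 4 * T, by positivity, fun u v hu huv => ?_⟩
  have hv : 1 ≤ v := hu.trans huv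
  obtain ⟨a2, a3, a4, a5⟩ := floor_exp_bounds hu
  obtain ⟨b2, b3, b4, b5⟩ := floor_exp_bounds hv
  set a := ⌊Real.exp u⌋₊ with ha
  set b := ⌊Real.exp v⌋₊ with hb
  have hab : a ≤ b := Nat.floor_mono (Real.exp_le_exp.mpr huv)
  rw [stp_sub huv]
  have h1 := hM a b a2 hab
  have hu0 : 0 < u := by linarith
  have hla : 0 < Real.log a := by linarith [half_pos hu0]
  have hlb : 0 < Real.log b := by linarith [half_pos (hu0.trans_le huv)]
  -- split
  have h2 : ∀ n ∈ Finset.Ioc a b, bst n ≤ (if n.Prime then (1 : ℝ) / n else 0) +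
      Real.exp (-(u / 4)) * ppw n := by
    intro n hn
    rw [Finset.mem_Ioc] at hn
    have hn0 : 0 < n := by omega
    have hn0' : (0 : ℝ) < n := by exact_mod_cast hn0
    unfold bst ppw
    by_cases hpp : IsPrimePow n
    · rw [if_pos hpp]
      by_cases hp : n.Prime
      · rw [if_pos hp, if_neg (by tauto)]; simp
      · rw [if_neg hp, if_pos ⟨hpp, hp⟩, zero_add]
        have e1 : Real.exp u < n := by
          have := Nat.lt_of_floor_lt hn.1
          exact this
        have e2 : (1 : ℝ) / n = (n : ℝ) ^ (-(1 / 4) : ℝ) * (n : ℝ) ^ (-(3 / 4) : ℝ) := by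
          rw [← Real.rpow_add hn0']
          norm_num
          rw [Real.rpow_neg_one]
        rw [e2]
        refine mul_le_mul_of_nonneg_right ?_ (Real.rpow_nonneg hn0'.le _)
        have e3 : Real.exp (-(u / 4)) = (Real.exp u) ^ (-(1 / 4) : ℝ) := by
          rw [← Real.exp_mul]; congr 1; ring
        rw [e3]
        exact Real.rpow_le_rpow_of_nonpos (Real.exp_pos u) e1.le (by norm_num)
    · have e : ¬ (IsPrimePow n ∧ ¬ n.Prime) := fun h => hpp h.1
      rw [if_neg hpp, if_neg e, mul_zero, add_zero]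
      split_ifs <;> positivity
  have h3 := Finset.sum_le_sum h2
  rw [Finset.sum_add_distrib, ← Finset.mul_sum, ← Finset.sum_filter] at h3
  have h4 : ∑ n ∈ Finset.Ioc a b, ppw n ≤ T := ppw_summable.sum_le_tsum _ fun n _ => ppw_nonneg n
  have h5 : Real.exp (-(u / 4)) ≤ 4 / u := by
    have e1 := Real.add_one_le_exp (u / 4)
    rw [Real.exp_neg, inv_le_comm₀ (Real.exp_pos _) (by positivity), inv_div]
    linarith
  have h6 : Real.exp (-(u / 4)) * ∑ n ∈ Finset.Ioc a b, ppw n ≤ 4 / u * T :=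
    mul_le_mul h5 h4 (Finset.sum_nonneg fun n _ => ppw_nonneg n) (by positivity)
  have h7 := (abs_le.mp h1).2
  have h8 : Real.log (Real.log b / Real.log a) ≤ Real.log (v / u) + 2 / u := by
    rw [Real.log_div hlb.ne' hla.ne', Real.log_div (by linarith) hu0.ne']
    have e1 : Real.log (Real.log b) ≤ Real.log v := Real.log_le_log hlb b3
    have e2 : Real.log u - Real.log (Real.log a) ≤ 2 / u := by
      rw [← Real.log_div hu0.ne' hla.ne']
      refine (Real.log_le_sub_one_of_pos (by positivity)).trans ?_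
      rw [sub_le_iff_le_add, div_le_iff₀ hla]
      have e3 : Real.log 2 ≤ 1 := by linarith [Real.log_two_lt_d9]
      have e4 : 1 ≤ 2 / u * Real.log a := by
        rw [div_mul_eq_mul_div, le_div_iff₀ hu0]
        linarith
      linarith
    linarith
  have h9 : C0 / Real.log a ≤ 2 * C0 / u := by
    rw [div_le_div_iff₀ hla hu0]
    nlinarith
  have h10 : Real.log (v / u) + (2 + 2 * C0 + 4 * T) / u =
      (Real.log (v / u) + 2 / u) + 2 * C0 / u + 4 / u * T := by
    field_simp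
    ring
  rw [h10]
  linarith

theorem bst_sum {w : ℝ} (hw : 0 < w) : Summable fun n : ℕ => bst n * (n : ℝ) ^ (-w) := by
  refine Summable.of_nonneg_of_le (fun n => mul_nonneg (bst_nonneg n)
    (Real.rpow_nonneg (Nat.cast_nonneg n) _)) (fun n => ?_)
    (Real.summable_nat_rpow.mpr (show -(1 + w) < -1 by linarith))
  rcases Nat.eq_zero_or_pos n with rfl | hn
  · rw [bst_zero, zero_mul]
    exact Real.rpow_nonneg (Nat.cast_nonneg 0) _
  · have hn' : (0 : ℝ) < n := by exact_mod_cast hn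
    refine (mul_le_mul_of_nonneg_right (bst_le n) (Real.rpow_nonneg hn'.le _)).trans ?_
    rw [neg_add, Real.rpow_add hn', Real.rpow_neg_one, one_div]

end Pool.Agent.TH129.EM
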