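import Pool.Agent.TH129.EM.Nf
import Pool.Agent.TH129.EM.Defs

/-!
# Comparison of Euler products at the edge, and numbers of points
-/

set_option autoImplicit false

namespace Pool.Agent.TH129.EM

open Filter Topology Set Polynomial NumberField IsDedekindDomain

section
variable {I : Type*} {q : I → ℕ} {f : I → ℝ → ℝ} {c : I → ℝ}

/-- comparison with a product of positive numbers having the same first order terms -/
theorem SEdge.compare (h : SEdge I q f c) {g : I → ℝ} (hg : ∀ i, 0 < g i)
    (hs : Summable fun i => Real.log (g i) - c i) (m : ℝ) :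
    (∃ A : ℝ, A ≠ 0 ∧ Tendsto (fun ε : ℝ => ε ^ m * ∏' i, f i ε) (𝓝[>] 0) (𝓝 A)) ↔
      ∃ C : ℝ, 0 < C ∧ Tendsto (fun x : ℝ => pprod q g x / (Real.log x) ^ m) atTop (𝓝 C) := by
  obtain ⟨σ, hσ, h1, h2⟩ := h.signs
  have hσ0 : σ ≠ 0 := by rcases hσ with rfl | rfl <;> norm_num
  have hσ2 : σ * σ = 1 := by rcases hσ with rfl | rfl <;> norm_num
  have hσa : |σ| = 1 := by rcases hσ with rfl | rfl <;> simp
  have hT : Summable fun i => Real.log (g i) - Real.log |f i 0| := by
    refine (hs.sub h.edge.remainder.1).congr fun i => ?_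
    ring
  have hpos : ∀ u : ℝ, 0 < ∏ i ∈ h.places.upTo u, |f i 0| := fun u =>
    Finset.prod_pos fun i _ => abs_pos.mpr (h.ne i)
  have hgpos : ∀ u : ℝ, 0 < ∏ i ∈ h.places.upTo u, g i := fun u =>
    Finset.prod_pos fun i _ => hg i
  set T := ∑' i, (Real.log (g i) - Real.log |f i 0|) with hTdef
  have hup : Tendsto (fun u : ℝ => h.places.upTo u) atTop atTop := by
    refine tendsto_atTop_finset_of_monotone (fun u v huv i hi => ?_) fun i => ?_
    · rw [h.places.mem_upTo] at hi ⊢
      exact hi.trans (Real.exp_le_exp.mpr huv)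
    · refine ⟨Real.log (q i), ?_⟩
      rw [h.places.mem_upTo, Real.exp_log]
      have := h.places.two_le i
      exact_mod_cast (by omega : 0 < q i)
  have hlim : Tendsto (fun u : ℝ => Real.exp (∑ i ∈ h.places.upTo u,
      (Real.log (g i) - Real.log |f i 0|))) atTop (𝓝 (Real.exp T)) := by
    have h3 : Tendsto (fun S : Finset I => ∑ i ∈ S, (Real.log (g i) - Real.log |f i 0|)) atTop
      (𝓝 T) := hT.hasSum
    exact (Real.continuous_exp.tendsto _).comp (h3.comp hup)
  have hprod : ∀ u : ℝ, ∏ i ∈ h.places.upTo u, g i = (∏ i ∈ h.places.upTo u, |f i 0|) *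
      Real.exp (∑ i ∈ h.places.upTo u, (Real.log (g i) - Real.log |f i 0|)) := by
    intro u
    rw [Real.exp_sum, ← Finset.prod_mul_distrib]
    refine Finset.prod_congr rfl fun i _ => ?_
    rw [Real.exp_sub, Real.exp_log (hg i), Real.exp_log (abs_pos.mpr (h.ne i))]
    field_simp [(abs_pos.mpr (h.ne i)).ne']
  have hsig : ∀ᶠ u : ℝ in atTop, (∏ i ∈ h.places.upTo u, |f i 0|) =
      σ * ∏ i ∈ h.places.upTo u, f i 0 := by
    filter_upwards [h2] with u h3
    rw [h3, ← mul_assoc, hσ2, one_mul]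
  constructor
  · rintro ⟨A, hA, hlimA⟩
    have h3 := (h.iff m hA).mp hlimA
    have h4 : Tendsto (fun u : ℝ => (∏ i ∈ h.places.upTo u, g i) / u ^ m) atTop
        (𝓝 (σ * (A * Real.exp (m * Real.eulerMascheroniConstant)) * Real.exp T)) := by
      refine ((h3.const_mul σ).mul hlim).congr' ?_
      filter_upwards [hsig] with u h5
      rw [hprod, h5]
      ring
    have h5 : 0 ≤ σ * (A * Real.exp (m * Real.eulerMascheroniConstant)) * Real.exp T := by
      refine ge_of_tendsto h4 ?_
      filter_upwards [eventually_gt_atTop 0] with u hu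
      have := hgpos u
      positivity
    have h6 : σ * (A * Real.exp (m * Real.eulerMascheroniConstant)) * Real.exp T ≠ 0 := by
      have e1 := (Real.exp_pos (m * Real.eulerMascheroniConstant)).ne'
      have e2 := (Real.exp_pos T).ne'
      exact mul_ne_zero (mul_ne_zero hσ0 (mul_ne_zero hA e1)) e2
    refine ⟨_, lt_of_le_of_ne h5 (Ne.symm h6), ?_⟩
    refine (h4.comp Real.tendsto_log_atTop).congr' ?_
    filter_upwards [eventually_gt_atTop 0] with x hx
    rw [Function.comp_apply, h.finprod_eq _ hx]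
  · rintro ⟨C, hC, hlimC⟩
    have h3 : Tendsto (fun u : ℝ => (∏ i ∈ h.places.upTo u, g i) / u ^ m) atTop (𝓝 C) := by
      refine (hlimC.comp Real.tendsto_exp_atTop).congr' ?_
      filter_upwards with u
      rw [Function.comp_apply, h.finprod_eq _ (Real.exp_pos u), Real.log_exp]
    set A := σ * C * Real.exp (-T) * Real.exp (-(m * Real.eulerMascheroniConstant)) with hAdef
    have hA : A ≠ 0 := by
      have e1 := (Real.exp_pos (-(m * Real.eulerMascheroniConstant))).ne'
      have e2 := (Real.exp_pos (-T)).ne'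
      exact mul_ne_zero (mul_ne_zero (mul_ne_zero hσ0 hC.ne') e2) e1
    refine ⟨A, hA, (h.iff m hA).mpr ?_⟩
    have h4 : A * Real.exp (m * Real.eulerMascheroniConstant) = σ * (C * (Real.exp T)⁻¹) := by
      rw [hAdef, mul_assoc _ (Real.exp (-(m * _))), ← Real.exp_add, neg_add_cancel, Real.exp_zero,
        Real.exp_neg]
      ring
    rw [h4]
    refine ((h3.mul (hlim.inv₀ (Real.exp_pos T).ne')).const_mul σ).congr' ?_
    filter_upwards [h2] with u h5
    rw [h5, hprod]
    have e1 := (Real.exp_pos (∑ i ∈ h.places.upTo u, (Real.log (g i) - Real.log |f i 0|))).ne'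
    field_simp

end

/-- the sum of the inverse roots -/
theorem IsFactor.sum_eq {B : ℝ[X]} {s : Multiset ℂ} (h : IsFactor B s) :
    s.sum = -((B.coeff 1 : ℝ) : ℂ) := by
  have h1 : B.map (algebraMap ℝ ℂ) = (s.map fun α => 1 - C α * X).prod := by
    refine Polynomial.funext fun z => ?_
    rw [h z, Polynomial.eval_multiset_prod, Multiset.map_map]
    congr 1
    refine Multiset.map_congr rfl fun α _ => ?_
    simp
  have key : ∀ t : Multiset ℂ, (t.map fun α => (1 - C α * X : ℂ[X])).prod.coeff 0 = 1 ∧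
      (t.map fun α => (1 - C α * X : ℂ[X])).prod.coeff 1 = -t.sum := by
    intro t
    induction t using Multiset.induction_on with
    | empty => simp [Polynomial.coeff_one]
    | cons a t ih =>
      obtain ⟨h2, h3⟩ := ih
      rw [Multiset.map_cons, Multiset.prod_cons, Multiset.sum_cons]
      constructor
      · rw [Polynomial.mul_coeff_zero, h2]
        simp
      · rw [sub_mul, one_mul, Polynomial.coeff_sub, h3, mul_assoc, Polynomial.coeff_C_mul,
          Polynomial.coeff_X_mul, h2]
        ring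
  have h2 := (key s).2
  rw [← h1, Polynomial.coeff_map] at h2
  rw [← neg_neg s.sum, ← h2]
  rfl

/-- `|log (1 + y) - a| ≤ 2 |η| + 4 a²` for `y = a + η` -/
theorem log_one_add_bound {a η : ℝ} (h : |a + η| ≤ 1 / 2) (hη : |η| ≤ 1) :
    |Real.log (1 + (a + η)) - a| ≤ 3 * |η| + 2 * a ^ 2 := by
  have h1 := (log_one_sub (a := ((-(a + η) : ℝ) : ℂ)) (by
    rw [Complex.norm_real, Real.norm_eq_abs, abs_neg]; exact h)).2
  rw [Complex.norm_real, Complex.ofReal_re, Real.norm_eq_abs, sq_abs] at h1
  have h2 : ‖(1 : ℂ) - ((-(a + η) : ℝ) : ℂ)‖ = 1 + (a + η) := by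
    rw [← Complex.ofReal_one, ← Complex.ofReal_sub, Complex.norm_real, Real.norm_eq_abs]
    have := (abs_le.mp h).1
    rw [sub_neg_eq_add, abs_of_nonneg (by linarith)]
  rw [h2] at h1
  have h3 : |Real.log (1 + (a + η)) - (a + η)| ≤ (a + η) ^ 2 := by
    rw [abs_sub_comm]
    have e1 : (a + η) - Real.log (1 + (a + η)) = -Real.log (1 + (a + η)) - -(a + η) := by ring
    rw [e1]
    refine h1.trans (le_of_eq (by ring))
  have h4 : (a + η) ^ 2 ≤ 2 * a ^ 2 + 2 * |η| := by
    have e1 : η ^ 2 ≤ |η| := by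
      rw [← sq_abs]
      nlinarith [abs_nonneg η]
    nlinarith [sq_nonneg (a - η)]
  have h5 : Real.log (1 + (a + η)) - a = (Real.log (1 + (a + η)) - (a + η)) + η := by ring
  rw [h5]
  refine (abs_add_le _ _).trans ?_
  linarith

end Pool.Agent.TH129.EM
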