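import Pool.Agent.TH129.EM.Eul

/-!
# Euler products with real factors at the edge
-/

set_option autoImplicit false

namespace Pool.Agent.TH129.EM

open Filter Topology Set

/-- An Euler product with real local factors `f i ε` (at `s₀ + ε`) at the edge. -/
structure SEdge (I : Type*) (q : I → ℕ) (f : I → ℝ → ℝ) (c : I → ℝ) : Prop where
  places : Places I q
  bound : ∃ M : ℝ, ∀ n, ∑ i ∈ (places.fin n).toFinset, |c i| ≤ M * bst n
  rest : ∃ D : I → ℝ, Summable D ∧ ∀ᶠ ε : ℝ in 𝓝[>] 0, ∀ i, f i ε ≠ 0 ∧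
    |Real.log |f i ε| - c i * (q i : ℝ) ^ (-ε)| ≤ D i
  ne : ∀ i, f i 0 ≠ 0
  cont : ∀ i, Tendsto (f i) (𝓝[>] 0) (𝓝 (f i 0))
  sign : ∃ S : Finset I, (∀ i ∉ S, 0 < f i 0) ∧ ∀ᶠ ε : ℝ in 𝓝[>] 0, ∀ i ∉ S, 0 < f i ε

section
variable {I : Type*} {q : I → ℕ} {f : I → ℝ → ℝ} {c : I → ℝ}

theorem sign_mul_abs' (x : ℝ) : SignType.sign x * |x| = x := by
  rw [mul_comm]
  exact abs_mul_sign x

/-- the signs -/
theorem SEdge.signs (h : SEdge I q f c) : ∃ σ : ℝ, (σ = 1 ∨ σ = -1) ∧
    (∀ᶠ ε : ℝ in 𝓝[>] 0, ∀ L : ℝ, HasProd (fun i => |f i ε|) L → HasProd (fun i => f i ε) (σ * L)) ∧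
    ∀ᶠ u : ℝ in atTop, ∏ i ∈ h.places.upTo u, f i 0 = σ * ∏ i ∈ h.places.upTo u, |f i 0| := by
  classical
  obtain ⟨S, hS1, hS2⟩ := h.sign
  set sg : I → ℝ := fun i => if 0 < f i 0 then 1 else -1 with hsg
  have hsg1 : ∀ i ∉ S, sg i = 1 := fun i hi => if_pos (hS1 i hi)
  have hsq : ∀ i, sg i = 1 ∨ sg i = -1 := by
    intro i
    simp only [hsg]
    split_ifs
    · exact Or.inl rfl
    · exact Or.inr rfl
  have h0 : ∀ i, f i 0 = sg i * |f i 0| := by
    intro i
    simp only [hsg]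
    split_ifs with h1
    · rw [one_mul, abs_of_pos h1]
    · have h2 : f i 0 < 0 := lt_of_le_of_ne (not_lt.mp h1) (h.ne i)
      rw [abs_of_neg h2]; ring
  have hε : ∀ᶠ ε : ℝ in 𝓝[>] 0, ∀ i, f i ε = sg i * |f i ε| := by
    have h1 : ∀ᶠ ε : ℝ in 𝓝[>] 0, ∀ i ∈ S, f i ε = sg i * |f i ε| := by
      rw [Filter.eventually_all_finset]
      intro i _
      by_cases h2 : 0 < f i 0
      · filter_upwards [(h.cont i).eventually (lt_mem_nhds h2)] with ε h3
        simp only [hsg]
        rw [if_pos h2, one_mul, abs_of_pos h3]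
      · have h3 : f i 0 < 0 := lt_of_le_of_ne (not_lt.mp h2) (h.ne i)
        filter_upwards [(h.cont i).eventually (gt_mem_nhds h3)] with ε h4
        simp only [hsg]
        rw [if_neg h2, abs_of_neg h4]; ring
    filter_upwards [h1, hS2] with ε h3 h4 i
    by_cases hi : i ∈ S
    · exact h3 i hi
    · rw [hsg1 i hi, one_mul, abs_of_pos (h4 i hi)]
  refine ⟨∏ i ∈ S, sg i, ?_, ?_, ?_⟩
  · refine Finset.prod_induction sg (fun x => x = 1 ∨ x = -1) ?_ (Or.inl rfl) fun i _ => hsq i
    rintro a b (rfl | rfl) (rfl | rfl) <;> simp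
  · filter_upwards [hε] with ε h1 L hL
    have h2 : HasProd sg (∏ i ∈ S, sg i) := hasProd_prod_of_ne_finset_one fun i hi => hsg1 i hi
    have h3 := h2.mul hL
    refine h3.congr_fun fun i => ?_
    exact h1 i
  · set u0 : ℝ := Real.log (∑ i ∈ S, (q i : ℝ) + 1) with hu0
    filter_upwards [eventually_ge_atTop u0] with u hu
    have hsub : S ⊆ h.places.upTo u := by
      intro i hi
      rw [h.places.mem_upTo]
      have h1 : (q i : ℝ) ≤ ∑ i ∈ S, (q i : ℝ) :=
        Finset.single_le_sum (f := fun i => (q i : ℝ)) (fun _ _ => Nat.cast_nonneg _) hi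
      have h2 : 0 < ∑ i ∈ S, (q i : ℝ) + 1 := by
        have : 0 ≤ ∑ i ∈ S, (q i : ℝ) := Finset.sum_nonneg fun _ _ => Nat.cast_nonneg _
        linarith
      have h3 : ∑ i ∈ S, (q i : ℝ) + 1 ≤ Real.exp u := by
        rw [← Real.log_le_iff_le_exp h2]
        exact hu
      linarith
    have h1 : ∏ i ∈ h.places.upTo u, f i 0 = (∏ i ∈ h.places.upTo u, sg i) *
        ∏ i ∈ h.places.upTo u, |f i 0| := by
      rw [← Finset.prod_mul_distrib]
      exact Finset.prod_congr rfl fun i _ => h0 i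
    rw [h1]
    congr 1
    exact (Finset.prod_subset hsub fun i _ hi => hsg1 i hi).symm

/-- the product of the absolute values -/
theorem SEdge.hasProd_abs (h : SEdge I q f c) :
    ∀ᶠ ε : ℝ in 𝓝[>] 0, HasProd (fun i => |f i ε|) (Real.exp (∑' i, Real.log |f i ε|)) := by
  obtain ⟨D, hD, hr⟩ := h.rest
  filter_upwards [hr, self_mem_nhdsWithin] with ε h1 hε
  have hε0 : (0 : ℝ) < ε := hε
  have h3 : Summable fun i => Real.log |f i ε| - c i * (q i : ℝ) ^ (-ε) :=
    Summable.of_norm_bounded hD fun i => (h1 i).2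
  obtain ⟨M, hb⟩ := h.bound
  have hM : 0 ≤ M := by
    have h1 := hb 2
    have h2 : bst 2 = 1 / 2 := by
      unfold bst
      rw [if_pos (Nat.prime_two.isPrimePow)]
      norm_num
    rw [h2] at h1
    have h3 : 0 ≤ ∑ i ∈ (h.places.fin 2).toFinset, |c i| :=
      Finset.sum_nonneg fun i _ => abs_nonneg _
    linarith
  have h4 : Summable fun i => c i * (q i : ℝ) ^ (-ε) := by
    refine Summable.of_norm ?_
    refine h.places.summable_fiber (fun i => norm_nonneg _) ((bst_sum hε0).mul_left M)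
      (fun n => mul_nonneg hM (mul_nonneg (bst_nonneg n) (Real.rpow_nonneg (Nat.cast_nonneg n) _)))
      fun n => ?_
    have h1 : ∑ i ∈ (h.places.fin n).toFinset, ‖c i * (q i : ℝ) ^ (-ε)‖ =
        (∑ i ∈ (h.places.fin n).toFinset, |c i|) * (n : ℝ) ^ (-ε) := by
      rw [Finset.sum_mul]
      refine Finset.sum_congr rfl fun i hi => ?_
      have h2 : q i = n := by simpa using hi
      rw [norm_mul, Real.norm_of_nonneg (Real.rpow_nonneg (Nat.cast_nonneg _) _),
        Real.norm_eq_abs, h2]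
    rw [h1, ← mul_assoc]
    exact mul_le_mul_of_nonneg_right (hb n) (Real.rpow_nonneg (Nat.cast_nonneg n) _)
  have h5 : Summable fun i => Real.log |f i ε| := by
    refine (h3.add h4).congr fun i => ?_
    ring
  have h6 := h5.hasSum.rexp
  refine h6.congr_fun fun i => ?_
  exact (Real.exp_log (abs_pos.mpr (h1 i).1)).symm

theorem SEdge.edge (h : SEdge I q f c) :
    Edge I q (fun i ε => |f i ε|) (fun ε => |∏' i, f i ε|) c where
  places := h.places
  bound := h.bound
  rest := by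
    obtain ⟨D, hD, hr⟩ := h.rest
    refine ⟨D, hD, ?_⟩
    filter_upwards [hr] with ε h1 i
    exact ⟨abs_pos.mpr (h1 i).1, (h1 i).2⟩
  pos := fun i => abs_pos.mpr (h.ne i)
  cont := fun i => (h.cont i).abs
  prod := by
    obtain ⟨σ, hσ, h1, -⟩ := h.signs
    filter_upwards [h1, h.hasProd_abs] with ε h2 h3
    have h4 := h2 _ h3
    rw [h4.tprod_eq, abs_mul, abs_of_pos (Real.exp_pos _)]
    have h5 : |σ| = 1 := by
      rcases hσ with rfl | rfl <;> simp
    rw [h5, one_mul]
    exact h3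

/-- **Mertens law at the edge**, real factors. -/
theorem SEdge.iff (h : SEdge I q f c) (m : ℝ) {A : ℝ} (hA : A ≠ 0) :
    Tendsto (fun ε : ℝ => ε ^ m * ∏' i, f i ε) (𝓝[>] 0) (𝓝 A) ↔
      Tendsto (fun u : ℝ => (∏ i ∈ h.places.upTo u, f i 0) / u ^ m) atTop
        (𝓝 (A * Real.exp (m * Real.eulerMascheroniConstant))) := by
  obtain ⟨σ, hσ, h1, h2⟩ := h.signs
  have hσ0 : σ ≠ 0 := by rcases hσ with rfl | rfl <;> norm_num
  have hσ2 : σ * σ = 1 := by rcases hσ with rfl | rfl <;> norm_num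
  have hσa : |σ| = 1 := by rcases hσ with rfl | rfl <;> simp
  have h3 : ∀ᶠ ε : ℝ in 𝓝[>] 0, ∏' i, f i ε = σ * |∏' i, f i ε| := by
    filter_upwards [h1, h.hasProd_abs] with ε h2 h3
    have h4 := h2 _ h3
    rw [h4.tprod_eq, abs_mul, abs_of_pos (Real.exp_pos _), hσa, one_mul]
  have hpos : ∀ u : ℝ, 0 < ∏ i ∈ h.places.upTo u, |f i 0| := fun u =>
    Finset.prod_pos fun i _ => abs_pos.mpr (h.ne i)
  rcases lt_or_ge 0 (σ * A) with hs | hs
  · have h4 := h.edge.iff m hs
    have e1 : Tendsto (fun ε : ℝ => ε ^ m * ∏' i, f i ε) (𝓝[>] 0) (𝓝 A) ↔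
        Tendsto (fun ε : ℝ => ε ^ m * |∏' i, f i ε|) (𝓝[>] 0) (𝓝 (σ * A)) := by
      constructor
      · intro h5
        refine (h5.const_mul σ).congr' ?_
        filter_upwards [h3] with ε h6
        rw [h6, abs_mul, hσa, one_mul, abs_abs]
        linear_combination (ε ^ m * |∏' i, f i ε|) * hσ2
      · intro h5
        have h6 := h5.const_mul σ
        rw [← mul_assoc, hσ2, one_mul] at h6
        refine h6.congr' ?_
        filter_upwards [h3] with ε h7
        rw [h7, abs_mul, hσa, one_mul, abs_abs]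
        ring
    have e2 : Tendsto (fun u : ℝ => (∏ i ∈ h.places.upTo u, f i 0) / u ^ m) atTop
        (𝓝 (A * Real.exp (m * Real.eulerMascheroniConstant))) ↔
        Tendsto (fun u : ℝ => (∏ i ∈ h.places.upTo u, |f i 0|) / u ^ m) atTop
        (𝓝 (σ * A * Real.exp (m * Real.eulerMascheroniConstant))) := by
      constructor
      · intro h5
        have h6 := h5.const_mul σ
        rw [← mul_assoc] at h6
        refine h6.congr' ?_
        filter_upwards [h2] with u h7
        rw [h7, mul_div_assoc, ← mul_assoc, hσ2, one_mul]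
      · intro h5
        have h6 := h5.const_mul σ
        rw [mul_assoc, ← mul_assoc, hσ2, one_mul] at h6
        refine h6.congr' ?_
        filter_upwards [h2] with u h7
        rw [h7, mul_div_assoc]
    rw [e1, e2]
    exact h4
  · have hs' : σ * A < 0 := lt_of_le_of_ne hs (mul_ne_zero hσ0 hA)
    constructor
    · intro h5
      exfalso
      have h6 : Tendsto (fun ε : ℝ => ε ^ m * |∏' i, f i ε|) (𝓝[>] 0) (𝓝 (σ * A)) := by
        refine (h5.const_mul σ).congr' ?_
        filter_upwards [h3] with ε h6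
        rw [h6, abs_mul, hσa, one_mul, abs_abs]
        linear_combination (ε ^ m * |∏' i, f i ε|) * hσ2
      have h7 : 0 ≤ σ * A := by
        refine ge_of_tendsto h6 ?_
        filter_upwards [self_mem_nhdsWithin] with ε hε
        have hε0 : (0 : ℝ) < ε := hε
        positivity
      linarith
    · intro h5
      exfalso
      have h6 : Tendsto (fun u : ℝ => (∏ i ∈ h.places.upTo u, |f i 0|) / u ^ m) atTop
          (𝓝 (σ * A * Real.exp (m * Real.eulerMascheroniConstant))) := by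
        have h6 := h5.const_mul σ
        rw [← mul_assoc] at h6
        refine h6.congr' ?_
        filter_upwards [h2] with u h7
        rw [h7, mul_div_assoc, ← mul_assoc, hσ2, one_mul]
      have h7 : 0 ≤ σ * A * Real.exp (m * Real.eulerMascheroniConstant) := by
        refine ge_of_tendsto h6 ?_
        filter_upwards [eventually_gt_atTop 0] with u hu
        have := hpos u
        positivity
      have h8 : σ * A * Real.exp (m * Real.eulerMascheroniConstant) < 0 :=
        mul_neg_of_neg_of_pos hs' (Real.exp_pos _)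
      linarith

/-- the product is not zero -/
theorem SEdge.ne_zero (h : SEdge I q f c) : ∀ᶠ ε : ℝ in 𝓝[>] 0, ∏' i, f i ε ≠ 0 := by
  filter_upwards [h.edge.remainder.2.1] with ε hε
  exact abs_pos.mp hε

/-- `∏_{q_i ≤ x} f i` -/
noncomputable def pprod (q : I → ℕ) (f : I → ℝ) (x : ℝ) : ℝ := ∏ᶠ i ∈ {i : I | (q i : ℝ) ≤ x}, f i

theorem SEdge.finprod_eq (h : SEdge I q f c) (g : I → ℝ) {x : ℝ} (hx : 0 < x) :
    pprod q g x = ∏ i ∈ h.places.upTo (Real.log x), g i := by
  have h1 : {i : I | (q i : ℝ) ≤ x} = ((h.places.upTo (Real.log x) : Finset I) : Set I) := by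
    ext i
    rw [Finset.mem_coe, h.places.mem_upTo, Real.exp_log hx]
    rfl
  unfold pprod
  rw [h1]
  exact finprod_mem_coe_finset _ _

/-- **Mertens law at the edge**, in terms of `x = e^u`. -/
theorem SEdge.iff_x (h : SEdge I q f c) (m : ℝ) {A : ℝ} (hA : A ≠ 0) :
    Tendsto (fun ε : ℝ => ε ^ m * ∏' i, f i ε) (𝓝[>] 0) (𝓝 A) ↔
      Tendsto (fun x : ℝ => pprod q (fun i => f i 0) x / (Real.log x) ^ m) atTop
        (𝓝 (A * Real.exp (m * Real.eulerMascheroniConstant))) := by
  rw [h.iff m hA]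
  constructor
  · intro h1
    refine (h1.comp Real.tendsto_log_atTop).congr' ?_
    filter_upwards [eventually_gt_atTop 0] with x hx
    rw [Function.comp_apply, h.finprod_eq _ hx]
  · intro h1
    refine (h1.comp Real.tendsto_exp_atTop).congr' ?_
    filter_upwards with u
    rw [Function.comp_apply, h.finprod_eq _ (Real.exp_pos u), Real.log_exp]

/-- the order of magnitude, without hypotheses -/
theorem SEdge.approx_x (h : SEdge I q f c) : ∃ C : ℝ, ∀ᶠ x : ℝ in atTop,
    |Real.log (pprod q (fun i => f i 0) x) - Real.log (∏' i, f i (1 / Real.log x))| ≤ C := by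
  obtain ⟨C, hC⟩ := h.edge.approx
  refine ⟨C, ?_⟩
  filter_upwards [Real.tendsto_log_atTop.eventually hC, eventually_gt_atTop 0] with x h1 hx
  rw [← Real.log_abs (pprod q (fun i => f i 0) x), ← Real.log_abs (∏' i, f i (1 / Real.log x)),
    h.finprod_eq _ hx, Finset.abs_prod]
  have h2 : ∑ i ∈ h.places.upTo (Real.log x), Real.log |f i 0| =
      Real.log (∏ i ∈ h.places.upTo (Real.log x), |f i 0|) :=
    (Real.log_prod fun i _ => (abs_pos.mpr (h.ne i)).ne').symm
  rw [← h2]
  exact h1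

end

end Pool.Agent.TH129.EM
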