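import Pool.Agent.TH129.EM.Sgn

/-!
# Euler systems at the edge

`B i` is a real polynomial, `B i (z) = ∏ (1 - α z)` over a multiset of at most `N` complex numbers
of absolute value at most `q_i^β` for almost all `i`; the edge is `s₀ = β + δ`.
-/

set_option autoImplicit false

namespace Pool.Agent.TH129.EM

open Filter Topology Set Polynomial

theorem log_one_sub {a : ℂ} (h : ‖a‖ ≤ 1 / 2) :
    1 - a ≠ 0 ∧ |-Real.log ‖1 - a‖ - a.re| ≤ ‖a‖ ^ 2 := by
  have h1 : ‖-a‖ < 1 := by rw [norm_neg]; linarith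
  have h2 := Complex.norm_log_one_add_sub_self_le h1
  rw [norm_neg] at h2
  have hne : 1 - a ≠ 0 := by
    intro h0
    have : a = 1 := (sub_eq_zero.mp h0).symm
    rw [this, norm_one] at h
    norm_num at h
  refine ⟨hne, ?_⟩
  have h3 : (Complex.log (1 + -a) - -a).re = Real.log ‖1 - a‖ + a.re := by
    rw [Complex.sub_re, Complex.log_re, ← sub_eq_add_neg, Complex.neg_re]
    ring
  have h4 : |-Real.log ‖1 - a‖ - a.re| = |(Complex.log (1 + -a) - -a).re| := by
    rw [h3, ← abs_neg]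
    congr 1
    ring
  rw [h4]
  refine (Complex.abs_re_le_norm _).trans (h2.trans ?_)
  have h5 : (1 - ‖a‖)⁻¹ ≤ 2 := by
    rw [inv_le_comm₀ (by linarith) (by norm_num)]
    linarith
  have h6 : 0 ≤ ‖a‖ ^ 2 := by positivity
  nlinarith

theorem ms_log (s : Multiset ℂ) {r : ℝ} (hr2 : r ≤ 1 / 2) (h : ∀ w ∈ s, ‖w‖ ≤ r) :
    (s.map (fun w => 1 - w)).prod ≠ 0 ∧
      |-Real.log ‖(s.map (fun w => 1 - w)).prod‖ - s.sum.re| ≤ s.card * r ^ 2 := by
  induction s using Multiset.induction_on with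
  | empty => simp
  | cons a t ih =>
    obtain ⟨h1, h2⟩ := ih fun w hw => h w (Multiset.mem_cons_of_mem hw)
    have ha := h a (Multiset.mem_cons_self a t)
    obtain ⟨h3, h4⟩ := log_one_sub (ha.trans hr2)
    rw [Multiset.map_cons, Multiset.prod_cons, Multiset.sum_cons, Multiset.card_cons]
    refine ⟨mul_ne_zero h3 h1, ?_⟩
    rw [norm_mul, Real.log_mul (norm_ne_zero_iff.mpr h3) (norm_ne_zero_iff.mpr h1),
      Complex.add_re]
    have h5 : ‖a‖ ^ 2 ≤ r ^ 2 := pow_le_pow_left₀ (norm_nonneg _) ha 2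
    push_cast
    have e : -(Real.log ‖1 - a‖ + Real.log ‖(Multiset.map (fun w => 1 - w) t).prod‖) -
        (a.re + t.sum.re) = (-Real.log ‖1 - a‖ - a.re) +
        (-Real.log ‖(Multiset.map (fun w => 1 - w) t).prod‖ - t.sum.re) := by ring
    rw [e]
    refine (abs_add_le _ _).trans ?_
    linarith

/-- positivity of a real polynomial without zeros on `[0, z]` -/
theorem eval_pos_of_ne {B : ℝ[X]} {z : ℝ} (hz : 0 ≤ z) (h0 : B.eval 0 = 1)
    (h : ∀ t, 0 ≤ t → t ≤ z → B.eval t ≠ 0) : 0 < B.eval z := by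
  by_contra hcon
  have h1 : B.eval z ≤ 0 := not_lt.mp hcon
  have h2 : (0 : ℝ) ∈ Icc (B.eval z) (B.eval 0) := ⟨h1, by rw [h0]; exact zero_le_one⟩
  have h3 := intermediate_value_Icc' hz (B.continuous.continuousOn (s := Icc 0 z))
  obtain ⟨t, ht, ht0⟩ := h3 h2
  exact h t ht.1 ht.2 ht0

/-- the inverse roots -/
def IsFactor (B : ℝ[X]) (s : Multiset ℂ) : Prop :=
  ∀ z : ℂ, (B.map (algebraMap ℝ ℂ)).eval z = (s.map fun α => 1 - α * z).prod

theorem IsFactor.real {B : ℝ[X]} {s : Multiset ℂ} (h : IsFactor B s) (t : ℝ) :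
    ((B.eval t : ℝ) : ℂ) = ((s.map fun α => α * (t : ℂ)).map fun w => 1 - w).prod := by
  have h1 := h (t : ℂ)
  rw [Multiset.map_map]
  have h2 : ((B.eval t : ℝ) : ℂ) = (B.map (algebraMap ℝ ℂ)).eval (t : ℂ) := by
    rw [Polynomial.eval_map]
    have := Polynomial.eval₂_at_apply (p := B) (algebraMap ℝ ℂ) t
    simpa using this.symm
  rw [h2, h1]
  rfl

/-- **the local factor at a good place** -/
theorem local_factor {B : ℝ[X]} {s : Multiset ℂ} (h : IsFactor B s) {q β δ : ℝ} {N : ℕ}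
    (hq : 2 ≤ q) (hδ : 1 ≤ δ) (hN : s.card ≤ N) (hs : ∀ α ∈ s, ‖α‖ ≤ q ^ β) :
    |s.sum.re * q ^ (-(β + δ))| ≤ N * q ^ (-δ) ∧ ∀ ε : ℝ, 0 ≤ ε →
      0 < B.eval (q ^ (-(β + δ + ε))) ∧
      |Real.log |(B.eval (q ^ (-(β + δ + ε))))⁻¹| - s.sum.re * q ^ (-(β + δ)) * q ^ (-ε)| ≤
        N * q ^ (-(2 * δ)) := by
  have hq0 : 0 < q := by linarith
  have hq1 : 1 ≤ q := by linarith
  constructor
  · have h1 : |s.sum.re| ≤ N * q ^ β := by
      refine (Complex.abs_re_le_norm _).trans ((norm_multiset_sum_le _).trans ?_)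
      have h2 : ((s.map fun z => ‖z‖).sum) ≤ (s.map fun z => ‖z‖).card • q ^ β := by
        refine Multiset.sum_le_card_nsmul _ _ fun x hx => ?_
        obtain ⟨z, hz, rfl⟩ := Multiset.mem_map.mp hx
        exact hs z hz
      refine h2.trans ?_
      rw [Multiset.card_map, nsmul_eq_mul]
      exact mul_le_mul_of_nonneg_right (by exact_mod_cast hN) (Real.rpow_nonneg hq0.le _)
    rw [abs_mul, abs_of_pos (Real.rpow_pos_of_pos hq0 _)]
    refine (mul_le_mul_of_nonneg_right h1 (Real.rpow_nonneg hq0.le _)).trans (le_of_eq ?_)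
    rw [mul_assoc, ← Real.rpow_add hq0]
    congr 2
    ring
  · intro ε hε
    have hmem : ∀ t : ℝ, 0 ≤ t → t ≤ q ^ (-(β + δ + ε)) →
        ∀ w ∈ (s.map fun α => α * (t : ℂ)), ‖w‖ ≤ q ^ (-δ) := by
      intro t ht ht2 w hw
      obtain ⟨α, hα, rfl⟩ := Multiset.mem_map.mp hw
      rw [norm_mul, Complex.norm_real, Real.norm_of_nonneg ht]
      refine (mul_le_mul (hs α hα) ht2 ht (Real.rpow_nonneg hq0.le _)).trans ?_
      rw [← Real.rpow_add hq0]
      exact Real.rpow_le_rpow_of_exponent_le hq1 (by linarith)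
    have hr : q ^ (-δ) ≤ 1 / 2 := by
      have h1 : q ^ (-δ) ≤ q ^ (-1 : ℝ) := Real.rpow_le_rpow_of_exponent_le hq1 (by linarith)
      rw [Real.rpow_neg_one] at h1
      refine h1.trans ?_
      rw [one_div]
      exact inv_anti₀ (by norm_num) hq
    have hne : ∀ t : ℝ, 0 ≤ t → t ≤ q ^ (-(β + δ + ε)) → B.eval t ≠ 0 := by
      intro t ht ht2 h0
      have h1 := (ms_log _ hr (hmem t ht ht2)).1
      rw [← h.real t, h0] at h1
      simp at h1
    have h00 : B.eval 0 = 1 := by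
      have h1 := h.real 0
      simp only [Complex.ofReal_zero, mul_zero, Multiset.map_const', Multiset.map_replicate,
        sub_zero, Multiset.prod_replicate, one_pow] at h1
      exact_mod_cast h1
    set z : ℝ := q ^ (-(β + δ + ε)) with hz
    have hz0 : 0 < z := Real.rpow_pos_of_pos hq0 _
    have hpos := eval_pos_of_ne hz0.le h00 hne
    refine ⟨hpos, ?_⟩
    obtain ⟨h1, h2⟩ := ms_log _ hr (hmem z hz0.le le_rfl)
    rw [← h.real z, Multiset.card_map, Complex.norm_real, Real.norm_of_nonneg hpos.le] at h2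
    have h3 : (s.map fun α => α * (z : ℂ)).sum.re = s.sum.re * z := by
      rw [Multiset.sum_map_mul_right, Complex.mul_re, Complex.ofReal_re, Complex.ofReal_im]
      simp
    rw [h3] at h2
    have h4 : z = q ^ (-(β + δ)) * q ^ (-ε) := by
      rw [hz, ← Real.rpow_add hq0]; congr 1; ring
    rw [abs_inv, abs_of_pos hpos, Real.log_inv, mul_assoc, ← h4]
    refine h2.trans ?_
    have h5 : (q ^ (-δ)) ^ 2 = q ^ (-(2 * δ)) := by
      rw [← Real.rpow_natCast, ← Real.rpow_mul hq0.le]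
      congr 1
      push_cast
      ring
    rw [h5]
    exact mul_le_mul_of_nonneg_right (by exact_mod_cast hN) (Real.rpow_nonneg hq0.le _)

/-- an Euler system over a family of places -/
structure System {I : Type*} (q : I → ℕ) (β δ : ℝ) (N : ℕ) (B : I → ℝ[X]) : Prop where
  good : ∀ᶠ i in cofinite, ∃ s : Multiset ℂ, s.card ≤ N ∧ (∀ α ∈ s, ‖α‖ ≤ (q i : ℝ) ^ β) ∧
    IsFactor (B i) s
  ne : ∀ i, (B i).eval ((q i : ℝ) ^ (-(β + δ))) ≠ 0

/-- the number of places of norm `n` is at most `M n^{δ-1}`, and all norms are prime powers -/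
def Fibres {I : Type*} {q : I → ℕ} (hq : Places I q) (δ : ℝ) : Prop :=
  ∃ M : ℝ, 0 ≤ M ∧ ∀ n, ((hq.fin n).toFinset.card : ℝ) * (n : ℝ) ^ (-δ) ≤ M * bst n

/-- the local factor as a function of `ε` -/
noncomputable def fac {I : Type*} (q : I → ℕ) (β δ : ℝ) (B : I → ℝ[X]) (i : I) (ε : ℝ) : ℝ :=
  ((B i).eval ((q i : ℝ) ^ (-(β + δ + ε))))⁻¹

theorem fac_cont {I : Type*} {q : I → ℕ} (hq : Places I q) {β δ : ℝ} {B : I → ℝ[X]} {i : I}
    (h : (B i).eval ((q i : ℝ) ^ (-(β + δ))) ≠ 0) :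
    Tendsto (fac q β δ B i) (𝓝[>] 0) (𝓝 (fac q β δ B i 0)) := by
  have hq0 : (0 : ℝ) < q i := by
    have := hq.two_le i
    exact_mod_cast (by omega : 0 < q i)
  have h1 : ContinuousAt (fac q β δ B i) 0 := by
    unfold fac
    refine ContinuousAt.inv₀ ?_ (by rw [add_zero]; exact h)
    refine (B i).continuous.continuousAt.comp ?_
    exact (Real.continuous_const_rpow hq0.ne' |>.comp (by fun_prop)).continuousAt
  exact tendsto_nhdsWithin_of_tendsto_nhds h1

/-- **The Euler product of an Euler system at the edge.** -/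
theorem System.sedge {I : Type*} {q : I → ℕ} (hq : Places I q) {β δ : ℝ} {N : ℕ} (hδ : 1 ≤ δ)
    (hfib : Fibres hq δ) {B : I → ℝ[X]} (hB : System q β δ N B) :
    ∃ c : I → ℝ, SEdge I q (fac q β δ B) c ∧ ∀ᶠ i in cofinite, ∃ s : Multiset ℂ, s.card ≤ N ∧
      (∀ α ∈ s, ‖α‖ ≤ (q i : ℝ) ^ β) ∧ IsFactor (B i) s ∧
      c i = s.sum.re * (q i : ℝ) ^ (-(β + δ)) := by
  classical
  obtain ⟨M, hM, hfib⟩ := hfib
  set G : I → Prop := fun i => ∃ s : Multiset ℂ, s.card ≤ N ∧ (∀ α ∈ s, ‖α‖ ≤ (q i : ℝ) ^ β) ∧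
    IsFactor (B i) s with hG
  have hbad : {i | ¬ G i}.Finite := Filter.eventually_cofinite.mp hB.good
  set c : I → ℝ := fun i => if h : G i then (Classical.choose h).sum.re * (q i : ℝ) ^ (-(β + δ))
    else 0 with hc
  have hq2 : ∀ i, (2 : ℝ) ≤ q i := fun i => by exact_mod_cast hq.two_le i
  have hcg : ∀ i, G i → ∃ s : Multiset ℂ, s.card ≤ N ∧
      (∀ α ∈ s, ‖α‖ ≤ (q i : ℝ) ^ β) ∧ IsFactor (B i) s ∧
      c i = s.sum.re * (q i : ℝ) ^ (-(β + δ)) := by
    intro i hi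
    have h1 := Classical.choose_spec hi
    refine ⟨Classical.choose hi, h1.1, h1.2.1, h1.2.2, ?_⟩
    simp only [hc]
    rw [dif_pos hi]
  have hcb : ∀ i, |c i| ≤ N * (q i : ℝ) ^ (-δ) := by
    intro i
    by_cases hi : G i
    · obtain ⟨s, h1, h2, h3, h4⟩ := hcg i hi
      rw [h4]
      exact (local_factor h3 (hq2 i) hδ h1 h2).1
    · simp only [hc]
      rw [dif_neg hi, abs_zero]
      have := hq2 i
      positivity
  have hcont : ∀ i, Tendsto (fac q β δ B i) (𝓝[>] 0) (𝓝 (fac q β δ B i 0)) :=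
    fun i => fac_cont hq (hB.ne i)
  have hne0 : ∀ i, fac q β δ B i 0 ≠ 0 := fun i => by
    unfold fac
    rw [add_zero]
    exact inv_ne_zero (hB.ne i)
  have hgood : ∀ i, G i → ∀ ε : ℝ, 0 ≤ ε → 0 < fac q β δ B i ε ∧
      |Real.log |fac q β δ B i ε| - c i * (q i : ℝ) ^ (-ε)| ≤ N * (q i : ℝ) ^ (-(2 * δ)) := by
    intro i hi ε hε
    obtain ⟨s, h1, h2, h3, h4⟩ := hcg i hi
    obtain ⟨h5, h6⟩ := (local_factor h3 (hq2 i) hδ h1 h2).2 ε hε
    rw [h4]
    exact ⟨inv_pos.mpr h5, h6⟩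
  have hsum : Summable fun i => (q i : ℝ) ^ (-(2 * δ)) := by
    refine hq.summable_fiber (fun i => Real.rpow_nonneg (Nat.cast_nonneg _) _)
      ((bst_sum (show 0 < δ by linarith)).mul_left M)
      (fun n => mul_nonneg hM (mul_nonneg (bst_nonneg n) (Real.rpow_nonneg (Nat.cast_nonneg n) _)))
      fun n => ?_
    have h1 : ∀ i ∈ (hq.fin n).toFinset, (q i : ℝ) ^ (-(2 * δ)) ≤ (n : ℝ) ^ (-δ) * (n : ℝ) ^ (-δ) := by
      intro i hi
      have h2 : q i = n := by simpa using hi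
      have h3 : (0 : ℝ) < n := by
        rw [← h2]
        linarith [hq2 i]
      rw [h2, ← Real.rpow_add h3]
      exact Real.rpow_le_rpow_of_exponent_le (by rw [← h2]; linarith [hq2 i]) (by linarith)
    refine (Finset.sum_le_card_nsmul _ _ _ h1).trans ?_
    rw [nsmul_eq_mul, ← mul_assoc, ← mul_assoc]
    exact mul_le_mul_of_nonneg_right (hfib n) (Real.rpow_nonneg (Nat.cast_nonneg n) _)
  set D : I → ℝ := fun i => N * (q i : ℝ) ^ (-(2 * δ)) +
    (if i ∈ hbad.toFinset then abs (Real.log (abs (fac q β δ B i 0))) + 1 else 0) with hD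
  have hDs : Summable D := by
    refine (hsum.mul_left (N : ℝ)).add ?_
    exact summable_of_ne_finset_zero (s := hbad.toFinset) fun i hi => if_neg hi
  have hD0 : ∀ i, N * (q i : ℝ) ^ (-(2 * δ)) ≤ D i := by
    intro i
    simp only [hD]
    have : 0 ≤ (if i ∈ hbad.toFinset then abs (Real.log (abs (fac q β δ B i 0))) + 1 else 0) := by
      split_ifs <;> positivity
    linarith
  have hbadev : ∀ᶠ ε : ℝ in 𝓝[>] 0, ∀ i ∈ hbad.toFinset, fac q β δ B i ε ≠ 0 ∧
      |Real.log |fac q β δ B i ε| - c i * (q i : ℝ) ^ (-ε)| ≤ D i := by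
    rw [Filter.eventually_all_finset]
    intro i hi
    have hi' : ¬ G i := by simpa using hi
    have h1 := ((hcont i).abs.log (abs_pos.mpr (hne0 i)).ne').abs.eventually
      (gt_mem_nhds (lt_add_one _))
    filter_upwards [(hcont i).eventually_ne (hne0 i), h1] with ε h2 h3
    refine ⟨h2, ?_⟩
    have h4 : c i = 0 := by simp only [hc]; rw [dif_neg hi']
    rw [h4, zero_mul, sub_zero]
    simp only [hD]
    rw [if_pos hi]
    have := hq2 i
    have h5 : (0 : ℝ) ≤ N * (q i : ℝ) ^ (-(2 * δ)) := by positivity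
    linarith
  refine ⟨c, ⟨hq, ?_, ⟨D, hDs, ?_⟩, hne0, hcont, ⟨hbad.toFinset, ?_, ?_⟩⟩, ?_⟩
  · refine ⟨N * M, fun n => ?_⟩
    have h1 : ∀ i ∈ (hq.fin n).toFinset, |c i| ≤ N * (n : ℝ) ^ (-δ) := by
      intro i hi
      have h2 : q i = n := by simpa using hi
      rw [← h2]
      exact hcb i
    refine (Finset.sum_le_card_nsmul _ _ _ h1).trans ?_
    rw [nsmul_eq_mul]
    calc ((hq.fin n).toFinset.card : ℝ) * (N * (n : ℝ) ^ (-δ)) =
        N * (((hq.fin n).toFinset.card : ℝ) * (n : ℝ) ^ (-δ)) := by ring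
      _ ≤ N * (M * bst n) := mul_le_mul_of_nonneg_left (hfib n) (Nat.cast_nonneg N)
      _ = _ := by ring
  · filter_upwards [hbadev, self_mem_nhdsWithin] with ε h1 hε i
    have hε0 : (0 : ℝ) < ε := hε
    by_cases hi : i ∈ hbad.toFinset
    · exact h1 i hi
    · have hi' : G i := by simpa using hi
      obtain ⟨h2, h3⟩ := hgood i hi' ε hε0.le
      exact ⟨h2.ne', h3.trans (hD0 i)⟩
  · intro i hi
    have hi' : G i := by simpa using hi
    exact (hgood i hi' 0 le_rfl).1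
  · filter_upwards [self_mem_nhdsWithin] with ε hε i hi
    have hε0 : (0 : ℝ) < ε := hε
    have hi' : G i := by simpa using hi
    exact (hgood i hi' ε hε0.le).1
  · filter_upwards [hB.good] with i hi
    exact hcg i hi

end Pool.Agent.TH129.EM
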