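import Pool.Agent.TH129.EM.Avg2

/-!
# Averages of the traces of Frobenius on `H²`
-/

set_option autoImplicit false

namespace Pool.Agent.TH129.EM

open Filter Topology Set Polynomial NumberField IsDedekindDomain
open Pool.Agent.W263.BSD (stp)

variable {n : ℕ} {K : Type} [Field K] [NumberField K]

/-- `b v` is the trace of the geometric Frobenius at `v` on `H²(X)` and `B v` the Euler factor of
`L(H²(X), s)` for almost all primes `v` of `K`: `B_v(z) = ∏ (1 - α z)` and `b_v = ∑ α` for the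
eigenvalues `α` of Frobenius on `H²(X)`, and `N` is the second Betti number.  At the other primes
`b v` is an arbitrary real number and `B v` an arbitrary real polynomial without zero at
`q_v^{-2}`. -/
structure IsTraceSystem (X : Set (MvPolynomial (Fin n) (𝓞 K))) (d N : ℕ)
    (B : HeightOneSpectrum (𝓞 K) → ℝ[X]) (b : HeightOneSpectrum (𝓞 K) → ℝ) : Prop where
  good : ∀ᶠ v in cofinite, ∃ β : ℕ → Multiset ℂ, IsFrobenius X d v β ∧ (β 2).card = N ∧
    (∀ z : ℂ, ((B v).map (algebraMap ℝ ℂ)).eval z = ((β 2).map fun α => 1 - α * z).prod) ∧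
    (b v : ℂ) = (β 2).sum
  edge : ∀ v, (B v).eval (norm v ^ (-2 : ℝ)) ≠ 0

/-- `(1 / log T) ∑_{q_v ≤ T} b_v log q_v / q_v²` -/
noncomputable def logAverage (b : HeightOneSpectrum (𝓞 K) → ℝ) (T : ℝ) : ℝ :=
  (∑ᶠ v ∈ {v : HeightOneSpectrum (𝓞 K) | norm v ≤ T}, b v * Real.log (norm v) / norm v ^ 2) /
    Real.log T

/-- `(1 / T) ∑_{q_v ≤ T} b_v log q_v / q_v` -/
noncomputable def average (b : HeightOneSpectrum (𝓞 K) → ℝ) (T : ℝ) : ℝ :=
  (∑ᶠ v ∈ {v : HeightOneSpectrum (𝓞 K) | norm v ≤ T}, b v * Real.log (norm v) / norm v) / T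

theorem finsum_upTo (g : HeightOneSpectrum (𝓞 K) → ℝ) {T : ℝ} (hT : 0 < T) :
    ∑ᶠ v ∈ {v : HeightOneSpectrum (𝓞 K) | norm v ≤ T}, g v =
      ∑ v ∈ (nq_places (K := K)).upTo (Real.log T), g v := by
  have h1 : {v : HeightOneSpectrum (𝓞 K) | norm v ≤ T} =
      (((nq_places (K := K)).upTo (Real.log T) : Finset _) : Set (HeightOneSpectrum (𝓞 K))) := by
    ext v
    rw [Finset.mem_coe, (nq_places (K := K)).mem_upTo, Real.exp_log hT]
    rfl
  rw [h1]
  exact finsum_mem_coe_finset _ _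

theorem average_log {b : HeightOneSpectrum (𝓞 K) → ℝ} {ρ : ℝ}
    (h : Tendsto (average b) atTop (𝓝 ρ)) : Tendsto (logAverage b) atTop (𝓝 ρ) := by
  set a : HeightOneSpectrum (𝓞 K) → ℝ := fun v => b v * Real.log (norm v) / norm v with ha
  have h1 : Tendsto (fun u : ℝ => Real.exp (-u) * stp ((nq_places (K := K)).push a) u) atTop (𝓝 ρ) := by
    refine (h.comp Real.tendsto_exp_atTop).congr fun u => ?_
    unfold average
    rw [Function.comp_apply, finsum_upTo _ (Real.exp_pos u), Real.log_exp,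
      (nq_places (K := K)).push_stp, Real.exp_neg]
    ring
  have h0 : (nq_places (K := K)).push a 0 = 0 := by
    unfold Places.push
    refine Finset.sum_eq_zero fun v hv => ?_
    have h2 : nq v = 0 := by simpa using hv
    have := (nq_places (K := K)).two_le v
    omega
  have h2 := (nat_log_avg h0 h1).comp Real.tendsto_log_atTop
  refine h2.congr' ?_
  filter_upwards [eventually_gt_atTop 0] with T hT
  rw [Function.comp_apply, (nq_places (K := K)).push_div]
  unfold logAverage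
  rw [finsum_upTo _ hT]
  congr 1
  refine Finset.sum_congr rfl fun v _ => ?_
  simp only [ha]
  rw [norm_eq, div_div, sq]

theorem IsTraceSystem.law {X : Set (MvPolynomial (Fin n) (𝓞 K))} {d N : ℕ}
    {B : HeightOneSpectrum (𝓞 K) → ℝ[X]} {b : HeightOneSpectrum (𝓞 K) → ℝ}
    (h : IsTraceSystem X d N B b) :
    (∀ r A : ℝ, A ≠ 0 → Tendsto (fun ε : ℝ => ε ^ r * LFun B (2 + ε)) (𝓝[>] 0) (𝓝 A) →
      Tendsto (logAverage b) atTop (𝓝 r)) ∧
    ∀ Λ : ℂ → ℂ, MeromorphicAt Λ 2 → (∀ᶠ ε : ℝ in 𝓝[>] 0, Λ (2 + ε) = LFun B (2 + ε)) →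
      ∃ m : ℤ, meromorphicOrderAt Λ 2 = m ∧ Tendsto (logAverage b) atTop (𝓝 (-(m : ℝ))) := by
  have hs1 : System (nq (K := K)) 1 1 N B := by
    refine ⟨?_, fun v => ?_⟩
    · filter_upwards [h.good] with v hv
      obtain ⟨β, h1, h2, h3, -⟩ := hv
      refine ⟨β 2, h2.le, fun α hα => ?_, h3⟩
      have := h1.1 2 α hα
      rw [this, show (((2 : ℕ) : ℝ) / 2) = 1 by norm_num]
      exact le_of_eq rfl
    · have := h.edge v
      rw [show (-(1 + 1 : ℝ)) = -2 by norm_num]
      exact this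
  obtain ⟨c, hc, hc'⟩ := System.sedge (nq_places (K := K)) le_rfl nq_fibres hs1
  have e2 : ∀ ε : ℝ, ∏' v, fac nq 1 1 B v ε = LFun B (2 + ε) := by
    intro ε
    rw [LFun_fac]
    norm_num
  have h1 : ∀ r A : ℝ, A ≠ 0 → Tendsto (fun ε : ℝ => ε ^ r * LFun B (2 + ε)) (𝓝[>] 0) (𝓝 A) →
      Tendsto (logAverage b) atTop (𝓝 r) := by
    intro r A hA hlim
    simp only [← e2] at hlim
    have h3 := hc.log_avg hA hlim
    have hcb : ∀ᶠ v in cofinite, c v * Real.log (nq v) =
        b v * Real.log (norm v) / norm v ^ 2 := by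
      filter_upwards [hc', h.good] with v g1 g2
      obtain ⟨s, -, -, hs3, hs4⟩ := g1
      obtain ⟨β, -, -, h5, h6⟩ := g2
      have e1 : c v = b v * (nq v : ℝ) ^ (-2 : ℝ) := by
        have e3 : (b v : ℂ).re = b v := Complex.ofReal_re _
        rw [hs4, hs3.sum_eq, ← e3, h6, IsFactor.sum_eq (B := B v) h5]
        norm_num
      have hv0 := nq_pos v
      rw [e1, norm_eq, Real.rpow_neg hv0.le]
      norm_num
      field_simp
    have h4 := (nq_places (K := K)).avg_congr hcb h3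
    refine (h4.comp Real.tendsto_log_atTop).congr' ?_
    filter_upwards [eventually_gt_atTop 0] with T hT
    rw [Function.comp_apply]
    unfold logAverage
    rw [finsum_upTo _ hT]
  refine ⟨h1, fun Λ hΛ he => ?_⟩
  have hne : ∀ᶠ ε : ℝ in 𝓝[>] 0, LFun B (2 + ε) ≠ 0 := by
    filter_upwards [hc.ne_zero] with ε h2
    rwa [← e2]
  have e' : ((2 : ℝ) : ℂ) = 2 := by norm_num
  obtain ⟨m, l, hl, h2, -, h3⟩ := meromorphic_edge (s₀ := 2) (L := fun ε => LFun B (2 + ε))
    (by rw [e']; exact hΛ) hne (by rw [e']; exact he)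
  rw [e'] at h2
  exact ⟨m, h2, h1 (-(m : ℝ)) l hl h3⟩

end Pool.Agent.TH129.EM
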