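import Pool.Agent.TH129.EM.Pow
import Pool.Agent.W263.BSD.Order

/-!
# Sums over prime powers: sharp cutoff and Dirichlet series

`|c n| ≤ M bst n`.  The sums of `c n` over `n ≤ e^u` and the Dirichlet series at `w = 1 / u` differ
by a bounded quantity, and asymptotics `m log u + A` for one are equivalent to asymptotics for the
other.
-/

set_option autoImplicit false

namespace Pool.Agent.TH129.EM

open Filter Topology Set MeasureTheory
open Pool.Agent.W263.BSD

variable {c : ℕ → ℝ} {M : ℝ}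

theorem M_nonneg (hc : ∀ n, |c n| ≤ M * bst n) : 0 ≤ M := by
  have h1 := hc 2
  have h2 : bst 2 = 1 / 2 := by
    unfold bst
    rw [if_pos (Nat.prime_two.isPrimePow)]
    norm_num
  rw [h2] at h1
  linarith [abs_nonneg (c 2)]

theorem c_zero (hc : ∀ n, |c n| ≤ M * bst n) : c 0 = 0 := by
  have h1 := hc 0
  rw [bst_zero, mul_zero] at h1
  exact abs_nonpos_iff.mp h1

theorem c_sum (hc : ∀ n, |c n| ≤ M * bst n) (w : ℝ) (hw : 0 < w) :
    Summable fun n : ℕ => |c n| * (n : ℝ) ^ (-w) := by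
  refine Summable.of_nonneg_of_le (fun n => mul_nonneg (abs_nonneg _)
    (Real.rpow_nonneg (Nat.cast_nonneg n) _)) (fun n => ?_) ((bst_sum hw).mul_left M)
  rw [← mul_assoc]
  exact mul_le_mul_of_nonneg_right (hc n) (Real.rpow_nonneg (Nat.cast_nonneg n) _)

theorem stp_diff (hc : ∀ n, |c n| ≤ M * bst n) : ∃ C : ℝ, 0 ≤ C ∧ ∀ u v : ℝ, 1 ≤ u → u ≤ v →
    |stp c v - stp c u| ≤ M * (Real.log (v / u) + C / u) := by
  obtain ⟨C, hC0, hC⟩ := bst_slow
  refine ⟨C, hC0, fun u v hu huv => ?_⟩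
  rw [stp_sub huv]
  refine (Finset.abs_sum_le_sum_abs _ _).trans ?_
  refine (Finset.sum_le_sum fun n _ => hc n).trans ?_
  rw [← Finset.mul_sum, ← stp_sub huv]
  exact mul_le_mul_of_nonneg_left (hC u v hu huv) (M_nonneg hc)

/-- comparison at arbitrary points -/
theorem stp_cmp (hc : ∀ n, |c n| ≤ M * bst n) : ∃ C : ℝ, 0 ≤ C ∧ ∀ t u : ℝ, 0 < t → 1 ≤ u →
    |stp c t - stp c u| ≤ M * (t / u + 2 * √(u / t) + C) := by
  obtain ⟨C, hC0, hC⟩ := stp_diff hc
  have hM := M_nonneg hc
  obtain ⟨C1, hC1⟩ : ∃ C1 : ℝ, ∀ t : ℝ, 0 < t → t < 1 → |stp c t - stp c 1| ≤ M * C1 := by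
    refine ⟨∑ n ∈ Finset.range (⌊Real.exp 1⌋₊ + 1), bst n, fun t _ ht1 => ?_⟩
    rw [abs_sub_comm, stp_sub ht1.le]
    refine (Finset.abs_sum_le_sum_abs _ _).trans ?_
    refine (Finset.sum_le_sum fun n _ => hc n).trans ?_
    rw [← Finset.mul_sum]
    refine mul_le_mul_of_nonneg_left ?_ hM
    refine Finset.sum_le_sum_of_subset_of_nonneg (fun n hn => ?_) fun n _ _ => bst_nonneg n
    rw [Finset.mem_Ioc] at hn
    rw [Finset.mem_range]
    omega
  refine ⟨C + |C1|, by positivity, fun t u ht hu => ?_⟩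
  have hu0 : 0 < u := by linarith
  have hlog : ∀ x : ℝ, 0 < x → Real.log x ≤ 2 * √x := by
    intro x hx
    have e1 : Real.log x = 2 * Real.log (√x) := by
      rw [Real.log_sqrt hx.le]; ring
    have e2 := Real.log_le_sub_one_of_pos (Real.sqrt_pos.mpr hx)
    linarith
  have hC1' : M * C1 ≤ M * |C1| := mul_le_mul_of_nonneg_left (le_abs_self _) hM
  rcases lt_or_ge t 1 with h1 | h1
  · have e1 := hC1 t ht h1
    have e2 := hC 1 u le_rfl hu
    rw [div_one, div_one] at e2
    have e3 := hlog u hu0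
    have e4 : √u ≤ √(u / t) := by
      apply Real.sqrt_le_sqrt
      rw [le_div_iff₀ ht]
      nlinarith
    have e5 : |stp c t - stp c u| ≤ M * C1 + M * (Real.log u + C) := by
      have : stp c t - stp c u = (stp c t - stp c 1) - (stp c u - stp c 1) := by ring
      rw [this]
      exact (abs_sub _ _).trans (add_le_add e1 e2)
    refine e5.trans ?_
    have e6 : 0 ≤ t / u := by positivity
    have e7 : M * (Real.log u + C) ≤ M * (t / u + 2 * √(u / t) + C) :=
      mul_le_mul_of_nonneg_left (by linarith) hM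
    calc M * C1 + M * (Real.log u + C) ≤ M * |C1| + M * (t / u + 2 * √(u / t) + C) :=
          add_le_add hC1' e7
      _ = _ := by ring
  · rcases le_total t u with h2 | h2
    · have e1 := hC t u h1 h2
      rw [abs_sub_comm] at e1
      refine e1.trans (mul_le_mul_of_nonneg_left ?_ hM)
      have e2 := hlog (u / t) (by positivity)
      have e3 : C / t ≤ C := div_le_self hC0 h1
      have e6 : 0 ≤ t / u := by positivity
      have := abs_nonneg C1
      linarith
    · have e1 := hC u t hu h2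
      refine e1.trans (mul_le_mul_of_nonneg_left ?_ hM)
      have e2 : Real.log (t / u) ≤ t / u := by
        have := Real.log_le_sub_one_of_pos (show 0 < t / u by positivity)
        linarith
      have e3 : C / u ≤ C := div_le_self hC0 hu
      have e6 : 0 ≤ √(u / t) := Real.sqrt_nonneg _
      have := abs_nonneg C1
      linarith

theorem dser (hc : ∀ n, |c n| ≤ M * bst n) {w : ℝ} (hw : 0 < w) :
    ∑' n : ℕ, c n * (n : ℝ) ^ (-w) = w * lap (stp c) w :=
  (stp_hasSum (c_zero hc) (c_sum hc) hw).tsum_eq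

/-- **The sum up to `x = e^u` and the Dirichlet series at `1 / log x`.** -/
theorem stp_approx (hc : ∀ n, |c n| ≤ M * bst n) : ∃ C : ℝ, 0 ≤ C ∧ ∀ u : ℝ, 1 ≤ u →
    |stp c u - ∑' n : ℕ, c n * (n : ℝ) ^ (-(1 / u))| ≤ C := by
  obtain ⟨C, hC0, hC⟩ := stp_cmp hc
  have hM := M_nonneg hc
  refine ⟨M * (1 + 2 * Real.Gamma (1 / 2) + C), ?_, fun u hu => ?_⟩
  · have := (Real.Gamma_pos_of_pos (show (0 : ℝ) < 1 / 2 by norm_num))
    positivity
  have hu0 : 0 < u := by linarith
  set w : ℝ := 1 / u with hw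
  have hw0 : 0 < w := by positivity
  rw [dser hc hw0]
  have hi := stp_LInt (c_zero hc) (c_sum hc) hw0
  have h1 : LInt (fun _ : ℝ => stp c u) w := by
    have := (one_LInt hw0).const_mul (stp c u)
    simpa using this
  have h2 : lap (fun _ : ℝ => stp c u) w = stp c u / w := by
    have := lap_const_mul (f := fun _ : ℝ => (1 : ℝ)) (w := w) (stp c u)
    rw [one_lap hw0] at this
    simpa [div_eq_mul_inv] using this
  have h3 : stp c u - w * lap (stp c) w = -(w * lap (fun t => stp c t - stp c u) w) := by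
    rw [lap_sub hi h1, h2]
    field_simp
    ring
  rw [h3, abs_neg, abs_mul, abs_of_pos hw0]
  have h4 : |lap (fun t => stp c t - stp c u) w| ≤
      lap (fun t => M * (t / u + 2 * √(u / t) + C)) w := by
    unfold lap
    have hg1 : LInt (fun t : ℝ => M * (w * t)) w := ((lin_LInt hw0).const_mul w).const_mul M
    have hg2 : LInt (fun t : ℝ => M * (2 * √u * t ^ (-(1 / 2) : ℝ))) w :=
      ((rs_LInt hw0).const_mul (2 * √u)).const_mul M
    have hg3 : LInt (fun t : ℝ => M * C * 1) w := (one_LInt hw0).const_mul (M * C)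
    have hg := (hg1.add hg2).add hg3
    have hg' : IntegrableOn (fun t => M * (t / u + 2 * √(u / t) + C) * Real.exp (-(w * t)))
        (Ioi 0) := by
      unfold LInt at hg
      refine hg.congr_fun (fun t ht => ?_) measurableSet_Ioi
      have ht0 : (0 : ℝ) < t := ht
      simp only []
      rw [Real.sqrt_div hu0.le, Real.rpow_neg ht0.le, ← Real.sqrt_eq_rpow, hw]
      field_simp
    refine (abs_integral_le_integral_abs).trans ?_
    have hi2 : IntegrableOn (fun t => (stp c t - stp c u) * Real.exp (-(w * t))) (Ioi 0) :=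
      hi.sub h1
    refine setIntegral_mono_on hi2.abs hg' measurableSet_Ioi fun t ht => ?_
    have ht0 : (0 : ℝ) < t := ht
    rw [abs_mul, abs_of_pos (Real.exp_pos _)]
    exact mul_le_mul_of_nonneg_right (hC t u ht0 hu) (Real.exp_pos _).le
  have h5 : lap (fun t => M * (t / u + 2 * √(u / t) + C)) w =
      M * (w * (1 / w ^ 2)) + M * (2 * √u * ((1 / w) ^ (1 / 2 : ℝ) * Real.Gamma (1 / 2))) +
        M * C * (1 / w) := by
    have hg1 : LInt (fun t : ℝ => M * (w * t)) w := ((lin_LInt hw0).const_mul w).const_mul M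
    have hg2 : LInt (fun t : ℝ => M * (2 * √u * t ^ (-(1 / 2) : ℝ))) w :=
      ((rs_LInt hw0).const_mul (2 * √u)).const_mul M
    have hg3 : LInt (fun t : ℝ => M * C * 1) w := (one_LInt hw0).const_mul (M * C)
    have e1 : lap (fun t => M * (t / u + 2 * √(u / t) + C)) w =
        lap (fun t => (M * (w * t) + M * (2 * √u * t ^ (-(1 / 2) : ℝ))) + M * C * 1) w := by
      unfold lap
      refine setIntegral_congr_fun measurableSet_Ioi fun t ht => ?_
      have ht0 : (0 : ℝ) < t := ht
      simp only []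
      rw [Real.sqrt_div hu0.le, Real.rpow_neg ht0.le, ← Real.sqrt_eq_rpow, hw]
      field_simp
    rw [e1, lap_add (hg1.add hg2) hg3, lap_add hg1 hg2, lap_const_mul, lap_const_mul,
      lap_const_mul, lap_const_mul, lap_const_mul, one_lap hw0, rs_lap hw0, lin_lap hw0]
  have h6 : (1 / w) ^ (1 / 2 : ℝ) = √u := by
    rw [Real.sqrt_eq_rpow, hw, one_div_one_div]
  rw [h5, h6] at h4
  refine (mul_le_mul_of_nonneg_left h4 hw0.le).trans (le_of_eq ?_)
  have h7 : √u * √u = u := Real.mul_self_sqrt hu0.le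
  have h8 : w * u = 1 := by rw [hw]; field_simp
  have h9 : 1 / w = u := by rw [hw, one_div_one_div]
  rw [show 1 / w ^ 2 = u ^ 2 by rw [hw]; field_simp, h9]
  linear_combination (M * (w * u + 1) + M * C + 2 * M * Real.Gamma (1 / 2)) * h8 +
    2 * M * w * Real.Gamma (1 / 2) * h7

/-- the normalised sum -/
noncomputable def gg (c : ℕ → ℝ) (m : ℝ) (u : ℝ) : ℝ := stp c u - m * ell u

theorem gg_meas (m : ℝ) : Measurable (gg c m) := (stp_meas c).sub (ell_meas.const_mul m)

theorem gg_LInt (hc : ∀ n, |c n| ≤ M * bst n) (m : ℝ) (w : ℝ) (hw : 0 < w) :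
    LInt (gg c m) w :=
  (stp_LInt (c_zero hc) (c_sum hc) hw).sub ((ell_LInt hw).const_mul m)

theorem gg_lap (hc : ∀ n, |c n| ≤ M * bst n) (m : ℝ) {w : ℝ} (hw : 0 < w) :
    w * lap (gg c m) w = (∑' n : ℕ, c n * (n : ℝ) ^ (-w)) + m * Real.log w -
      m * (w * lap ell w + Real.log w) := by
  unfold gg
  rw [lap_sub (stp_LInt (c_zero hc) (c_sum hc) hw) ((ell_LInt hw).const_mul m), lap_const_mul,
    dser hc hw]
  ring

theorem ell_diff {u v : ℝ} (hu : 0 < u) (huv : u ≤ v) :
    0 ≤ ell v - ell u ∧ ell v - ell u ≤ Real.log (v / u) := by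
  have h1 := ell_mono hu.le huv
  refine ⟨by linarith, ?_⟩
  unfold ell
  have h2 := Real.exp_pos 1
  have hv : 0 < v := by linarith
  rw [← Real.log_div (by positivity) (by positivity)]
  apply Real.log_le_log (by positivity)
  rw [div_le_div_iff₀ (by positivity) hu]
  nlinarith

theorem gg_diff (hc : ∀ n, |c n| ≤ M * bst n) (m : ℝ) : ∃ C : ℝ, 0 ≤ C ∧ ∀ u v : ℝ, 1 ≤ u →
    u ≤ v → |gg c m v - gg c m u| ≤ (M + |m|) * Real.log (v / u) + C / u := by
  obtain ⟨C, hC0, hC⟩ := stp_diff hc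
  have hM := M_nonneg hc
  refine ⟨M * C, by positivity, fun u v hu huv => ?_⟩
  obtain ⟨e1, e2⟩ := ell_diff (show 0 < u by linarith) huv
  have e3 := hC u v hu huv
  have e4 : gg c m v - gg c m u = (stp c v - stp c u) - m * (ell v - ell u) := by
    unfold gg; ring
  rw [e4]
  refine (abs_sub _ _).trans ?_
  rw [abs_mul, abs_of_nonneg e1]
  have e5 : |m| * (ell v - ell u) ≤ |m| * Real.log (v / u) :=
    mul_le_mul_of_nonneg_left e2 (abs_nonneg _)
  calc _ ≤ M * (Real.log (v / u) + C / u) + |m| * Real.log (v / u) := add_le_add e3 e5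
    _ = _ := by ring

theorem gg_loc (hc : ∀ n, |c n| ≤ M * bst n) (m : ℝ) (U : ℝ) :
    ∃ B : ℝ, ∀ u, 0 < u → u ≤ U → |gg c m u| ≤ B := by
  refine ⟨M * (∑ n ∈ Finset.range (⌊Real.exp U⌋₊ + 1), bst n) + |m| * ell U, fun u hu huU => ?_⟩
  have hM := M_nonneg hc
  unfold gg
  refine (abs_sub _ _).trans (add_le_add ?_ ?_)
  · unfold stp
    refine (Finset.abs_sum_le_sum_abs _ _).trans ?_
    refine (Finset.sum_le_sum fun n _ => hc n).trans ?_
    rw [← Finset.mul_sum]
    refine mul_le_mul_of_nonneg_left ?_ hM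
    refine Finset.sum_le_sum_of_subset_of_nonneg (fun n hn => ?_) fun n _ _ => bst_nonneg n
    rw [Finset.mem_range] at hn ⊢
    have : ⌊Real.exp u⌋₊ ≤ ⌊Real.exp U⌋₊ := Nat.floor_mono (Real.exp_le_exp.mpr huU)
    omega
  · have e1 := ell_nonneg hu.le
    rw [abs_mul, abs_of_nonneg (by linarith : 0 ≤ ell u)]
    exact mul_le_mul_of_nonneg_left (ell_mono hu.le huU) (abs_nonneg _)

theorem gg_bdd (hc : ∀ n, |c n| ≤ M * bst n) (m : ℝ)
    (h : ∃ C : ℝ, ∀ᶠ w : ℝ in 𝓝[>] 0, |w * lap (gg c m) w| ≤ C) :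
    ∃ B : ℝ, ∀ u, 0 < u → |gg c m u| ≤ B := by
  obtain ⟨B, hB⟩ := abel_all (gg_meas m) (gg_LInt hc m) h
  obtain ⟨C, hC0, hC⟩ := gg_diff hc m
  have hM := M_nonneg hc
  refine bounded_of_slow (u0 := 1) (L := 2 * (M + |m|) + C) (gg_LInt hc m) hB le_rfl
    (by positivity) (fun u v hu huv => ?_) (gg_loc hc m)
  have e1 := (abs_le.mp (hC u v hu huv)).2
  have hu0 : 0 < u := by linarith
  have e2 : 1 ≤ v / u := by rwa [le_div_iff₀ hu0, one_mul]
  have e3 : Real.log (v / u) ≤ 2 * √(v / u) := by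
    have e1 : Real.log (v / u) = 2 * Real.log (√(v / u)) := by
      rw [Real.log_sqrt (by linarith)]; ring
    have e2 := Real.log_le_sub_one_of_pos (Real.sqrt_pos.mpr (show 0 < v / u by linarith))
    linarith
  have e4 : 1 ≤ √(v / u) := by rw [Real.one_le_sqrt]; exact e2
  have e5 : C / u ≤ C * √(v / u) := (div_le_self hC0 hu).trans (le_mul_of_one_le_right hC0 e4)
  have e6 : (M + |m|) * Real.log (v / u) ≤ (M + |m|) * (2 * √(v / u)) :=
    mul_le_mul_of_nonneg_left e3 (by positivity)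
  linarith

theorem gg_tauber (hc : ∀ n, |c n| ≤ M * bst n) (m : ℝ) {C : ℝ}
    (h : Tendsto (fun w : ℝ => w * lap (gg c m) w) (𝓝[>] 0) (𝓝 C)) :
    Tendsto (gg c m) atTop (𝓝 C) := by
  obtain ⟨B, hB⟩ := gg_bdd hc m ⟨|C| + 1, by
    have := h.abs.eventually (gt_mem_nhds (show |C| < |C| + 1 by linarith))
    filter_upwards [this] with w hw
    exact hw.le⟩
  obtain ⟨C', hC0, hC⟩ := gg_diff hc m
  have hM := M_nonneg hc
  refine tauber_limit (gg_meas m) (gg_LInt hc m) hB h fun ε hε => ?_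
  have hden : 0 < 2 * (M + |m| + 1) := by positivity
  refine ⟨ε / (2 * (M + |m| + 1)), by positivity, max 1 (2 * C' / ε), fun u v h1 h2 h3 => ?_⟩
  have hu : 1 ≤ u := (le_max_left _ _).trans h1
  have hu0 : 0 < u := by linarith
  have hu' : 2 * C' / ε ≤ u := (le_max_right _ _).trans h1
  have e1 := (abs_le.mp (hC u v hu h2)).2
  have e2 : Real.log (v / u) ≤ ε / (2 * (M + |m| + 1)) := by
    have e3 : v / u ≤ 1 + ε / (2 * (M + |m| + 1)) := by rwa [div_le_iff₀ hu0]
    have e4 := Real.log_le_sub_one_of_pos (show 0 < v / u by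
      have : 0 < v := by linarith
      positivity)
    linarith
  have e3 : (M + |m|) * Real.log (v / u) ≤ ε / 2 := by
    have e4 : (M + |m|) * Real.log (v / u) ≤ (M + |m|) * (ε / (2 * (M + |m| + 1))) :=
      mul_le_mul_of_nonneg_left e2 (by positivity)
    refine e4.trans ?_
    rw [mul_div_assoc', div_le_div_iff₀ hden (by norm_num)]
    nlinarith [abs_nonneg m]
  have e4 : C' / u ≤ ε / 2 := by
    rw [div_le_iff₀ hε] at hu'
    rw [div_le_div_iff₀ hu0 (by norm_num)]
    linarith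
  linarith

/-- an Abelian theorem -/
theorem abel_tendsto {f : ℝ → ℝ} (hi : ∀ w > 0, LInt f w)
    (hloc : ∀ U : ℝ, ∃ B : ℝ, ∀ u, 0 < u → u ≤ U → |f u| ≤ B) {C : ℝ}
    (h : Tendsto f atTop (𝓝 C)) : Tendsto (fun w : ℝ => w * lap f w) (𝓝[>] 0) (𝓝 C) := by
  rw [Metric.tendsto_nhds]
  intro ε hε
  obtain ⟨U0, hU0⟩ := eventually_atTop.mp (Metric.tendsto_nhds.mp h (ε / 4) (by linarith))
  set U := max U0 1 with hU
  obtain ⟨B, hB⟩ := hloc U
  have hUpos : 0 < U := lt_of_lt_of_le one_pos (le_max_right _ _)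
  have hB0 : 0 ≤ B := (abs_nonneg _).trans (hB U hUpos le_rfl)
  set K := B + |C| with hK
  have hK0 : 0 ≤ K := by positivity
  have h1 : Tendsto (fun w : ℝ => ε / 4 + K * (w * U)) (𝓝[>] 0) (𝓝 (ε / 4 + K * (0 * U))) := by
    have h2 : Continuous fun w : ℝ => ε / 4 + K * (w * U) := by fun_prop
    exact tendsto_nhdsWithin_of_tendsto_nhds (h2.tendsto 0)
  have h2 := h1.eventually (gt_mem_nhds (show ε / 4 + K * (0 * U) < ε / 2 by linarith))
  filter_upwards [h2, self_mem_nhdsWithin] with w hw1 hw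
  have hw0 : (0 : ℝ) < w := hw
  rw [Real.dist_eq]
  have e0 : LInt (fun _ : ℝ => C * 1) w := (one_LInt hw0).const_mul C
  have e1 : w * lap f w - C = w * lap (fun u => f u - C * 1) w := by
    rw [lap_sub (hi w hw0) e0, lap_const_mul, one_lap hw0]
    field_simp
  rw [e1, abs_mul, abs_of_pos hw0]
  have hg1 : LInt (fun _ : ℝ => ε / 4 * 1) w := (one_LInt hw0).const_mul _
  have hg2 := (st_LInt U hw0).const_mul K
  have e2 : |lap (fun u => f u - C * 1) w| ≤ lap (fun u => ε / 4 * 1 + K * st U u) w := by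
    unfold lap
    refine (abs_integral_le_integral_abs).trans ?_
    refine setIntegral_mono_on ((hi w hw0).sub e0).abs (hg1.add hg2) measurableSet_Ioi
      fun u hu => ?_
    have hu0 : (0 : ℝ) < u := hu
    rw [abs_mul, abs_of_pos (Real.exp_pos _)]
    refine mul_le_mul_of_nonneg_right ?_ (Real.exp_pos _).le
    rw [mul_one, mul_one]
    unfold st
    beta_reduce
    rcases le_or_gt u U with h3 | h3
    · rw [if_pos h3]
      have := hB u hu0 h3
      refine (abs_sub _ _).trans ?_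
      linarith
    · rw [if_neg (not_le.mpr h3)]
      have h4 := hU0 u ((le_max_left _ _).trans h3.le)
      rw [Real.dist_eq] at h4
      linarith
  rw [lap_add hg1 hg2, lap_const_mul, lap_const_mul, one_lap hw0, st_lap hUpos.le hw0] at e2
  have e3 : 1 - Real.exp (-(w * U)) ≤ w * U := by
    have := Real.add_one_le_exp (-(w * U))
    linarith
  have e4 : K * (1 - Real.exp (-(w * U))) ≤ K * (w * U) := mul_le_mul_of_nonneg_left e3 hK0
  have e5 : w * (ε / 4 * (1 / w) + K * ((1 - Real.exp (-(w * U))) / w)) =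
      ε / 4 + K * (1 - Real.exp (-(w * U))) := by
    field_simp
  have e6 := mul_le_mul_of_nonneg_left e2 hw0.le
  rw [e5] at e6
  linarith

theorem ell_sub_log : Tendsto (fun u : ℝ => ell u - Real.log u) atTop (𝓝 0) := by
  have h1 : Tendsto (fun u : ℝ => Real.exp 1 / u) atTop (𝓝 0) := tendsto_const_nhds.div_atTop tendsto_id
  refine squeeze_zero' ?_ ?_ h1
  · filter_upwards [eventually_gt_atTop 0] with u hu
    linarith [log_le_ell hu]
  · filter_upwards [eventually_gt_atTop 0] with u hu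
    unfold ell
    have h2 := Real.exp_pos 1
    rw [← Real.log_div (by positivity) hu.ne']
    refine (Real.log_le_sub_one_of_pos (by positivity)).trans ?_
    rw [add_div, div_self hu.ne']
    linarith

/-- **Asymptotics of the sums and of the Dirichlet series.** -/
theorem stp_iff (hc : ∀ n, |c n| ≤ M * bst n) (m A : ℝ) :
    Tendsto (fun w : ℝ => (∑' n : ℕ, c n * (n : ℝ) ^ (-w)) + m * Real.log w) (𝓝[>] 0) (𝓝 A) ↔
      Tendsto (fun u : ℝ => stp c u - m * Real.log u) atTop
        (𝓝 (A + m * Real.eulerMascheroniConstant)) := by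
  have h1 : Tendsto (fun w : ℝ => (∑' n : ℕ, c n * (n : ℝ) ^ (-w)) + m * Real.log w) (𝓝[>] 0)
      (𝓝 A) ↔ Tendsto (fun w : ℝ => w * lap (gg c m) w) (𝓝[>] 0)
        (𝓝 (A + m * Real.eulerMascheroniConstant)) := by
    have h2 := ell_lap_limit.const_mul m
    constructor
    · intro h
      have h3 := h.sub h2
      rw [show A - m * -Real.eulerMascheroniConstant = A + m * Real.eulerMascheroniConstant by
        ring] at h3
      refine h3.congr' ?_
      filter_upwards [self_mem_nhdsWithin] with w hw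
      rw [gg_lap hc m hw]
    · intro h
      have h3 := h.add h2
      rw [show A + m * Real.eulerMascheroniConstant + m * -Real.eulerMascheroniConstant = A by
        ring] at h3
      refine h3.congr' ?_
      filter_upwards [self_mem_nhdsWithin] with w hw
      rw [gg_lap hc m hw]
      ring
  have h4 : Tendsto (fun u : ℝ => stp c u - m * Real.log u) atTop
      (𝓝 (A + m * Real.eulerMascheroniConstant)) ↔ Tendsto (gg c m) atTop
      (𝓝 (A + m * Real.eulerMascheroniConstant)) := by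
    have h2 := ell_sub_log.const_mul m
    rw [mul_zero] at h2
    constructor
    · intro h
      have h3 := h.sub h2
      rw [sub_zero] at h3
      refine h3.congr fun u => ?_
      unfold gg; ring
    · intro h
      have h3 := h.add h2
      rw [add_zero] at h3
      refine h3.congr fun u => ?_
      unfold gg; ring
  rw [h1, h4]
  exact ⟨gg_tauber hc m, abel_tendsto (gg_LInt hc m) (gg_loc hc m)⟩

end Pool.Agent.TH129.EM
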